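import Pool.Agent.Work.MP_7d5fe8_co.Chain

/-! The decomposition of a bounded multiple of the cube. -/

open Finset

namespace MP7d5fe8

set_option linter.unusedSectionVars false

lemma exists_period (M : ℕ) (hM : 1 ≤ M) :
    ∃ j s : ℕ, 1 ≤ s ∧ j + s ≤ M ∧ M ∣ 2 ^ j * (2 ^ s - 1) := by
  obtain ⟨k, m, hm, hk⟩ := Nat.exists_eq_two_pow_mul_odd (n := M) (by omega)
  have hm0 : 0 < m := hm.pos
  refine ⟨k, m.totient, Nat.totient_pos.mpr hm0, ?_, ?_⟩
  · have h1 : k < 2 ^ k := Nat.lt_two_pow_self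
    have h2 : m.totient ≤ m := Nat.totient_le m
    have h3 : (k + 1) * m ≤ 2 ^ k * m := Nat.mul_le_mul_right m h1
    have h4 : k * 1 ≤ k * m := Nat.mul_le_mul_left k hm0
    have h5 : (k + 1) * m = k * m + m := by ring
    omega
  · rw [hk]
    apply Nat.mul_dvd_mul_left
    have hc : Nat.Coprime 2 m := (Nat.coprime_two_left).mpr hm
    have := Nat.ModEq.pow_totient hc
    exact (Nat.modEq_iff_dvd' (Nat.one_le_two_pow)).mp this.symm

section
variable {κ : Type} [Fintype κ] [DecidableEq κ]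

lemma absorb_full {D M u : ℕ} {A : Fin M → Wd κ} (hA : Sep (D + 2) A)
    (P : Fin u × Fin M → Wd κ) : ∃ τ ∈ Til κ D M, ∀ g, u * M + cnt P g = τ g := by
  choose τ hτ h using fun k : Fin u => transport hA univ (fun i => P (k, i))
  have hA' : Sep D A := fun i j hij => by have := hA i j hij; omega
  refine ⟨∑ k, (τ k + cnt A), ?_, ?_⟩
  · exact AddSubmonoid.sum_mem _ fun k _ => AddSubmonoid.add_mem _ (hτ k) (cnt_mem_Til hA')
  · intro g
    rw [Finset.sum_apply]
    have : ∀ k, (τ k + cnt A) g = M + ∑ i, if P (k, i) = g then 1 else 0 := by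
      intro k
      rw [h k g]
      rfl
    simp only [this, sum_add_distrib, sum_const, card_univ, Fintype.card_fin, smul_eq_mul]
    unfold cnt
    rw [Fintype.sum_prod_type]

lemma absorb {D M u r : ℕ} {A : Fin M → Wd κ} (hA : Sep (D + 2) A) {α : Type} [Fintype α]
    (P : α → Wd κ) (hcard : Fintype.card α = u * M + r) (hr : r ≤ M) :
    ∃ τ ∈ Til κ D M, ∃ R : Finset (Fin M), R.card = r ∧
      ∀ g, (u + 1) * M + cnt P g = τ g + ∑ i ∈ R, if A i = g then 1 else 0 := by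
  classical
  obtain ⟨R, -, hR⟩ := Finset.exists_subset_card_eq (s := (univ : Finset (Fin M))) (n := r)
    (by simpa using hr)
  have hc : Fintype.card α = Fintype.card ((Fin u × Fin M) ⊕ {i // i ∈ R}) := by
    rw [hcard, Fintype.card_sum, Fintype.card_prod, Fintype.card_fin, Fintype.card_fin,
      Fintype.card_coe, hR]
  let e := Fintype.equivOfCardEq hc
  obtain ⟨τ₁, hτ₁, h1⟩ := absorb_full hA (fun x => P (e.symm (Sum.inl x)))
  obtain ⟨τ₂, hτ₂, h2⟩ := transport hA R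
    (fun i => if h : i ∈ R then P (e.symm (Sum.inr ⟨i, h⟩)) else 0)
  refine ⟨τ₁ + τ₂, AddSubmonoid.add_mem _ hτ₁ hτ₂, R, hR, fun g => ?_⟩
  have e1 : cnt P g = cnt (fun x => P (e.symm (Sum.inl x))) g
      + ∑ i ∈ R, if (if h : i ∈ R then P (e.symm (Sum.inr ⟨i, h⟩)) else 0) = g then 1 else 0 := by
    unfold cnt
    rw [← Equiv.sum_comp e.symm (fun x => if P x = g then 1 else 0), Fintype.sum_sum_type]
    congr 1
    rw [← Finset.sum_coe_sort R]
    apply sum_congr rfl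
    rintro ⟨i, hi⟩ _
    simp [hi]
  have h1g := h1 g
  have h2g := h2 g
  rw [Pi.add_apply, e1]
  rw [← h1g, add_mul, one_mul]
  omega

end

theorem decomp {D M n C : ℕ} (hM : 1 ≤ M) (hC : 3 * M ≤ C) {a : Fin M → Wd (Fin n)}
    (ha : Sep (D + M) a) :
    ∃ τ ∈ Til (Fin n ⊕ Fin M) D M, ∃ R : Finset (Fin M), R.card < M ∧
      ∀ g, 2 ^ C = τ g + ∑ i ∈ R, if ext a i = g then 1 else 0 := by
  classical
  obtain ⟨j, s, hs, hjs, hdvd⟩ := exists_period M hM
  -- the exponent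
  obtain ⟨k, ρ', hρ', hCk⟩ : ∃ k ρ' : ℕ, ρ' < s ∧ C = j + ρ' + s * k := by
    refine ⟨(C - j) / s, (C - j) % s, Nat.mod_lt _ hs, ?_⟩
    have := Nat.mod_add_div (C - j) s
    omega
  set J := j + ρ' with hJ
  have hdvd' : M ∣ 2 ^ J * (2 ^ s - 1) := by
    rw [hJ, pow_add, mul_assoc, mul_comm (2 ^ ρ'), ← mul_assoc]
    exact Dvd.dvd.mul_right hdvd _
  obtain ⟨c, hc⟩ := hdvd'
  obtain ⟨N, hN⟩ : M ∣ 2 ^ J * (2 ^ (s * k) - 1) := by
    have : 2 ^ s - 1 ∣ 2 ^ (s * k) - 1 := by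
      rw [pow_mul]
      simpa using Nat.sub_dvd_pow_sub_pow (2 ^ s) 1 k
    obtain ⟨w, hw⟩ := this
    rw [hw, ← mul_assoc, hc, mul_assoc]
    exact dvd_mul_right _ _
  have hFN : 2 ^ C = 2 ^ J + M * N := by
    rw [← hN, hCk, pow_add _ J, Nat.mul_sub, mul_one]
    have : 2 ^ J * 1 ≤ 2 ^ J * 2 ^ (s * k) := Nat.mul_le_mul_left _ Nat.one_le_two_pow
    omega
  -- chain
  have hss : D + s ≤ D + M := by omega
  have ha' : Sep (D + s) a := fun i j hij => hss.trans (ha i j hij)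
  have hcM : c * M = 2 ^ J * (2 ^ s - 1) := by rw [hc, mul_comm]
  obtain ⟨T₀, hT₀, τ₁, hτ₁, h1⟩ := chain (ρ := n % s) (q := 2 ^ J) ha' hcM (n / s)
    (univ : Finset (Fin n)) (by
      rw [card_univ, Fintype.card_fin]; exact (Nat.mod_add_div n s).symm)
  -- base family
  let P : Fin (2 ^ J) × {t // t ∈ suppSet T₀} × Wd (Fin M) → Wd (Fin n ⊕ Fin M) :=
    fun x => Phi a x.2.1 x.2.2
  have hP : ∀ g, cnt P g = 2 ^ J * mu a T₀ g := by
    intro g
    have e : ∀ b : Fin (2 ^ J), (∑ y : {t // t ∈ suppSet T₀} × Wd (Fin M),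
        if P (b, y) = g then 1 else 0) = mu a T₀ g := by
      intro b
      rw [Fintype.sum_prod_type]
      exact Finset.sum_coe_sort (suppSet T₀)
        (fun t => ∑ y : Wd (Fin M), if Phi a t y = g then 1 else 0)
    unfold cnt
    rw [Fintype.sum_prod_type, Finset.sum_congr rfl (fun b _ => e b), Finset.sum_const, card_univ,
      Fintype.card_fin, smul_eq_mul]
  have hcardP : Fintype.card (Fin (2 ^ J) × {t // t ∈ suppSet T₀} × Wd (Fin M))
      = 2 ^ (J + n % s + M) := by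
    rw [Fintype.card_prod, Fintype.card_prod, Fintype.card_fin, Fintype.card_coe, card_suppSet,
      hT₀, Fintype.card_fun, ZMod.card, Fintype.card_fin, pow_add _ (J + n % s), pow_add _ J,
      mul_assoc]
  set Q := 2 ^ (J + n % s + M) with hQ
  have hext : Sep (D + 2) (ext a) := by
    have : Sep D a := fun i j hij => by have := ha i j hij; omega
    exact Sep_ext this
  obtain ⟨τ₂, hτ₂, R, hR, h2⟩ := absorb (u := Q / M) (r := Q % M) hext P
    (by rw [hcardP]; exact (Nat.div_add_mod' Q M).symm) (Nat.mod_lt _ hM).le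
  -- room
  have hroom : Q / M + 1 ≤ N := by
    have hns : n % s < s := Nat.mod_lt _ hs
    have hJs : J + 1 ≤ j + s := by omega
    have hQle : Q ≤ 2 ^ (3 * M - 2) := Nat.pow_le_pow_right (by norm_num) (by omega)
    have hJle : 2 ^ J ≤ 2 ^ (M - 1) := Nat.pow_le_pow_right (by norm_num) (by omega)
    have hMle : M ≤ 2 ^ (M - 1) := by
      have : M - 1 < 2 ^ (M - 1) := Nat.lt_two_pow_self
      omega
    have e1 : 2 ^ (M - 1) + 2 ^ (M - 1) = 2 ^ M := by
      rw [← two_mul, ← pow_succ']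
      congr 1
      omega
    have e2 : 2 ^ M ≤ 2 ^ (3 * M - 2) := Nat.pow_le_pow_right (by norm_num) (by omega)
    have e3 : 2 ^ (3 * M - 2) + 2 ^ (3 * M - 2) = 2 ^ (3 * M - 1) := by
      rw [← two_mul, ← pow_succ']
      congr 1
      omega
    have e4 : 2 ^ (3 * M - 1) ≤ 2 ^ C := Nat.pow_le_pow_right (by norm_num) (by omega)
    have e5 : M * (Q / M + 1) ≤ M * N := by
      have : M * (Q / M) ≤ Q := Nat.mul_div_le Q M
      rw [Nat.mul_add, mul_one]
      omega
    exact Nat.le_of_mul_le_mul_left e5 (by omega)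
  obtain ⟨N', hN'⟩ := Nat.exists_eq_add_of_le hroom
  refine ⟨τ₁ + τ₂ + N' • (fun _ => M : Wd (Fin n ⊕ Fin M) → ℕ), ?_, R, ?_, ?_⟩
  · exact AddSubmonoid.add_mem _ (AddSubmonoid.add_mem _ hτ₁ hτ₂)
      (AddSubmonoid.nsmul_mem _ (const_mem_Til hext) _)
  · rw [hR]
    exact Nat.mod_lt _ hM
  · intro g
    have h1g := h1 g
    have h2g := h2 g
    rw [mu_univ, mul_one] at h1g
    rw [hP] at h2g
    rw [hFN, hN']
    simp only [Pi.add_apply, Pi.smul_apply, smul_eq_mul]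
    have : M * (Q / M + 1 + N') = (Q / M + 1) * M + N' * M := by ring
    rw [this]
    omega

end MP7d5fe8
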