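import Pool.Agent.Work.MP_7d5fe8_co.Exact

/-! The explicit function of `n` and `d`, and the number of exceptional `d`. -/

open Finset

namespace MP7d5fe8

lemma halfSize_spec {n d : ℕ} (h1 : d < n) (h2 : n < 2 * (d + 1)) :
    1 ≤ halfSize n d ∧
    ((halfSize n d + 1) * n < (2 * halfSize n d + 1) * (d + 1) ∨
      (Even d ∧ (halfSize n d + 1) * (n + 1) < (2 * halfSize n d + 1) * (d + 2))) ∧
    (2 * halfSize n d - 1) * (d + 1) ≤ halfSize n d * n ∧
    halfSize n d * (2 * (d + 1) - n) ≤ n + 1 := by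
  unfold halfSize
  by_cases he : Even d
  · simp only [he, if_true]
    obtain ⟨e, hE⟩ : ∃ e, 2 * (d + 2) - (n + 1) = e + 1 := ⟨2 * (d + 2) - (n + 1) - 1, by omega⟩
    rw [hE]
    set m := (d + 2) / (e + 1) with hm
    have a1 : m * (e + 1) ≤ d + 2 := Nat.div_mul_le_self _ _
    have a2 : d + 2 < (m + 1) * (e + 1) := by
      have := Nat.lt_div_mul_add (a := d + 2) (b := e + 1) (by omega)
      rw [add_mul (m), one_mul]
      exact this
    have a3 : 1 ≤ m := by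
      rw [hm, Nat.le_div_iff_mul_le (by omega)]
      omega
    have hn : n + 1 + (e + 1) = 2 * (d + 2) := by omega
    refine ⟨a3, Or.inr ⟨trivial, ?_⟩, ?_, ?_⟩
    · nlinarith
    · obtain ⟨k, hk⟩ : ∃ k, m = k + 1 := ⟨m - 1, by omega⟩
      have : 2 * m - 1 = 2 * k + 1 := by omega
      rw [this]
      rw [hk] at a1 ⊢
      nlinarith
    · have : 2 * (d + 1) - n ≤ e + 1 := by omega
      calc m * (2 * (d + 1) - n) ≤ m * (e + 1) := Nat.mul_le_mul_left _ this
        _ ≤ d + 2 := a1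
        _ ≤ n + 1 := by omega
  · simp only [he, if_false, false_and, or_false]
    obtain ⟨e, hE⟩ : ∃ e, 2 * (d + 1) - n = e + 1 := ⟨2 * (d + 1) - n - 1, by omega⟩
    rw [hE]
    set m := (d + 1) / (e + 1) with hm
    have a1 : m * (e + 1) ≤ d + 1 := Nat.div_mul_le_self _ _
    have a2 : d + 1 < (m + 1) * (e + 1) := by
      have := Nat.lt_div_mul_add (a := d + 1) (b := e + 1) (by omega)
      rw [add_mul (m), one_mul]
      exact this
    have a3 : 1 ≤ m := by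
      rw [hm, Nat.le_div_iff_mul_le (by omega)]
      omega
    have hn : n + (e + 1) = 2 * (d + 1) := by omega
    refine ⟨a3, ?_, ?_, ?_⟩
    · nlinarith
    · obtain ⟨k, hk⟩ : ∃ k, m = k + 1 := ⟨m - 1, by omega⟩
      have : 2 * m - 1 = 2 * k + 1 := by omega
      rw [this]
      rw [hk] at a1 ⊢
      nlinarith
    · omega

lemma ceil_eq (n m : ℕ) (hm : 1 ≤ m) :
    (2 ^ n + 2 * m - 1) / (2 * m) = ⌈(2 ^ n : ℚ) / (2 * m)⌉₊ := by
  symm
  have hm' : (0 : ℚ) < 2 * m := by positivity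
  have hpos : 1 ≤ (2 ^ n + 2 * m - 1) / (2 * m) := by
    rw [Nat.le_div_iff_mul_le (by omega)]
    have : 1 ≤ 2 ^ n := Nat.one_le_two_pow
    omega
  rw [Nat.ceil_eq_iff (by omega)]
  set c := (2 ^ n + 2 * m - 1) / (2 * m) with hc
  have h1 : c * (2 * m) ≤ 2 ^ n + 2 * m - 1 := Nat.div_mul_le_self _ _
  have h2 : 2 ^ n + 2 * m - 1 < c * (2 * m) + 2 * m := Nat.lt_div_mul_add (by omega)
  have h0 : 1 ≤ 2 ^ n := Nat.one_le_two_pow
  constructor
  · rw [lt_div_iff₀ hm']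
    have h3 : (c - 1) * (2 * m) + 1 ≤ 2 ^ n := by
      have : (c - 1) * (2 * m) = c * (2 * m) - 2 * m := by rw [Nat.sub_mul, one_mul]
      omega
    have h4 : (((c - 1) * (2 * m) + 1 : ℕ) : ℚ) ≤ ((2 ^ n : ℕ) : ℚ) := by exact_mod_cast h3
    push_cast at h4
    linarith
  · rw [div_le_iff₀ hm']
    have h3 : 2 ^ n ≤ c * (2 * m) := by omega
    have h4 : ((2 ^ n : ℕ) : ℚ) ≤ ((c * (2 * m) : ℕ) : ℚ) := by exact_mod_cast h3
    push_cast at h4
    linarith

/-- The exact value. -/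
theorem exact_halfSize {n d : ℕ} (h1 : d < n) (h2 : n < 2 * (d + 1))
    (h3 : (2 * halfSize n d - 1) * (d + 1 + 4 ^ (halfSize n d + 1)) ≤ halfSize n d * n) :
    (QPow n d).chromaticNumber = (⌈(2 ^ n : ℚ) / (2 * halfSize n d)⌉₊ : ℕ) := by
  obtain ⟨a1, a2, _, _⟩ := halfSize_spec h1 h2
  rw [← ceil_eq n _ a1]
  exact exact_explicit a1 a2 h3

/-- The number of exceptions is bounded. -/
theorem few_exceptions (ε : ℝ) (hε : 0 < ε) : ∃ C : ℕ, ∀ n : ℕ,
    {d : ℕ | d < n ∧ (1 / 2 + ε) * n ≤ d ∧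
      (QPow n d).chromaticNumber ≠ (⌈(2 ^ n : ℚ) / (2 * halfSize n d)⌉₊ : ℕ)}.encard ≤ C := by
  obtain ⟨m₀, hm₀⟩ := exists_nat_ge (1 / (2 * ε) + 1)
  refine ⟨∑ m ∈ Icc 1 m₀, 4 ^ (m + 1), fun n => ?_⟩
  have hsub : {d : ℕ | d < n ∧ (1 / 2 + ε) * n ≤ d ∧
      (QPow n d).chromaticNumber ≠ (⌈(2 ^ n : ℚ) / (2 * halfSize n d)⌉₊ : ℕ)} ⊆
      ((Icc 1 m₀).biUnion (fun m => Ico (m * n / (2 * m - 1) - 4 ^ (m + 1))
        (m * n / (2 * m - 1))) : Finset ℕ) := by
    rintro d ⟨h1, h2, h3⟩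
    have hn : (n : ℝ) < 2 * (d + 1) := by
      have : (0 : ℝ) ≤ ε * n := by positivity
      nlinarith
    have hn' : n < 2 * (d + 1) := by exact_mod_cast hn
    obtain ⟨a1, a2, a3, a4⟩ := halfSize_spec h1 hn'
    have h4 : ¬ ((2 * halfSize n d - 1) * (d + 1 + 4 ^ (halfSize n d + 1)) ≤ halfSize n d * n) :=
      fun h => h3 (exact_halfSize h1 hn' h)
    rw [not_le] at h4
    generalize halfSize n d = m at a1 a3 a4 h4
    rw [mem_coe, mem_biUnion]
    refine ⟨m, ?_, ?_⟩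
    · rw [mem_Icc]
      refine ⟨a1, ?_⟩
      have e1 : ((m * (2 * (d + 1) - n) : ℕ) : ℝ) ≤ ((n + 1 : ℕ) : ℝ) := by exact_mod_cast a4
      rw [Nat.cast_mul, Nat.cast_sub hn'.le] at e1
      push_cast at e1
      have e2 : (m : ℝ) * (2 * ε * n + 2) ≤ n + 1 := by
        refine le_trans ?_ e1
        apply mul_le_mul_of_nonneg_left _ (Nat.cast_nonneg m)
        nlinarith
      have e3 : (m : ℝ) ≤ 1 / (2 * ε) + 1 := by
        by_contra hlt
        rw [not_le] at hlt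
        have e4 : (1 / (2 * ε) + 1) * (2 * ε * n + 2) < n + 1 :=
          lt_of_lt_of_le (mul_lt_mul_of_pos_right hlt (by positivity)) e2
        have e5 : (1 / (2 * ε) + 1) * (2 * ε * n + 2) = n + 2 + 1 / ε + 2 * ε * n := by
          field_simp
          ring
        rw [e5] at e4
        have : (0 : ℝ) < 1 / ε := by positivity
        have : (0 : ℝ) ≤ 2 * ε * n := by positivity
        linarith
      exact_mod_cast e3.trans hm₀
    · have hpos : 0 < 2 * m - 1 := by omega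
      rw [mem_Ico]
      have b1 : d + 1 ≤ m * n / (2 * m - 1) := by
        rw [Nat.le_div_iff_mul_le hpos, mul_comm]
        exact a3
      have b2 : m * n / (2 * m - 1) < d + 1 + 4 ^ (m + 1) := by
        rw [Nat.div_lt_iff_lt_mul hpos, mul_comm (d + 1 + 4 ^ (m + 1))]
        exact h4
      generalize 4 ^ (m + 1) = P at b2 ⊢
      omega
  calc _ ≤ (((Icc 1 m₀).biUnion (fun m => Ico (m * n / (2 * m - 1) - 4 ^ (m + 1))
        (m * n / (2 * m - 1))) : Finset ℕ) : Set ℕ).encard := Set.encard_le_encard hsub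
    _ ≤ _ := by
      rw [Set.encard_coe_eq_coe_finsetCard, Nat.cast_le]
      refine Finset.card_biUnion_le.trans (sum_le_sum fun m _ => ?_)
      rw [Nat.card_Ico]
      generalize 4 ^ (m + 1) = P
      omega

end MP7d5fe8
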