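import Pool.Agent.Work.MP_7d5fe8_co.Near

/-! The additive bound for the chromatic number near the thresholds. -/

open Finset

namespace MP7d5fe8

set_option linter.unusedSectionVars false

section
variable {κ : Type} [Fintype κ] [DecidableEq κ]

/-- Colouring of the cube from a tiling of the complement of a small set. -/
lemma colour_single {D M : ℕ} (hM : 1 ≤ M) {τ : Wd κ → ℕ} (hτ : τ ∈ Til κ D M)
    (X : Finset (Wd κ)) (h0 : ∀ x ∈ X, τ x = 0) (h1 : ∀ x, x ∉ X → τ x = 1) {N : ℕ}
    (hN : X.card ≤ N) :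
    ∃ col : Wd κ → Fin (2 ^ Fintype.card κ / M + N),
      ∀ p q, p ≠ q → col p = col q → D ≤ hammingDist p q := by
  classical
  obtain ⟨K, iK, c, hc, hτc⟩ := Til_explicit hτ
  have hex : ∀ x, x ∉ X → ∃ k i, c k i = x := by
    intro x hx
    by_contra hne
    push Not at hne
    have : τ x = 0 := by
      rw [hτc]
      apply sum_eq_zero
      intro k _
      apply sum_eq_zero
      intro i _
      rw [if_neg (hne k i)]
    rw [h1 x hx] at this
    exact one_ne_zero this
  choose kk ii hki using hex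
  let col0 : Wd κ → K ⊕ {x // x ∈ X} := fun x =>
    if h : x ∈ X then Sum.inr ⟨x, h⟩ else Sum.inl (kk x h)
  have hcol0 : ∀ p q, p ≠ q → col0 p = col0 q → D ≤ hammingDist p q := by
    intro p q hpq h
    by_cases hp : p ∈ X <;> by_cases hq : q ∈ X
    · simp only [col0, hp, hq, dif_pos, Sum.inr.injEq, Subtype.mk.injEq] at h
      exact absurd h hpq
    · simp [col0, hp, hq] at h
    · simp [col0, hp, hq] at h
    · simp only [col0, hp, hq, dif_neg, not_false_eq_true, Sum.inl.injEq] at h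
      have e1 := hki p hp
      have e2 := hki q hq
      rw [← h] at e2
      have hne : ii p hp ≠ ii q hq := by
        intro hii
        rw [← hii] at e2
        exact hpq (e1.symm.trans e2)
      have := hc (kk p hp) _ _ hne
      rwa [e1, e2] at this
  have hcard : Fintype.card K * M ≤ 2 ^ Fintype.card κ := by
    have e1 : (∑ g : Wd κ, τ g) = Fintype.card K * M := by
      simp only [hτc]
      rw [sum_comm]
      have : ∀ k : K, (∑ g : Wd κ, ∑ i : Fin M, if c k i = g then 1 else 0) = M := by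
        intro k
        rw [sum_comm]
        simp
      rw [sum_congr rfl (fun k _ => this k), sum_const, card_univ, smul_eq_mul]
    have e2 : (∑ g : Wd κ, τ g) ≤ ∑ g : Wd κ, 1 := by
      apply sum_le_sum
      intro g _
      by_cases hg : g ∈ X
      · rw [h0 g hg]
        exact Nat.zero_le _
      · rw [h1 g hg]
    rw [e1, sum_const, card_univ, Fintype.card_fun, ZMod.card, smul_eq_mul, mul_one] at e2
    exact e2
  have hcardC : Fintype.card (K ⊕ {x // x ∈ X})
      ≤ Fintype.card (Fin (2 ^ Fintype.card κ / M + N)) := by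
    rw [Fintype.card_fin, Fintype.card_sum, Fintype.card_coe]
    have : Fintype.card K ≤ 2 ^ Fintype.card κ / M := by
      rw [Nat.le_div_iff_mul_le hM]
      exact hcard
    omega
  obtain ⟨ι⟩ := Function.Embedding.nonempty_of_card_le hcardC
  exact ⟨fun p => ι (col0 p), fun p q hpq h => hcol0 p q hpq (ι.injective h)⟩

/-- From words to subsets. -/
lemma colorable_of_words {n d c : ℕ} (hn : Fintype.card κ = n) {col : Wd κ → Fin c}
    (hcol : ∀ p q, p ≠ q → col p = col q → d + 1 ≤ hammingDist p q) :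
    (QPow n d).Colorable c := by
  have hc : Fintype.card (Fin n) = Fintype.card κ := by rw [Fintype.card_fin, hn]
  let e : Fin n ≃ κ := Fintype.equivOfCardEq hc
  let w : Finset (Fin n) → Wd κ := fun x i => if e.symm i ∈ x then 1 else 0
  refine ⟨SimpleGraph.Coloring.mk (fun x => col (w x)) ?_⟩
  intro x y hxy heq
  have hne : w x ≠ w y := by
    intro hh
    have : x = y := by
      ext i
      obtain ⟨z, rfl⟩ := e.symm.surjective i
      have := congrFun hh z
      simp only [w] at this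
      by_cases p : e.symm z ∈ x <;> by_cases q : e.symm z ∈ y <;> simp_all
    subst this
    exact (QPow n d).loopless.irrefl x hxy
  have hd := hcol _ _ hne heq
  have hle : hammingDist (w x) (w y) ≤ (symmDiff x y).card := by
    unfold hammingDist
    apply Finset.card_le_card_of_injOn e.symm
    · intro i hi
      simp only [coe_filter, mem_univ, true_and, Set.mem_ofPred_eq] at hi
      simp only [mem_coe, mem_symmDiff]
      simp only [w] at hi
      by_cases p : e.symm i ∈ x <;> by_cases q : e.symm i ∈ y <;> simp_all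
    · exact e.symm.injective.injOn
  have := hxy.2
  omega

end

section
variable {A : Type} [Fintype A] [DecidableEq A] {T s n₁ m : ℕ}

lemma near_total (hm : 1 ≤ m) (hs : 1 ≤ s) (hdvd : m ∣ 2 ^ (s - 1) * (2 ^ s - 1)) (hT : 1 ≤ T)
    (hA : Fintype.card A = 3 * Nat.centralBinom m) {D₁ : ℕ} {b : Fin (2 * m) → Wd (Fin n₁)}
    (hb : Sep D₁ b) {a0 a1 : A} (h01 : a0 ≠ a1) :
    ∃ τ ∈ Til (Co A T s n₁) ((T + 1) * (3 * s * (2 * Nat.centralBinom (m - 1))) + D₁) (2 * m),
      ∀ x, (x ∈ Wsub s n₁ a0 a1 (∅ : Finset (A × Fin (T + 1))) → τ x = 0) ∧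
        (x ∉ Wsub s n₁ a0 a1 (∅ : Finset (A × Fin (T + 1))) → τ x = 1) := by
  classical
  have main : ∀ S : Finset (A × Fin (T + 1)),
      ∃ τ ∈ Til (Co A T s n₁) ((T + 1) * (3 * s * (2 * Nat.centralBinom (m - 1))) + D₁) (2 * m),
      ∀ x, (x ∈ Wsub s n₁ a0 a1 (∅ : Finset (A × Fin (T + 1))) → τ x = 0) ∧
        (x ∈ Wsub s n₁ a0 a1 S → x ∉ Wsub s n₁ a0 a1 (∅ : Finset (A × Fin (T + 1))) → τ x = 1) ∧
        (x ∉ Wsub s n₁ a0 a1 S → τ x = 0) := by
    intro S
    induction S using Finset.induction_on with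
    | empty =>
      exact ⟨0, AddSubmonoid.zero_mem _, fun x => ⟨fun _ => rfl, fun h h' => absurd h h',
        fun _ => rfl⟩⟩
    | insert g₀ S hgS ih =>
      obtain ⟨τ, hτ, h⟩ := ih
      by_cases hg₀ : g₀ ∈ pos a0 a1
      · obtain ⟨τ', hτ', h'⟩ := near_step hm hs hdvd hT hA hb h01 hg₀ hgS
        have hmono : ∀ x, x ∈ Wsub s n₁ a0 a1 S → x ∈ Wsub s n₁ a0 a1 (insert g₀ S) :=
          fun x hx g hg hgn => hx g hg (fun h => hgn (mem_insert_of_mem h))
        have hempty : ∀ x, x ∈ Wsub s n₁ a0 a1 (∅ : Finset (A × Fin (T + 1))) →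
            x ∈ Wsub s n₁ a0 a1 S := fun x hx g hg _ => hx g hg (notMem_empty g)
        refine ⟨τ + τ', AddSubmonoid.add_mem _ hτ hτ', fun x => ⟨fun hx => ?_, fun hx hx' => ?_,
          fun hx => ?_⟩⟩
        · rw [Pi.add_apply, (h x).1 hx, (h' x).1 (hempty x hx)]
        · rw [Pi.add_apply]
          by_cases hxS : x ∈ Wsub s n₁ a0 a1 S
          · rw [(h x).2.1 hxS hx', (h' x).1 hxS]
          · rw [(h x).2.2 hxS, (h' x).2.2 hx hxS]
        · rw [Pi.add_apply, (h x).2.2 (fun hh => hx (hmono x hh)), (h' x).2.1 hx]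
      · have heq : ∀ x, x ∈ Wsub s n₁ a0 a1 (insert g₀ S) ↔ x ∈ Wsub s n₁ a0 a1 S := by
          intro x
          constructor
          · intro hx g hg hgn
            apply hx g hg
            rw [mem_insert, not_or]
            exact ⟨fun h => hg₀ (h ▸ hg), hgn⟩
          · intro hx g hg hgn
            exact hx g hg (fun h => hgn (mem_insert_of_mem h))
        refine ⟨τ, hτ, fun x => ⟨(h x).1, fun hx => (h x).2.1 ((heq x).mp hx),
          fun hx => (h x).2.2 (fun hh => hx ((heq x).mpr hh))⟩⟩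
  obtain ⟨τ, hτ, h⟩ := main univ
  refine ⟨τ, hτ, fun x => ⟨(h x).1, (h x).2.1 ?_⟩⟩
  intro g _ hgn
  exact absurd (mem_univ g) hgn

lemma card_Wsub_le (a0 a1 : A) [DecidablePred (fun x : Wd (Co A T s n₁) =>
      x ∈ Wsub s n₁ a0 a1 (∅ : Finset (A × Fin (T + 1))))] :
    (univ.filter (fun x : Wd (Co A T s n₁) =>
      x ∈ Wsub s n₁ a0 a1 (∅ : Finset (A × Fin (T + 1))))).card
      ≤ 2 ^ (Fintype.card A * s + 2 * s + n₁) := by
  classical
  let β : Type := ((A × Fin s) ⊕ (Fin s ⊕ Fin s)) ⊕ Fin n₁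
  have hβ : Fintype.card (Wd β) = 2 ^ (Fintype.card A * s + 2 * s + n₁) := by
    rw [Fintype.card_fun, ZMod.card]
    congr 1
    simp only [β, Fintype.card_sum, Fintype.card_prod, Fintype.card_fin]
    ring
  rw [← hβ, ← Finset.card_univ]
  let Ψ : Wd (Co A T s n₁) → Wd β := fun x =>
    Sum.elim (Sum.elim (fun c => x (Sum.inl ((c.1, Fin.last T), c.2)))
      (Sum.elim (fun l => x (Sum.inl ((a0, 0), l))) (fun l => x (Sum.inl ((a1, 0), l)))))
      (fun c => x (Sum.inr c))
  apply Finset.card_le_card_of_injOn Ψ (fun _ _ => mem_coe.mpr (mem_univ _))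
  intro x hx y hy hxy
  rw [mem_coe, mem_filter] at hx hy
  have e1 : ∀ a l, x (Sum.inl ((a, Fin.last T), l)) = y (Sum.inl ((a, Fin.last T), l)) :=
    fun a l => congrFun hxy (Sum.inl (Sum.inl (a, l)))
  have e2 : ∀ l, x (Sum.inl ((a0, 0), l)) = y (Sum.inl ((a0, 0), l)) :=
    fun l => congrFun hxy (Sum.inl (Sum.inr (Sum.inl l)))
  have e3 : ∀ l, x (Sum.inl ((a1, 0), l)) = y (Sum.inl ((a1, 0), l)) :=
    fun l => congrFun hxy (Sum.inl (Sum.inr (Sum.inr l)))
  have e4 : ∀ c, x (Sum.inr c) = y (Sum.inr c) := fun c => congrFun hxy (Sum.inr c)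
  ext c
  rcases c with ⟨g, l⟩ | c
  · by_cases hg : g ∈ pos a0 a1
    · have h1 := congrFun (hx.2 g hg (notMem_empty g)) l
      have h2 := congrFun (hy.2 g hg (notMem_empty g)) l
      have h3 : x (Sum.inl (g, l)) + x (Sum.inl ((g.1, Fin.last T), l))
          = y (Sum.inl (g, l)) + y (Sum.inl ((g.1, Fin.last T), l)) := h1.trans h2.symm
      rw [e1] at h3
      exact add_right_cancel h3
    · rw [pos, mem_filter] at hg
      simp only [mem_univ, true_and, not_and, not_forall, not_not] at hg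
      obtain ⟨a, u⟩ := g
      simp only at hg
      by_cases hu : u = Fin.last T
      · subst hu
        exact e1 a l
      · obtain ⟨h1, h2⟩ := hg hu
        subst h2
        rcases h1 with rfl | rfl
        · exact e2 l
        · exact e3 l
  · exact e4 c

end

/-- The additive bound. -/
theorem near_colorable {m s T n₁ D₁ n d : ℕ} (hm : 1 ≤ m) (hs : 1 ≤ s)
    (hdvd : m ∣ 2 ^ (s - 1) * (2 ^ s - 1)) (hT : 1 ≤ T) {b : Fin (2 * m) → Wd (Fin n₁)}
    (hb : Sep D₁ b) (hn : n = 3 * Nat.centralBinom m * (T + 1) * s + n₁)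
    (hd : d + 1 ≤ (T + 1) * (3 * s * (2 * Nat.centralBinom (m - 1))) + D₁) :
    (QPow n d).Colorable
      (2 ^ n / (2 * m) + 2 ^ (3 * Nat.centralBinom m * s + 2 * s + n₁)) := by
  classical
  have hb3 : 2 ≤ 3 * Nat.centralBinom m := by
    have := Nat.centralBinom_pos m
    omega
  let a0 : Fin (3 * Nat.centralBinom m) := ⟨0, by omega⟩
  let a1 : Fin (3 * Nat.centralBinom m) := ⟨1, by omega⟩
  have h01 : a0 ≠ a1 := by
    intro h
    have := congrArg Fin.val h
    simp [a0, a1] at this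
  obtain ⟨τ, hτ, h⟩ := near_total (A := Fin (3 * Nat.centralBinom m)) hm hs hdvd hT
    (Fintype.card_fin _) hb h01
  have hX := card_Wsub_le (T := T) (s := s) (n₁ := n₁) a0 a1
  rw [Fintype.card_fin] at hX
  obtain ⟨col, hcol⟩ := colour_single (M := 2 * m) (by omega) hτ
    (univ.filter (fun x => x ∈ Wsub s n₁ a0 a1 (∅ : Finset (_ × Fin (T + 1)))))
    (fun x hx => (h x).1 (mem_filter.mp hx).2)
    (fun x hx => (h x).2 (fun h' => hx (mem_filter.mpr ⟨mem_univ _, h'⟩))) hX
  have hcard : Fintype.card (Co (Fin (3 * Nat.centralBinom m)) T s n₁) = n := by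
    rw [hn]
    simp only [Fintype.card_sum, Fintype.card_prod, Fintype.card_fin]
  have key := colorable_of_words (d := d) rfl (col := col)
    (fun p q hpq hc => hd.trans (hcol p q hpq hc))
  rw [hcard] at key
  exact key

end MP7d5fe8
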