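import Pool.Agent.Work.MP_7d5fe8_co.Exist
import Pool.Agent.Work.MP_7d5fe8_co.NearTotal
import Pool.Agent.Work.MP_7d5fe8_co.Count

/-! The chromatic number up to a bounded additive error in the whole upper range. -/

open Finset

namespace MP7d5fe8

set_option linter.unusedSectionVars false

variable {m : ℕ}

lemma Sep_mono {α : Type} {κ : Type} [Fintype κ] {D D₁ : ℕ} {c : α → Wd κ} (h : Sep D c)
    (hD : D₁ ≤ D) : Sep D₁ c := fun i j hij => hD.trans (h i j hij)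

lemma centralBinom_rel (hm : 1 ≤ m) :
    m * Nat.centralBinom m = (2 * m - 1) * (2 * Nat.centralBinom (m - 1)) := by
  obtain ⟨k, rfl⟩ : ∃ k, m = k + 1 := ⟨m - 1, by omega⟩
  have h1 := Nat.succ_mul_centralBinom_succ k
  have h2 : 2 * (k + 1) - 1 = 2 * k + 1 := by omega
  rw [h2, h1, Nat.add_sub_cancel]
  ring

/-- For all large lengths there is a code of `2m` words meeting the Plotkin bound. -/
theorem exists_opt (hm : 1 ≤ m) : ∃ N₀ : ℕ, ∀ n, N₀ ≤ n → ∀ D' : ℕ,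
    (2 * m - 1) * (2 * D') ≤ m * n → ∃ b : Fin (2 * m) → Wd (Fin n), Sep (2 * D') b := by
  rcases Nat.lt_or_ge m 2 with h1 | h2
  · have : m = 1 := by omega
    subst this
    refine ⟨0, fun n _ D' h => ⟨fun i _ => if i = 0 then 0 else 1, ?_⟩⟩
    intro i j hij
    have hne : (if i = 0 then (0 : ZMod 2) else 1) ≠ (if j = 0 then (0 : ZMod 2) else 1) := by
      revert i j
      decide
    unfold hammingDist
    have : (univ.filter (fun _ : Fin n => (if i = 0 then (0 : ZMod 2) else 1)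
        ≠ (if j = 0 then (0 : ZMod 2) else 1))) = univ := by
      ext c
      simp [hne]
    rw [this, card_univ, Fintype.card_fin]
    omega
  · set β := Nat.centralBinom m with hβ
    set c1 := Nat.centralBinom (m - 1) with hc1
    have hrel : m * β = (2 * m - 1) * (2 * c1) := centralBinom_rel hm
    have hβ2 : 2 ≤ β := by
      have := Nat.two_le_centralBinom m (by omega)
      exact this
    have hbase : ∀ ρ : Fin β, ∃ c₀ : ℕ, ∀ c, c₀ ≤ c →
        ∃ b : Fin (2 * m) → Wd (Fin ((ρ : ℕ) + 2 * β + c * β)),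
        Sep (2 * (m * ((ρ : ℕ) + 2 * β) / (2 * (2 * m - 1))) + c * (2 * c1)) b := by
      intro ρ
      set n₀ := (ρ : ℕ) + 2 * β with hn₀
      set D₀ := m * n₀ / (2 * (2 * m - 1)) with hD₀
      have hD : D₀ * (2 * (2 * m - 1)) ≤ m * n₀ := Nat.div_mul_le_self _ _
      rcases Nat.even_or_odd' n₀ with ⟨n', hn | hn⟩
      · rw [hn]
        apply exist_even h2
        rw [hn] at hD
        have e1 : D₀ * (2 * (2 * m - 1)) = 2 * ((2 * m - 1) * D₀) := by ring
        have e2 : m * (2 * n') = 2 * (m * n') := by ring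
        omega
      · rw [hn]
        apply exist_odd h2
        · omega
        · rw [hn] at hD
          have e1 : D₀ * (2 * (2 * m - 1)) = 2 * ((2 * m - 1) * D₀) := by ring
          have e2 : m * (2 * n' + 1) = 2 * (m * n') + m := by ring
          omega
    choose c₀ hc₀ using hbase
    refine ⟨3 * β + β * ∑ ρ, c₀ ρ, fun n hn D' hD' => ?_⟩
    have hβ0 : 0 < β := by omega
    let ρ : Fin β := ⟨n % β, Nat.mod_lt _ hβ0⟩
    have hdiv : n % β + β * (n / β) = n := Nat.mod_add_div n β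
    have hle : c₀ ρ ≤ ∑ ρ, c₀ ρ := Finset.single_le_sum (fun _ _ => Nat.zero_le _) (mem_univ ρ)
    have hq : 2 + c₀ ρ ≤ n / β := by
      rw [Nat.le_div_iff_mul_le hβ0]
      have h3 : β * c₀ ρ ≤ β * ∑ ρ, c₀ ρ := Nat.mul_le_mul_left β hle
      have h4 : (2 + c₀ ρ) * β = 2 * β + β * c₀ ρ := by ring
      omega
    obtain ⟨c, hc⟩ := Nat.exists_eq_add_of_le hq
    have hlen : (ρ : ℕ) + 2 * β + (c₀ ρ + c) * β = n := by
      show n % β + 2 * β + (c₀ ρ + c) * β = n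
      rw [← hdiv, hc]
      simp only [Nat.add_mul_mod_self_left, Nat.mod_mod]
      ring
    have key := hc₀ ρ (c₀ ρ + c) (Nat.le_add_right _ _)
    have hD₀ : D' ≤ m * ((ρ : ℕ) + 2 * β) / (2 * (2 * m - 1)) + (c₀ ρ + c) * c1 := by
      rcases Nat.lt_or_ge D' ((c₀ ρ + c) * c1) with h | h
      · exact h.le.trans (Nat.le_add_left _ _)
      · obtain ⟨E, hE⟩ := Nat.exists_eq_add_of_le h
        have hE2 : E ≤ m * ((ρ : ℕ) + 2 * β) / (2 * (2 * m - 1)) := by
          rw [Nat.le_div_iff_mul_le (by omega)]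
          rw [← hlen, hE] at hD'
          have e1 : (2 * m - 1) * (2 * ((c₀ ρ + c) * c1 + E))
              = (c₀ ρ + c) * ((2 * m - 1) * (2 * c1)) + E * (2 * (2 * m - 1)) := by ring
          have e2 : m * ((ρ : ℕ) + 2 * β + (c₀ ρ + c) * β)
              = m * ((ρ : ℕ) + 2 * β) + (c₀ ρ + c) * (m * β) := by ring
          rw [e1, e2, hrel] at hD'
          omega
        omega
    rw [hlen] at key
    obtain ⟨b, hb⟩ := key
    refine ⟨b, Sep_mono hb ?_⟩
    have e3 : (c₀ ρ + c) * (2 * c1) = 2 * ((c₀ ρ + c) * c1) := by ring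
    rw [e3]
    omega

lemma puncture {M D n : ℕ} {b : Fin M → Wd (Fin (n + 1))} (hb : Sep (D + 1) b) :
    ∃ b' : Fin M → Wd (Fin n), Sep D b' := by
  refine ⟨fun i c => b i c.castSucc, fun i j hij => ?_⟩
  have h1 := hb i j hij
  have h2 : hammingDist (b i) (b j)
      ≤ hammingDist (fun c : Fin n => b i c.castSucc) (fun c : Fin n => b j c.castSucc) + 1 := by
    unfold hammingDist
    rw [card_filter, card_filter, Fin.sum_univ_castSucc]
    apply Nat.add_le_add_left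
    split_ifs <;> omega
  show D ≤ hammingDist (fun c : Fin n => b i c.castSucc) (fun c : Fin n => b j c.castSucc)
  omega

lemma exists_s (hm : 1 ≤ m) : ∃ s : ℕ, 1 ≤ s ∧ m ∣ 2 ^ (s - 1) * (2 ^ s - 1) := by
  obtain ⟨j, s, hs, _, hdvd⟩ := exists_period m hm
  have hpos : 1 ≤ s * (j + 1) := Nat.mul_pos hs (Nat.succ_pos j)
  refine ⟨s * (j + 1), hpos, ?_⟩
  have h1 : 2 ^ j ∣ 2 ^ (s * (j + 1) - 1) := by
    apply pow_dvd_pow
    have : 1 * (j + 1) ≤ s * (j + 1) := Nat.mul_le_mul_right _ hs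
    omega
  have h2 : 2 ^ s - 1 ∣ 2 ^ (s * (j + 1)) - 1 := by
    rw [pow_mul]
    simpa using Nat.sub_dvd_pow_sub_pow (2 ^ s) 1 (j + 1)
  exact hdvd.trans (Nat.mul_dvd_mul h1 h2)

/-- The additive upper bound. -/
theorem near_bound (hm : 1 ≤ m) : ∃ C N : ℕ, ∀ n d, N ≤ n →
    ((∃ D', d + 1 ≤ 2 * D' ∧ (2 * m - 1) * (2 * D') ≤ m * n) ∨
      (∃ D', d + 2 ≤ 2 * D' ∧ (2 * m - 1) * (2 * D') ≤ m * (n + 1))) →
    (QPow n d).Colorable (2 ^ n / (2 * m) + C) := by
  obtain ⟨N₀, hN₀⟩ := exists_opt hm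
  obtain ⟨s, hs, hdvd⟩ := exists_s hm
  set β := Nat.centralBinom m with hβ
  set c1 := Nat.centralBinom (m - 1) with hc1
  have hrel : m * β = (2 * m - 1) * (2 * c1) := centralBinom_rel hm
  have hβ0 : 0 < β := Nat.centralBinom_pos m
  set P := 3 * β * s with hP
  have hP0 : 0 < P := by positivity
  have hmP : m * P = (2 * m - 1) * (3 * s * (2 * c1)) := by
    rw [hP]
    calc m * (3 * β * s) = 3 * s * (m * β) := by ring
      _ = _ := by rw [hrel]; ring
  refine ⟨2 ^ (3 * β * s + 2 * s + (N₀ + P)), N₀ + 2 * P, fun n d hn hcase => ?_⟩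
  -- the remainder length
  set n₁ := N₀ + (n - N₀) % P with hn₁
  have hn₁lt : n₁ < N₀ + P := by
    have := Nat.mod_lt (n - N₀) hP0
    omega
  have hq : 2 ≤ (n - N₀) / P := by
    rw [Nat.le_div_iff_mul_le hP0]
    omega
  obtain ⟨T, hT⟩ := Nat.exists_eq_add_of_le hq
  have hnn : n = 3 * β * (T + 1 + 1) * s + n₁ := by
    have h1 := Nat.mod_add_div (n - N₀) P
    rw [hT] at h1
    have h2 : P * (2 + T) = 3 * β * (T + 1 + 1) * s := by rw [hP]; ring
    rw [h2] at h1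
    omega
  have hcol : ∀ D₁ (b : Fin (2 * m) → Wd (Fin n₁)), Sep D₁ b →
      d + 1 ≤ (T + 1 + 1) * (3 * s * (2 * c1)) + D₁ →
      (QPow n d).Colorable (2 ^ n / (2 * m) + 2 ^ (3 * β * s + 2 * s + (N₀ + P))) := by
    intro D₁ b hb hd
    refine (near_colorable hm hs hdvd (Nat.succ_pos T) hb hnn hd).mono ?_
    apply Nat.add_le_add_left
    apply Nat.pow_le_pow_right (by norm_num)
    show 3 * β * s + 2 * s + n₁ ≤ 3 * β * s + 2 * s + (N₀ + P)
    omega
  have harith : ∀ D' l, (2 * m - 1) * (2 * D') ≤ m * (n + l) →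
      (2 * m - 1) * (2 * (D' - (T + 1 + 1) * (3 * s * c1))) ≤ m * (n₁ + l) := by
    intro D' l h
    rcases Nat.lt_or_ge D' ((T + 1 + 1) * (3 * s * c1)) with h1 | h1
    · rw [Nat.sub_eq_zero_of_le h1.le]
      simp
    · obtain ⟨E, hE⟩ := Nat.exists_eq_add_of_le h1
      rw [hE, Nat.add_sub_cancel_left]
      rw [hE, hnn] at h
      have e1 : (2 * m - 1) * (2 * ((T + 1 + 1) * (3 * s * c1) + E))
          = (T + 1 + 1) * ((2 * m - 1) * (3 * s * (2 * c1))) + (2 * m - 1) * (2 * E) := by ring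
      have e2 : m * (3 * β * (T + 1 + 1) * s + n₁ + l)
          = (T + 1 + 1) * (m * P) + m * (n₁ + l) := by rw [hP]; ring
      rw [e1, e2, hmP] at h
      omega
  have hE : (T + 1 + 1) * (3 * s * (2 * c1)) = 2 * ((T + 1 + 1) * (3 * s * c1)) := by ring
  rcases hcase with ⟨D', hd, hD⟩ | ⟨D', hd, hD⟩
  · have h1 := harith D' 0 (by simpa using hD)
    rw [add_zero] at h1
    obtain ⟨b, hb⟩ := hN₀ n₁ (Nat.le_add_right _ _) _ h1
    apply hcol _ b hb
    rw [hE]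
    omega
  · rcases Nat.eq_zero_or_pos (D' - (T + 1 + 1) * (3 * s * c1)) with h0 | hpos
    · apply hcol 0 (fun _ _ => 0) (fun i j _ => Nat.zero_le _)
      rw [hE]
      omega
    · have h1 := harith D' 1 hD
      obtain ⟨b, hb⟩ := hN₀ (n₁ + 1) (by omega) _ h1
      obtain ⟨b', hb'⟩ := puncture (D := 2 * (D' - (T + 1 + 1) * (3 * s * c1)) - 1)
        (Sep_mono hb (by omega) : Sep ((2 * (D' - (T + 1 + 1) * (3 * s * c1)) - 1) + 1) b)
      apply hcol _ b' hb'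
      rw [hE]
      omega

lemma halfSize_upper {n d : ℕ} (h1 : d < n) (h2 : n < 2 * (d + 1)) :
    (∃ D', d + 1 ≤ 2 * D' ∧ (2 * halfSize n d - 1) * (2 * D') ≤ halfSize n d * n) ∨
      (∃ D', d + 2 ≤ 2 * D' ∧ (2 * halfSize n d - 1) * (2 * D') ≤ halfSize n d * (n + 1)) := by
  have hm1 := (halfSize_spec h1 h2).1
  unfold halfSize at hm1 ⊢
  by_cases he : Even d
  · right
    obtain ⟨D', hD'⟩ := he
    refine ⟨D' + 1, by omega, ?_⟩
    have he' : Even d := ⟨D', hD'⟩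
    simp only [he', if_true] at hm1 ⊢
    have hd2 : 2 * (D' + 1) = d + 2 := by omega
    rw [hd2]
    obtain ⟨e, hE⟩ : ∃ e, 2 * (d + 2) - (n + 1) = e + 1 := ⟨2 * (d + 2) - (n + 1) - 1, by omega⟩
    rw [hE] at hm1 ⊢
    set q := (d + 2) / (e + 1) with hq
    have a1 : q * (e + 1) ≤ d + 2 := Nat.div_mul_le_self _ _
    have hn : n + 1 + (e + 1) = 2 * (d + 2) := by omega
    obtain ⟨k, hk⟩ : ∃ k, q = k + 1 := ⟨q - 1, by omega⟩
    have : 2 * q - 1 = 2 * k + 1 := by omega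
    rw [this]
    rw [hk] at a1 ⊢
    nlinarith
  · left
    have hodd : Odd d := Nat.not_even_iff_odd.mp he
    obtain ⟨D', hD'⟩ := hodd
    refine ⟨D' + 1, by omega, ?_⟩
    simp only [he, if_false] at hm1 ⊢
    have hd2 : 2 * (D' + 1) = d + 1 := by omega
    rw [hd2]
    obtain ⟨e, hE⟩ : ∃ e, 2 * (d + 1) - n = e + 1 := ⟨2 * (d + 1) - n - 1, by omega⟩
    rw [hE] at hm1 ⊢
    set q := (d + 1) / (e + 1) with hq
    have a1 : q * (e + 1) ≤ d + 1 := Nat.div_mul_le_self _ _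
    have hn : n + (e + 1) = 2 * (d + 1) := by omega
    obtain ⟨k, hk⟩ : ∃ k, q = k + 1 := ⟨q - 1, by omega⟩
    have : 2 * q - 1 = 2 * k + 1 := by omega
    rw [this]
    rw [hk] at a1 ⊢
    nlinarith

lemma le_chromatic {m n d : ℕ} (hm : 1 ≤ m)
    (hlow : ∀ c, (QPow n d).Colorable c → 2 ^ n ≤ 2 * m * c) :
    (((2 ^ n + 2 * m - 1) / (2 * m) : ℕ) : ℕ∞) ≤ (QPow n d).chromaticNumber := by
  unfold SimpleGraph.chromaticNumber
  refine le_iInf₂ fun c hc => ?_
  have h := hlow c hc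
  rw [Nat.cast_le]
  have : (2 ^ n + 2 * m - 1) / (2 * m) < c + 1 := by
    rw [Nat.div_lt_iff_lt_mul (by omega)]
    have : (c + 1) * (2 * m) = 2 * m * c + 2 * m := by ring
    omega
  omega

/-- Bounded additive error in the whole upper range. -/
theorem additive (ε : ℝ) (hε : 0 < ε) : ∃ C : ℕ, ∀ n d : ℕ, d < n → (1 / 2 + ε) * n ≤ d →
    ((⌈(2 ^ n : ℚ) / (2 * halfSize n d)⌉₊ : ℕ) : ℕ∞) ≤ (QPow n d).chromaticNumber ∧
    (QPow n d).chromaticNumber ≤ ((⌈(2 ^ n : ℚ) / (2 * halfSize n d)⌉₊ + C : ℕ) : ℕ∞) := by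
  obtain ⟨m₀, hm₀⟩ := exists_nat_ge (1 / (2 * ε) + 1)
  choose C N hCN using fun m : {m : ℕ // 1 ≤ m} => near_bound m.2
  let C' : ℕ → ℕ := fun m => if h : 1 ≤ m then C ⟨m, h⟩ + 2 ^ N ⟨m, h⟩ else 0
  refine ⟨∑ m ∈ Icc 1 m₀, C' m, fun n d h1 hd => ?_⟩
  have hn : (n : ℝ) < 2 * (d + 1) := by
    have : (0 : ℝ) ≤ ε * n := by positivity
    nlinarith
  have hn' : n < 2 * (d + 1) := by exact_mod_cast hn
  obtain ⟨a1, a2, a3, a4⟩ := halfSize_spec h1 hn'
  have a5 := halfSize_upper h1 hn'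
  generalize halfSize n d = m at a1 a2 a3 a4 a5 ⊢
  have hmm : m ≤ m₀ := by
    have e1 : ((m * (2 * (d + 1) - n) : ℕ) : ℝ) ≤ ((n + 1 : ℕ) : ℝ) := by exact_mod_cast a4
    rw [Nat.cast_mul, Nat.cast_sub hn'.le] at e1
    push_cast at e1
    have e2 : (m : ℝ) * (2 * ε * n + 2) ≤ n + 1 := by
      refine le_trans ?_ e1
      apply mul_le_mul_of_nonneg_left _ (Nat.cast_nonneg m)
      nlinarith
    have e3 : (m : ℝ) ≤ 1 / (2 * ε) + 1 := by
      by_contra hlt
      rw [not_le] at hlt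
      have e4 : (1 / (2 * ε) + 1) * (2 * ε * n + 2) < n + 1 :=
        lt_of_lt_of_le (mul_lt_mul_of_pos_right hlt (by positivity)) e2
      have e5 : (1 / (2 * ε) + 1) * (2 * ε * n + 2) = n + 2 + 1 / ε + 2 * ε * n := by
        field_simp
        ring
      rw [e5] at e4
      have : (0 : ℝ) < 1 / ε := by positivity
      have : (0 : ℝ) ≤ 2 * ε * n := by positivity
      linarith
    exact_mod_cast e3.trans hm₀
  rw [← ceil_eq n m a1]
  refine ⟨le_chromatic a1 (fun c hc => lower a1 a2 hc), ?_⟩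
  have hC' : C ⟨m, a1⟩ + 2 ^ N ⟨m, a1⟩ ≤ ∑ m ∈ Icc 1 m₀, C' m := by
    have h2 : C' m = C ⟨m, a1⟩ + 2 ^ N ⟨m, a1⟩ := dif_pos a1
    rw [← h2]
    exact Finset.single_le_sum (f := C') (fun _ _ => Nat.zero_le _) (mem_Icc.mpr ⟨a1, hmm⟩)
  have hcol : (QPow n d).Colorable ((2 ^ n + 2 * m - 1) / (2 * m) + ∑ m ∈ Icc 1 m₀, C' m) := by
    rcases Nat.lt_or_ge n (N ⟨m, a1⟩) with hlt | hge
    · have h3 : (QPow n d).Colorable (Fintype.card (Finset (Fin n))) :=
        (QPow n d).colorable_of_fintype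
      refine h3.mono ?_
      rw [Fintype.card_finset, Fintype.card_fin]
      have h4 : 2 ^ n ≤ 2 ^ N ⟨m, a1⟩ := Nat.pow_le_pow_right (by norm_num) hlt.le
      exact h4.trans ((Nat.le_add_left _ _).trans (hC'.trans (Nat.le_add_left _ _)))
    · refine (hCN ⟨m, a1⟩ n d hge a5).mono ?_
      have h5 : 2 ^ n / (2 * m) ≤ (2 ^ n + 2 * m - 1) / (2 * m) :=
        Nat.div_le_div_right (by omega)
      exact Nat.add_le_add h5 ((Nat.le_add_right _ _).trans hC')
  exact hcol.chromaticNumber_le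

end MP7d5fe8
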