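import Mathlib

/-! The ten splittings of six words into two triples, and finite checks about them. -/

namespace MP7d5fe8

/-- The ten three-element subsets of `{1, ..., 5}` as masks. -/
def tb (i : Fin 10) : ℕ :=
  ([14, 22, 38, 26, 42, 50, 28, 44, 52, 56] : List ℕ).getD i.1 0

/-- Number of ones among the last six binary digits. -/
def pc6 (x : ℕ) : ℕ :=
  x % 2 + x / 2 % 2 + x / 4 % 2 + x / 8 % 2 + x / 16 % 2 + x / 32 % 2

/-- The difference of two blocks. -/
def tx (i j : Fin 10) : ℕ := tb i ^^^ tb j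

/-- The label of a difference of two blocks: a pair of words, as a mask. -/
def lab (A : ℕ) : ℕ := if pc6 A = 2 then A else 63 ^^^ A

/-- Two labels are disjoint. -/
def dsj (A B : ℕ) : Bool := lab A &&& lab B == 0

/-- Block `k` separates the two words of the label of `A`. -/
def sepm (A : ℕ) (k : Fin 10) : Bool := pc6 (lab A &&& tb k) == 1

def tt (i : Fin 10) (a : Fin 6) : Bool := (tb i).testBit a

/-- The value missed by the label. -/
def ms (A : ℕ) : Bool := !(lab A).testBit 0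

/-- The fifteen differences. -/
def masks : List ℕ := [24, 40, 20, 36, 60, 18, 34, 58, 54, 48, 12, 10, 46, 30, 6]

lemma mem_masks : ∀ i j : Fin 10, i ≠ j → tx i j ∈ masks := by
  decide +kernel

lemma tt_count : ∀ a b : Fin 6, a ≠ b →
    (Finset.univ.filter (fun i : Fin 10 => tt i a ≠ tt i b)).card = 6 := by
  decide +kernel

lemma tt_even : ∀ a : Fin 6,
    (Finset.univ.filter (fun i : Fin 10 => tt i a = true)).card % 2 = 0 := by
  decide +kernel

lemma good : ∀ A ∈ masks, ∀ B ∈ masks, dsj A B = true → ∃ m : Fin 10,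
    (∀ a : Fin 6, ¬ (A.testBit a = ms A ∧ B.testBit a = ms B)) ∧
    (∀ u v e : Bool, ¬ (u = ms A ∧ v = ms B) →
      ∃ a : Fin 6, A.testBit a = u ∧ B.testBit a = v ∧ tt m a = e) ∧
    (∀ a b : Fin 6, A.testBit a = A.testBit b → B.testBit a = B.testBit b →
      tt m a = tt m b → a = b) := by
  decide +kernel

lemma common : ∀ A ∈ masks, ∀ k l : Fin 10, sepm A k = sepm A l →
    ∃ m : Fin 10, k ≠ m ∧ l ≠ m ∧ dsj A (tx k m) = true ∧ dsj A (tx l m) = true := by
  decide +kernel

lemma third : ∀ i j : Fin 10, i ≠ j → sepm (tx i j) i = true ∧ sepm (tx i j) j = true ∧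
    (∃ k, k ≠ i ∧ k ≠ j ∧ sepm (tx i j) k = true) ∧ ∃ k, sepm (tx i j) k = false := by
  decide +kernel

lemma cross : ∀ A ∈ masks, ∀ i j : Fin 10, sepm A i = true → sepm A j = false →
    pc6 (lab A &&& lab (tx i j)) = 1 := by
  decide +kernel

lemma indep : ∀ A ∈ masks, ∀ B ∈ masks, pc6 (lab A &&& lab B) = 1 →
    ∃ k l k' l' : Fin 10, k ≠ l ∧ k' ≠ l' ∧ dsj (tx k l) (tx k' l') = true ∧
      ((sepm A k ^^ sepm A l) = true ∨ (sepm B k ^^ sepm B l) = true) ∧
      ((sepm A k' ^^ sepm A l') = true ∨ (sepm B k' ^^ sepm B l') = true) ∧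
      ((sepm A k ^^ sepm A l) ≠ (sepm A k' ^^ sepm A l') ∨
        (sepm B k ^^ sepm B l) ≠ (sepm B k' ^^ sepm B l')) := by
  decide +kernel

end MP7d5fe8
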