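import Pool.Agent.Work.MP_7d5fe8_co.Core

/-! Reduction of a multiple of the whole cube to a bounded part. -/

open Finset

namespace MP7d5fe8

set_option linter.unusedSectionVars false

section
variable {κ : Type} [Fintype κ] [DecidableEq κ]

/-- Words supported in `T`. -/
def suppSet (T : Finset κ) : Finset (Wd κ) := univ.filter (fun t => ∀ c, c ∉ T → t c = 0)

lemma mem_suppSet {T : Finset κ} {t : Wd κ} : t ∈ suppSet T ↔ ∀ c, c ∉ T → t c = 0 := by
  simp [suppSet]

lemma card_suppSet (T : Finset κ) : (suppSet T).card = 2 ^ T.card := by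
  have h : suppSet T = Fintype.piFinset (fun c => if c ∈ T then (univ : Finset (ZMod 2)) else {0}) := by
    ext t
    rw [mem_suppSet, Fintype.mem_piFinset]
    constructor
    · intro h c
      by_cases hc : c ∈ T
      · simp [hc]
      · simp [hc, h c hc]
    · intro h c hc
      have := h c
      simpa [hc] using this
  rw [h, Fintype.card_piFinset]
  have : ∀ c, (if c ∈ T then (univ : Finset (ZMod 2)) else {0}).card = if c ∈ T then 2 else 1 := by
    intro c
    split_ifs
    · simp [ZMod.card]
    · simp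
  simp only [this]
  rw [Finset.prod_ite]
  simp

lemma zero_mem_suppSet (T : Finset κ) : (0 : Wd κ) ∈ suppSet T := by
  rw [mem_suppSet]
  intro c _
  rfl

lemma sum_suppSet_union {T S : Finset κ} (h : Disjoint T S) (f : Wd κ → ℕ) :
    ∑ t ∈ suppSet (T ∪ S), f t = ∑ z ∈ suppSet S, ∑ t ∈ suppSet T, f (t + z) := by
  rw [← Finset.sum_product']
  symm
  refine Finset.sum_nbij' (fun p => p.2 + p.1)
    (fun w => ((fun c => if c ∈ S then w c else 0), (fun c => if c ∈ T then w c else 0)))
    ?_ ?_ ?_ ?_ ?_
  · rintro ⟨z, t⟩ hp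
    simp only [mem_product, mem_suppSet] at hp ⊢
    intro c hc
    rw [mem_union, not_or] at hc
    simp only [Pi.add_apply]
    rw [hp.1 c hc.2, hp.2 c hc.1, add_zero]
  · intro w hw
    simp only [mem_product, mem_suppSet] at hw ⊢
    constructor
    · intro c hc
      simp [hc]
    · intro c hc
      simp [hc]
  · rintro ⟨z, t⟩ hp
    simp only [mem_product, mem_suppSet] at hp
    ext c
    · simp only [Pi.add_apply]
      by_cases hc : c ∈ S
      · have : c ∉ T := fun hT => (Finset.disjoint_left.mp h) hT hc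
        simp only [hc, if_true]
        rw [hp.2 c this, zero_add]
      · simp only [hc, if_false]
        rw [hp.1 c hc]
    · simp only [Pi.add_apply]
      by_cases hc : c ∈ T
      · have : c ∉ S := fun hS => (Finset.disjoint_left.mp h) hc hS
        simp only [hc, if_true]
        rw [hp.1 c this, add_zero]
      · simp only [hc, if_false]
        rw [hp.2 c hc]
  · intro w hw
    rw [mem_suppSet] at hw
    ext c
    simp only [Pi.add_apply]
    by_cases hT : c ∈ T
    · have : c ∉ S := fun hS => (Finset.disjoint_left.mp h) hT hS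
      simp [hT, this]
    · by_cases hS : c ∈ S
      · simp [hT, hS]
      · simp only [hT, hS, if_false, add_zero]
        rw [hw c]
        simp [hT, hS]
  · rintro ⟨z, t⟩ hp
    rfl

end

section
variable {n M : ℕ}

/-- The change of coordinates that adds the pattern words. -/
def Phi (a : Fin M → Wd (Fin n)) (t : Wd (Fin n)) (y : Wd (Fin M)) : Wd (Fin n ⊕ Fin M) :=
  Sum.elim (t + ∑ i, y i • a i) y

lemma Phi_add (a : Fin M → Wd (Fin n)) (t t' : Wd (Fin n)) (y y' : Wd (Fin M)) :
    Phi a (t + t') (y + y') = Phi a t y + Phi a t' y' := by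
  unfold Phi
  ext c
  cases c with
  | inl c =>
    simp only [Sum.elim_inl, Pi.add_apply, Finset.sum_apply, Pi.smul_apply, smul_eq_mul, add_mul,
      sum_add_distrib]
    ring
  | inr c => simp

lemma Phi_injective (a : Fin M → Wd (Fin n)) {t t' : Wd (Fin n)} {y y' : Wd (Fin M)}
    (h : Phi a t y = Phi a t' y') : t = t' ∧ y = y' := by
  have hy : y = y' := by
    ext c
    have := congrFun h (Sum.inr c)
    simpa [Phi] using this
  subst hy
  refine ⟨?_, rfl⟩
  ext c
  have := congrFun h (Sum.inl c)
  simpa [Phi] using this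

lemma Phi_surjective (a : Fin M → Wd (Fin n)) (g : Wd (Fin n ⊕ Fin M)) :
    Phi a ((fun c => g (Sum.inl c)) - ∑ i, g (Sum.inr i) • a i) (fun i => g (Sum.inr i)) = g := by
  unfold Phi
  ext c
  cases c with
  | inl c => simp
  | inr c => simp

lemma hammingDist_sum {α β : Type} [Fintype α] [Fintype β] [DecidableEq α] [DecidableEq β]
    (x x' : Wd (α ⊕ β)) :
    hammingDist x x' = hammingDist (fun c => x (Sum.inl c)) (fun c => x' (Sum.inl c))
      + hammingDist (fun c => x (Sum.inr c)) (fun c => x' (Sum.inr c)) := by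
  unfold hammingDist
  rw [card_filter, card_filter, card_filter, Fintype.sum_sum_type]

/-- The unit words. -/
def eps (i : Fin M) : Wd (Fin M) := fun c => if c = i then 1 else 0

lemma sum_eps (a : Fin M → Wd (Fin n)) (i : Fin M) : ∑ k, eps i k • a k = a i := by
  rw [Finset.sum_eq_single i]
  · simp [eps]
  · intro b _ hb
    simp [eps, hb]
  · intro h
    exact absurd (mem_univ i) h

lemma hammingDist_eps {i j : Fin M} (h : i ≠ j) : hammingDist (eps i) (eps j) = 2 := by
  unfold hammingDist
  have : (univ.filter fun c => eps i c ≠ eps j c) = ({i, j} : Finset (Fin M)) := by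
    ext c
    rw [Finset.mem_filter]
    simp only [mem_univ, true_and, mem_insert, mem_singleton, eps]
    by_cases h1 : c = i
    · subst h1
      simp [h]
    · by_cases h2 : c = j
      · subst h2
        simp [h1]
      · simp [h1, h2]
  rw [this, card_pair h]

/-- The extended pattern. -/
def ext (a : Fin M → Wd (Fin n)) (i : Fin M) : Wd (Fin n ⊕ Fin M) := Phi a 0 (eps i)

lemma Sep_ext {D : ℕ} {a : Fin M → Wd (Fin n)} (ha : Sep D a) : Sep (D + 2) (ext a) := by
  intro i j hij
  unfold ext
  rw [hammingDist_sum]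
  have e1 : ∀ k, (fun c => Phi a 0 (eps k) (Sum.inl c)) = a k := by
    intro k
    ext c
    simp only [Phi, Sum.elim_inl, zero_add]
    rw [sum_eps]
  have e2 : ∀ k, (fun c => Phi a 0 (eps k) (Sum.inr c)) = eps k := by
    intro k
    ext c
    simp [Phi]
  rw [e1, e1, e2, e2, hammingDist_eps hij]
  have := ha i j hij
  omega

/-- Counting function of a slab. -/
def mu (a : Fin M → Wd (Fin n)) (T : Finset (Fin n)) : Wd (Fin n ⊕ Fin M) → ℕ :=
  fun g => ∑ t ∈ suppSet T, ∑ y : Wd (Fin M), if Phi a t y = g then 1 else 0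

lemma mu_univ (a : Fin M → Wd (Fin n)) (g : Wd (Fin n ⊕ Fin M)) : mu a univ g = 1 := by
  unfold mu
  have hs : suppSet (univ : Finset (Fin n)) = univ := by
    ext t
    simp [mem_suppSet]
  rw [hs]
  obtain ⟨t, y, hty⟩ : ∃ t y, Phi a t y = g := ⟨_, _, Phi_surjective a g⟩
  rw [Finset.sum_eq_single t, Finset.sum_eq_single y]
  · simp [hty]
  · intro y' _ hy'
    rw [if_neg]
    intro h
    exact hy' (Phi_injective a (h.trans hty.symm)).2
  · intro h
    exact absurd (mem_univ _) h
  · intro t' _ ht'
    apply sum_eq_zero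
    intro y' _
    rw [if_neg]
    intro h
    exact ht' (Phi_injective a (h.trans hty.symm)).1
  · intro h
    exact absurd (mem_univ _) h

lemma hammingDist_le_of_supp {S : Finset (Fin n)} {z z' : Wd (Fin n)} (hz : z ∈ suppSet S)
    (hz' : z' ∈ suppSet S) : hammingDist z z' ≤ S.card := by
  unfold hammingDist
  apply card_le_card
  intro c hc
  simp only [mem_filter, mem_univ, true_and] at hc
  by_contra hcS
  rw [mem_suppSet] at hz hz'
  rw [hz c hcS, hz' c hcS] at hc
  exact hc rfl

lemma step {D s q c : ℕ} {a : Fin M → Wd (Fin n)} (ha : Sep (D + s) a)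
    (hM : c * M = q * (2 ^ s - 1)) {T S : Finset (Fin n)} (hTS : Disjoint T S)
    (hS : S.card = s) :
    ∃ τ ∈ Til (Fin n ⊕ Fin M) D M, ∀ g, q * mu a (T ∪ S) g = q * mu a T g + τ g := by
  classical
  have hcard : Fintype.card (Fin c × Fin M)
      = Fintype.card (Fin q × {z // z ∈ (suppSet S).erase 0}) := by
    rw [Fintype.card_prod, Fintype.card_prod, Fintype.card_fin, Fintype.card_fin,
      Fintype.card_fin, hM, Fintype.card_coe, card_erase_of_mem (zero_mem_suppSet S),
      card_suppSet, hS]
  let e := Fintype.equivOfCardEq hcard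
  let z : Fin c → Fin M → Wd (Fin n) := fun k i => ((e (k, i)).2 : Wd (Fin n))
  have hz : ∀ k i, z k i ∈ suppSet S := fun k i => mem_of_mem_erase (e (k, i)).2.2
  have hsum : ∀ f : Wd (Fin n) → ℕ, (∑ k, ∑ i, f (z k i)) = q * ∑ w ∈ (suppSet S).erase 0, f w := by
    intro f
    rw [← Fintype.sum_prod_type' (f := fun k i => f (z k i))]
    have : (∑ x : Fin c × Fin M, f (z x.1 x.2))
        = ∑ x : Fin c × Fin M, (fun p : Fin q × {z // z ∈ (suppSet S).erase 0} => f p.2) (e x) :=
      rfl
    rw [this, Equiv.sum_comp e (fun p : Fin q × {z // z ∈ (suppSet S).erase 0} => f p.2),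
      Fintype.sum_prod_type]
    simp only [sum_const, card_univ, Fintype.card_fin, smul_eq_mul]
    congr 1
    exact Finset.sum_coe_sort ((suppSet S).erase 0) f
  refine ⟨∑ k : Fin c, ∑ t ∈ suppSet T, ∑ y : Wd (Fin M),
    cnt (fun i => Phi a (t + z k i) (y + eps i)), ?_, ?_⟩
  · refine AddSubmonoid.sum_mem _ fun k _ => AddSubmonoid.sum_mem _ fun t _ =>
      AddSubmonoid.sum_mem _ fun y _ => cnt_mem_Til ?_
    intro i j hij
    show D ≤ hammingDist (Phi a (t + z k i) (y + eps i)) (Phi a (t + z k j) (y + eps j))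
    rw [Phi_add, Phi_add, hammingDist_add_left', hammingDist_sum]
    have e1 : ∀ l, (fun c => Phi a (z k l) (eps l) (Sum.inl c)) = z k l + a l := by
      intro l
      ext c
      simp only [Phi, Sum.elim_inl]
      rw [sum_eps]
    rw [e1, e1]
    have t1 : hammingDist (a i) (a j) = hammingDist (z k i + a i) (z k i + a j) :=
      (hammingDist_add_left' _ _ _).symm
    have t2 := hammingDist_triangle (z k i + a i) (z k j + a j) (z k i + a j)
    rw [hammingDist_add_right' (a j)] at t2
    have t3 := hammingDist_le_of_supp (hz k j) (hz k i)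
    have t4 := ha i j hij
    omega
  · intro g
    have key : (∑ k : Fin c, ∑ t ∈ suppSet T, ∑ y : Wd (Fin M),
        cnt (fun i => Phi a (t + z k i) (y + eps i))) g
        = ∑ k : Fin c, ∑ i : Fin M, ∑ t ∈ suppSet T, ∑ y : Wd (Fin M),
          if Phi a (t + z k i) y = g then 1 else 0 := by
      simp only [Finset.sum_apply]
      apply sum_congr rfl
      intro k _
      unfold cnt
      have h1 : ∀ t : Wd (Fin n), (∑ y : Wd (Fin M), ∑ i : Fin M,
          if Phi a (t + z k i) (y + eps i) = g then 1 else 0)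
          = ∑ i : Fin M, ∑ y : Wd (Fin M), if Phi a (t + z k i) y = g then 1 else 0 := by
        intro t
        rw [sum_comm]
        apply sum_congr rfl
        intro i _
        exact Equiv.sum_comp (Equiv.addRight (eps i))
          (fun y => if Phi a (t + z k i) y = g then 1 else 0)
      simp only [h1]
      rw [sum_comm]
    rw [key, hsum (fun w => ∑ t ∈ suppSet T, ∑ y : Wd (Fin M),
          if Phi a (t + w) y = g then 1 else 0), ← mul_add]
    congr 1
    have h2 : mu a (T ∪ S) g = ∑ w ∈ suppSet S, ∑ t ∈ suppSet T, ∑ y : Wd (Fin M),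
          if Phi a (t + w) y = g then 1 else 0 := by
      unfold mu
      rw [sum_suppSet_union hTS]
    rw [h2, ← Finset.add_sum_erase _ _ (zero_mem_suppSet S)]
    simp only [add_zero]
    rfl

lemma chain {D s q c ρ : ℕ} {a : Fin M → Wd (Fin n)} (ha : Sep (D + s) a)
    (hM : c * M = q * (2 ^ s - 1)) : ∀ (k : ℕ) (T : Finset (Fin n)), T.card = ρ + s * k →
    ∃ T₀ : Finset (Fin n), T₀.card = ρ ∧
    ∃ τ ∈ Til (Fin n ⊕ Fin M) D M, ∀ g, q * mu a T g = q * mu a T₀ g + τ g := by
  intro k
  induction k with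
  | zero =>
    intro T hT
    exact ⟨T, by simpa using hT, 0, AddSubmonoid.zero_mem _, fun g => by simp⟩
  | succ k ih =>
    intro T hT
    obtain ⟨S, hST, hS⟩ := Finset.exists_subset_card_eq (s := T) (n := s) (by
      rw [hT]; nlinarith)
    have hd : Disjoint (T \ S) S := Finset.sdiff_disjoint
    obtain ⟨τ, hτ, h1⟩ := step ha hM hd hS
    rw [Finset.sdiff_union_of_subset hST] at h1
    obtain ⟨T₀, hT₀, τ', hτ', h2⟩ := ih (T \ S) (by
      rw [card_sdiff_of_subset hST, hT, hS, Nat.mul_succ]; omega)
    refine ⟨T₀, hT₀, τ' + τ, AddSubmonoid.add_mem _ hτ' hτ, fun g => ?_⟩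
    rw [h1, h2, Pi.add_apply]
    ring

end

end MP7d5fe8
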