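import Mathlib

/-! The definitions used in the statements. -/

namespace MP7d5fe8

/-- The graph `Q_n^d`: the vertices are the subsets of an `n`-element set, two of them being
adjacent when their symmetric difference has at least `1` and at most `d` elements. -/
def QPow (n d : ℕ) : SimpleGraph (Finset (Fin n)) where
  Adj x y := 1 ≤ (symmDiff x y).card ∧ (symmDiff x y).card ≤ d
  symm := ⟨fun x y h => by rwa [symmDiff_comm y x]⟩
  loopless := ⟨fun x h => by simp at h⟩

/-- `⌊D / (2D - N)⌋`, where `(N, D) = (n, d + 1)` if `d` is odd and `(N, D) = (n + 1, d + 2)` if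
`d` is even (natural number division, rounding down). -/
def halfSize (n d : ℕ) : ℕ :=
  if Even d then (d + 2) / (2 * (d + 2) - (n + 1)) else (d + 1) / (2 * (d + 1) - n)

end MP7d5fe8
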