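import Pool.Agent.Work.MP_7d5fe8_co.Absorb
import Pool.Agent.Work.MP_7d5fe8_co.Defs

/-! From the decomposition to a colouring of a power of the cube. -/

open Finset

namespace MP7d5fe8

set_option linter.unusedSectionVars false

section
variable {κ : Type} [Fintype κ] [DecidableEq κ]

lemma Til_explicit {D M : ℕ} {τ : Wd κ → ℕ} (h : τ ∈ Til κ D M) :
    ∃ (K : Type) (_ : Fintype K) (c : K → Fin M → Wd κ), (∀ k, Sep D (c k)) ∧
      ∀ g, τ g = ∑ k, ∑ i, if c k i = g then 1 else 0 := by
  unfold Til at h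
  induction h using AddSubmonoid.closure_induction with
  | mem x hx =>
    obtain ⟨c, hc, rfl⟩ := hx
    refine ⟨Unit, inferInstance, fun _ => c, fun _ => hc, fun g => ?_⟩
    simp [cnt]
  | zero =>
    exact ⟨Empty, inferInstance, fun k => k.elim, fun k => k.elim, fun g => by simp⟩
  | add x y _ _ hx hy =>
    obtain ⟨K₁, i₁, c₁, h₁, e₁⟩ := hx
    obtain ⟨K₂, i₂, c₂, h₂, e₂⟩ := hy
    refine ⟨K₁ ⊕ K₂, inferInstance, Sum.elim c₁ c₂, ?_, fun g => ?_⟩
    · rintro (k | k)
      · exact h₁ k
      · exact h₂ k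
    · rw [Pi.add_apply, e₁, e₂, Fintype.sum_sum_type]
      rfl

/-- An exact cover with multiplicity `|H|` gives a colouring of the product. -/
lemma colour_product {D M F : ℕ} (hM : 1 ≤ M) {K : Type} [Fintype K] {c : K → Fin M → Wd κ}
    (hc : ∀ k, Sep D (c k)) {A : Fin M → Wd κ} (hA : Sep D A) {R : Finset (Fin M)}
    (hR : R.card < M)
    (hF : ∀ g, F = (∑ k, ∑ i, if c k i = g then 1 else 0) + ∑ i ∈ R, if A i = g then 1 else 0)
    {H : Type} [Fintype H] (hH : Fintype.card H = F) :
    ∃ col : Wd κ × H → Fin ((F * 2 ^ Fintype.card κ + M - 1) / M),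
      ∀ p q, p ≠ q → col p = col q → D ≤ hammingDist p.1 q.1 := by
  classical
  -- all the places
  let Ω := (K × Fin M) ⊕ {i // i ∈ R}
  let w : Ω → Wd κ := Sum.elim (fun x => c x.1 x.2) (fun i => A i)
  have hcard : ∀ g, Fintype.card {x : Ω // w x = g} = F := by
    intro g
    rw [Fintype.card_subtype, card_filter, Fintype.sum_sum_type, hF g, Fintype.sum_prod_type]
    congr 1
    exact Finset.sum_coe_sort R (fun i => if A i = g then 1 else 0)
  have heq : ∀ g, Nonempty (H ≃ {x : Ω // w x = g}) := by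
    intro g
    exact ⟨Fintype.equivOfCardEq (by rw [hcard, hH])⟩
  let e : ∀ g, H ≃ {x : Ω // w x = g} := fun g => (heq g).some
  let cΩ : Ω → K ⊕ {_u : Unit // R.Nonempty} :=
    Sum.elim (fun x => Sum.inl x.1) (fun i => Sum.inr ⟨(), ⟨i.1, i.2⟩⟩)
  let col0 : Wd κ × H → K ⊕ {_u : Unit // R.Nonempty} := fun p => cΩ (e p.1 p.2).1
  have hcol0 : ∀ p q, p ≠ q → col0 p = col0 q → D ≤ hammingDist p.1 q.1 := by
    intro p q hpq hc0
    have hp : w (e p.1 p.2).1 = p.1 := (e p.1 p.2).2
    have hq : w (e q.1 q.2).1 = q.1 := (e q.1 q.2).2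
    have hne : (e p.1 p.2).1 ≠ (e q.1 q.2).1 := by
      intro h
      apply hpq
      have h1 : p.1 = q.1 := by rw [← hp, ← hq, h]
      obtain ⟨p1, p2⟩ := p
      obtain ⟨q1, q2⟩ := q
      simp only at h1
      subst h1
      have : e p1 p2 = e p1 q2 := Subtype.ext h
      rw [(e p1).injective this]
    rw [← hp, ← hq]
    have hc1 : cΩ (e p.1 p.2).1 = cΩ (e q.1 q.2).1 := hc0
    generalize (e p.1 p.2).1 = x at hne hc1 ⊢
    generalize (e q.1 q.2).1 = y at hne hc1 ⊢
    rcases x with ⟨k, i⟩ | ⟨i, hi⟩ <;> rcases y with ⟨k', i'⟩ | ⟨i', hi'⟩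
    · have hk : k = k' := Sum.inl_injective hc1
      subst hk
      have hii : i ≠ i' := fun h => hne (by rw [h])
      exact hc k i i' hii
    · exact absurd hc1 (by simp [cΩ])
    · exact absurd hc1 (by simp [cΩ])
    · have hii : i ≠ i' := fun h => hne (by subst h; rfl)
      exact hA i i' hii
  -- the number of colours
  have htot : F * 2 ^ Fintype.card κ = Fintype.card K * M + R.card := by
    have h1 : (∑ _g : Wd κ, F) = F * 2 ^ Fintype.card κ := by
      rw [sum_const, card_univ, Fintype.card_fun, ZMod.card, smul_eq_mul, mul_comm]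
    have h2 : (∑ _g : Wd κ, F) = ∑ g : Wd κ, ((∑ k, ∑ i, if c k i = g then 1 else 0)
        + ∑ i ∈ R, if A i = g then 1 else 0) := sum_congr rfl (fun g _ => hF g)
    rw [← h1, h2, sum_add_distrib]
    congr 1
    · rw [sum_comm]
      have : ∀ k : K, (∑ g : Wd κ, ∑ i : Fin M, if c k i = g then 1 else 0) = M := by
        intro k
        rw [sum_comm]
        simp
      rw [sum_congr rfl (fun k _ => this k), sum_const, card_univ, smul_eq_mul]
    · rw [sum_comm]
      simp
  have hcardC : Fintype.card (K ⊕ {_u : Unit // R.Nonempty})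
      ≤ Fintype.card (Fin ((F * 2 ^ Fintype.card κ + M - 1) / M)) := by
    rw [Fintype.card_fin, htot, Nat.le_div_iff_mul_le hM, Fintype.card_sum]
    by_cases hRn : R.Nonempty
    · have h1 : Fintype.card {_u : Unit // R.Nonempty} = 1 := by
        rw [Fintype.card_eq_one_iff]
        exact ⟨⟨(), hRn⟩, fun _ => rfl⟩
      have h2 : 1 ≤ R.card := hRn.card_pos
      rw [h1, add_mul, one_mul]
      omega
    · have h1 : Fintype.card {_u : Unit // R.Nonempty} = 0 := by
        rw [Fintype.card_eq_zero_iff]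
        exact ⟨fun u => hRn u.2⟩
      rw [h1, add_zero]
      omega
  obtain ⟨ι⟩ := Function.Embedding.nonempty_of_card_le hcardC
  exact ⟨fun p => ι (col0 p), fun p q hpq h => hcol0 p q hpq (ι.injective h)⟩

end

/-- The general upper bound, in words. -/
theorem colour_words {D M n C : ℕ} (hM : 1 ≤ M) (hC : 3 * M ≤ C) {a : Fin M → Wd (Fin n)}
    (ha : Sep (D + M) a) :
    ∃ col : Wd (Fin n ⊕ Fin M) × Wd (Fin C) → Fin ((2 ^ (n + M + C) + M - 1) / M),
      ∀ p q, p ≠ q → col p = col q → D ≤ hammingDist p.1 q.1 := by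
  obtain ⟨τ, hτ, R, hR, h⟩ := decomp hM hC ha
  obtain ⟨K, iK, c, hc, hτc⟩ := Til_explicit hτ
  have hA : Sep D (ext a) := by
    have h0 : Sep D a := fun i j hij => by have := ha i j hij; omega
    intro i j hij
    have := Sep_ext h0 i j hij
    omega
  have hH : Fintype.card (Wd (Fin C)) = 2 ^ C := by
    rw [Fintype.card_fun, ZMod.card, Fintype.card_fin]
  have key := colour_product hM hc hA hR (fun g => by rw [h g, hτc g]) hH
  have e : 2 ^ C * 2 ^ Fintype.card (Fin n ⊕ Fin M) = 2 ^ (n + M + C) := by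
    rw [Fintype.card_sum, Fintype.card_fin, Fintype.card_fin, ← pow_add]
    congr 1
    omega
  rw [e] at key
  exact key

/-- The general upper bound, in the graph `Q_n^d`. -/
theorem colorable {d M n N : ℕ} (hM : 1 ≤ M) (hN : n + 4 * M ≤ N) {a : Fin M → Wd (Fin n)}
    (ha : Sep (d + 1 + M) a) : (QPow N d).Colorable ((2 ^ N + M - 1) / M) := by
  obtain ⟨C, rfl⟩ : ∃ C, N = n + M + C := ⟨N - (n + M), by omega⟩
  obtain ⟨col, hcol⟩ := colour_words (D := d + 1) (C := C) hM (by omega) ha
  have hc : Fintype.card (Fin (n + M + C)) = Fintype.card ((Fin n ⊕ Fin M) ⊕ Fin C) := by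
    simp
  let e : Fin (n + M + C) ≃ (Fin n ⊕ Fin M) ⊕ Fin C := Fintype.equivOfCardEq hc
  let w : Finset (Fin (n + M + C)) → Wd (Fin n ⊕ Fin M) :=
    fun x i => if e.symm (Sum.inl i) ∈ x then 1 else 0
  let h : Finset (Fin (n + M + C)) → Wd (Fin C) :=
    fun x i => if e.symm (Sum.inr i) ∈ x then 1 else 0
  refine ⟨SimpleGraph.Coloring.mk (fun x => col (w x, h x)) ?_⟩
  intro x y hxy heq
  have hne : (w x, h x) ≠ (w y, h y) := by
    intro hh
    have h1 : w x = w y := congrArg Prod.fst hh
    have h2 : h x = h y := congrArg Prod.snd hh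
    have : x = y := by
      ext i
      obtain ⟨z, rfl⟩ := e.symm.surjective i
      rcases z with z | z
      · have := congrFun h1 z
        simp only [w] at this
        by_cases p : e.symm (Sum.inl z) ∈ x <;> by_cases q : e.symm (Sum.inl z) ∈ y <;>
          simp_all
      · have := congrFun h2 z
        simp only [h] at this
        by_cases p : e.symm (Sum.inr z) ∈ x <;> by_cases q : e.symm (Sum.inr z) ∈ y <;>
          simp_all
    subst this
    exact (QPow (n + M + C) d).loopless.irrefl x hxy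
  have hd := hcol _ _ hne heq
  have hle : hammingDist (w x) (w y) ≤ (symmDiff x y).card := by
    unfold hammingDist
    apply Finset.card_le_card_of_injOn (fun i => e.symm (Sum.inl i))
    · intro i hi
      simp only [coe_filter, mem_univ, true_and, Set.mem_ofPred_eq] at hi
      simp only [mem_coe, mem_symmDiff]
      simp only [w] at hi
      by_cases p : e.symm (Sum.inl i) ∈ x <;> by_cases q : e.symm (Sum.inl i) ∈ y <;>
        simp_all
    · intro i _ j _ hij
      exact Sum.inl_injective (e.symm.injective hij)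
  have := hxy.2
  simp only at hd
  omega

end MP7d5fe8
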