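import Mathlib

/-! Counting functions of families of words, and the additive monoid they generate. -/

open Finset

namespace MP7d5fe8

/-- Binary words with coordinates in `κ`. -/
abbrev Wd (κ : Type) := κ → ZMod 2

section
variable {κ : Type} [Fintype κ] [DecidableEq κ]

set_option linter.unusedSectionVars false

/-- Counting function of a finite family of words. -/
def cnt {α : Type} [Fintype α] (c : α → Wd κ) : Wd κ → ℕ :=
  fun g => ∑ i, if c i = g then 1 else 0

/-- The words of the family are pairwise at distance at least `D`. -/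
def Sep {α : Type} (D : ℕ) (c : α → Wd κ) : Prop :=
  ∀ i j, i ≠ j → D ≤ hammingDist (c i) (c j)

/-- Sums of counting functions of `M`-word families at distance `≥ D`. -/
def Til (κ : Type) [Fintype κ] [DecidableEq κ] (D M : ℕ) : AddSubmonoid (Wd κ → ℕ) :=
  AddSubmonoid.closure {f | ∃ c : Fin M → Wd κ, Sep D c ∧ f = cnt c}

lemma cnt_mem_Til {D M : ℕ} {c : Fin M → Wd κ} (hc : Sep D c) : cnt c ∈ Til κ D M :=
  AddSubmonoid.subset_closure ⟨c, hc, rfl⟩

lemma hammingDist_add_left' (x y z : Wd κ) : hammingDist (x + y) (x + z) = hammingDist y z := by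
  unfold hammingDist
  congr 1
  ext i
  simp

lemma hammingDist_add_right' (x y z : Wd κ) : hammingDist (y + x) (z + x) = hammingDist y z := by
  unfold hammingDist
  congr 1
  ext i
  simp

/-- The word with support `S`. -/
def ind (S : Finset κ) : Wd κ := fun c => if c ∈ S then 1 else 0

lemma exists_ind (q : Wd κ) : ∃ S, q = ind S := by
  refine ⟨univ.filter (fun c => q c ≠ 0), ?_⟩
  ext c
  unfold ind
  by_cases h : q c = 0
  · simp [h]
  · have : q c = 1 := by
      have h2 : ∀ a : ZMod 2, a ≠ 0 → a = 1 := by decide
      exact h2 _ h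
    simp [this]

/-- A self map of the cube, moving every word by at most one, whose image
covers every word once, except that `0` is missed and `ind S` is hit twice. -/
lemma exists_shift_ind (S : Finset κ) : ∃ ψ : Wd κ → Wd κ,
    (∀ x, hammingDist (ψ x) x ≤ 1) ∧ ψ (ind S) = ind S ∧
    (∀ x : Wd κ, (∃ c, c ∉ S ∧ x c ≠ 0) → ψ x = x) ∧
    ∀ g, (∑ x, if ψ x = g then 1 else 0) + (if 0 = g then 1 else 0)
      = 1 + (if ind S = g then 1 else 0) := by
  induction S using Finset.induction_on with
  | empty =>
    have h0 : (ind (∅ : Finset κ) : Wd κ) = 0 := by ext c; simp [ind]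
    refine ⟨id, fun x => by simp, rfl, fun x _ => rfl, fun g => ?_⟩
    rw [h0]
    simp
  | insert c S hc ih =>
    obtain ⟨ψ, h1, h2, h3, h4⟩ := ih
    have hne : (ind (insert c S) : Wd κ) ≠ ind S := by
      intro h
      have := congrFun h c
      simp [ind, hc] at this
    refine ⟨Function.update ψ (ind S) (ind (insert c S)), ?_, ?_, ?_, ?_⟩
    · intro x
      by_cases hx : x = ind S
      · subst hx
        rw [Function.update_self]
        unfold hammingDist
        have : (univ.filter fun i => (ind (insert c S) : Wd κ) i ≠ (ind S : Wd κ) i) ⊆ {c} := by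
          intro i hi
          simp only [mem_filter, mem_univ, true_and] at hi
          by_contra hic
          simp only [mem_singleton] at hic
          apply hi
          simp [ind, mem_insert, hic]
        calc _ ≤ _ := card_le_card this
          _ = 1 := by simp
      · rw [Function.update_of_ne hx]
        exact h1 x
    · rw [Function.update_of_ne hne]
      apply h3
      refine ⟨c, hc, ?_⟩
      simp [ind]
    · rintro x ⟨d, hd, hxd⟩
      have hx : x ≠ ind S := by
        rintro rfl
        simp only [mem_insert, not_or] at hd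
        apply hxd
        simp [ind, hd.2]
      rw [Function.update_of_ne hx]
      apply h3
      refine ⟨d, ?_, hxd⟩
      simp only [mem_insert, not_or] at hd
      exact hd.2
    · intro g
      have h4g := h4 g
      have e1 : ∀ φ : Wd κ → Wd κ, (∑ x, if φ x = g then 1 else 0)
          = (if φ (ind S) = g then 1 else 0)
            + ∑ x ∈ univ.erase (ind S), if φ x = g then 1 else 0 := by
        intro φ
        rw [← Finset.add_sum_erase univ _ (mem_univ (ind S))]
      rw [e1] at h4g
      rw [e1, Function.update_self]
      have e2 : (∑ x ∈ univ.erase (ind S),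
            if Function.update ψ (ind S) (ind (insert c S)) x = g then 1 else 0)
          = ∑ x ∈ univ.erase (ind S), if ψ x = g then 1 else 0 := by
        apply sum_congr rfl
        intro x hx
        rw [Function.update_of_ne (ne_of_mem_erase hx)]
      rw [e2]
      rw [h2] at h4g
      omega

lemma exists_shift (q : Wd κ) : ∃ ψ : Wd κ → Wd κ,
    (∀ x, hammingDist (ψ x) x ≤ 1) ∧
    ∀ g, (∑ x, if ψ x = g then 1 else 0) + (if 0 = g then 1 else 0)
      = 1 + (if q = g then 1 else 0) := by
  obtain ⟨S, rfl⟩ := exists_ind q
  obtain ⟨ψ, h1, _, _, h4⟩ := exists_shift_ind S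
  exact ⟨ψ, h1, h4⟩

/-- Transport lemma: with slack two, `M` copies of the whole cube absorb any words. -/
lemma transport {D M : ℕ} {a : Fin M → Wd κ} (ha : Sep (D + 2) a) (R : Finset (Fin M))
    (p : Fin M → Wd κ) :
    ∃ τ ∈ Til κ D M, ∀ g, M + (∑ i ∈ R, if p i = g then 1 else 0)
      = τ g + ∑ i ∈ R, if a i = g then 1 else 0 := by
  classical
  have hψ : ∀ i : Fin M, ∃ ψ : Wd κ → Wd κ, (∀ x, hammingDist (ψ x) x ≤ 1) ∧
      ∀ g, (∑ x, if ψ x = g then 1 else 0) + (if i ∈ R ∧ 0 = g then 1 else 0)
      = 1 + (if i ∈ R ∧ p i - a i = g then 1 else 0) := by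
    intro i
    by_cases hi : i ∈ R
    · obtain ⟨ψ, h1, h2⟩ := exists_shift (p i - a i)
      refine ⟨ψ, h1, fun g => ?_⟩
      simpa [hi] using h2 g
    · refine ⟨id, fun x => by simp, fun g => ?_⟩
      simp [hi]
  choose ψ h1 h2 using hψ
  refine ⟨∑ x, cnt (fun i => ψ i x + a i), ?_, ?_⟩
  · apply AddSubmonoid.sum_mem
    intro x _
    apply cnt_mem_Til
    intro i j hij
    have t1 : hammingDist (a i) (a j) = hammingDist (x + a i) (x + a j) :=
      (hammingDist_add_left' _ _ _).symm
    have t2 : hammingDist (x + a i) (x + a j) ≤ hammingDist (x + a i) (ψ i x + a i)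
        + hammingDist (ψ i x + a i) (x + a j) := hammingDist_triangle _ _ _
    have t3 : hammingDist (ψ i x + a i) (x + a j) ≤ hammingDist (ψ i x + a i) (ψ j x + a j)
        + hammingDist (ψ j x + a j) (x + a j) := hammingDist_triangle _ _ _
    have t4 := h1 i x
    have t5 := h1 j x
    rw [hammingDist_add_right'] at t2
    rw [hammingDist_add_right' (a j)] at t3
    rw [hammingDist_comm] at t4
    have := ha i j hij
    show D ≤ hammingDist (ψ i x + a i) (ψ j x + a j)
    omega
  · intro g
    rw [Finset.sum_apply]
    have e1 : (∑ x : Wd κ, cnt (fun i => ψ i x + a i) g)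
        = ∑ i : Fin M, ∑ x : Wd κ, if ψ i x = g - a i then 1 else 0 := by
      unfold cnt
      rw [sum_comm]
      apply sum_congr rfl
      intro i _
      apply sum_congr rfl
      intro x _
      have : (ψ i x + a i = g) ↔ (ψ i x = g - a i) :=
        ⟨fun h => by rw [← h]; exact (add_sub_cancel_right _ _).symm,
          fun h => by rw [h]; exact sub_add_cancel _ _⟩
      simp only [this]
    rw [e1]
    have e2 : (∑ i : Fin M, ((∑ x : Wd κ, if ψ i x = g - a i then 1 else 0)
          + (if i ∈ R ∧ 0 = g - a i then 1 else 0)))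
        = ∑ i : Fin M, (1 + (if i ∈ R ∧ p i - a i = g - a i then 1 else 0)) := by
      apply sum_congr rfl
      intro i _
      exact h2 i (g - a i)
    rw [sum_add_distrib, sum_add_distrib] at e2
    have e3 : (∑ i : Fin M, if i ∈ R ∧ 0 = g - a i then 1 else 0)
        = ∑ i ∈ R, if a i = g then 1 else 0 := by
      rw [← Finset.sum_filter_add_sum_filter_not univ (fun i => i ∈ R)]
      have z : (∑ i ∈ univ.filter (fun i => i ∉ R), if i ∈ R ∧ 0 = g - a i then 1 else 0) = 0 := by
        apply sum_eq_zero
        intro i hi
        simp only [mem_filter, mem_univ, true_and] at hi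
        simp [hi]
      rw [z, add_zero]
      have hR : univ.filter (fun i => i ∈ R) = R := by ext; simp
      rw [hR]
      apply sum_congr rfl
      intro i hi
      have : (i ∈ R ∧ 0 = g - a i) ↔ a i = g := by
        constructor
        · rintro ⟨_, h⟩
          exact (sub_eq_zero.mp h.symm).symm
        · intro h
          exact ⟨hi, by rw [h, sub_self]⟩
      simp only [this]
    have e4 : (∑ i : Fin M, if i ∈ R ∧ p i - a i = g - a i then 1 else 0)
        = ∑ i ∈ R, if p i = g then 1 else 0 := by
      rw [← Finset.sum_filter_add_sum_filter_not univ (fun i => i ∈ R)]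
      have z : (∑ i ∈ univ.filter (fun i => i ∉ R),
          if i ∈ R ∧ p i - a i = g - a i then 1 else 0) = 0 := by
        apply sum_eq_zero
        intro i hi
        simp only [mem_filter, mem_univ, true_and] at hi
        simp [hi]
      rw [z, add_zero]
      have hR : univ.filter (fun i => i ∈ R) = R := by ext; simp
      rw [hR]
      apply sum_congr rfl
      intro i hi
      have : (i ∈ R ∧ p i - a i = g - a i) ↔ p i = g := by
        constructor
        · rintro ⟨_, h⟩
          exact sub_left_injective h
        · intro h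
          exact ⟨hi, by rw [h]⟩
      simp only [this]
    rw [e3, e4] at e2
    simp only [sum_const, card_univ, Fintype.card_fin, smul_eq_mul, mul_one] at e2
    omega

/-- Whole-cube translates. -/
lemma const_mem_Til {D M : ℕ} {a : Fin M → Wd κ} (ha : Sep (D + 2) a) :
    (fun _ => M : Wd κ → ℕ) ∈ Til κ D M := by
  obtain ⟨τ, hτ, h⟩ := transport ha ∅ a
  have : (fun _ => M : Wd κ → ℕ) = τ := by
    ext g
    simpa using h g
  rw [this]
  exact hτ

end

end MP7d5fe8
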