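import Pool.Agent.Work.MP_7d5fe8_co.Lower

/-! On the critical line the number of colours exceeds the counting bound. -/

open Finset

namespace MP7d5fe8

set_option linter.unusedSectionVars false

/-- The sign of a coordinate. -/
def sg {n : ℕ} (j : Fin n) (x : Finset (Fin n)) : ℤ := if j ∈ x then -1 else 1

lemma sg_mul {n : ℕ} (x y : Finset (Fin n)) :
    ∑ j, sg j x * sg j y = (n : ℤ) - 2 * (symmDiff x y).card := by
  have h1 : ∀ j, sg j x * sg j y = 1 - 2 * (if j ∈ symmDiff x y then 1 else 0) := by
    intro j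
    unfold sg
    by_cases hx : j ∈ x <;> by_cases hy : j ∈ y <;> simp [hx, hy, mem_symmDiff]
  rw [sum_congr rfl (fun j _ => h1 j), sum_sub_distrib, ← mul_sum, sum_ite_mem, univ_inter]
  simp

lemma gram {n : ℕ} (F G : Finset (Finset (Fin n))) :
    ∑ x ∈ F, ∑ y ∈ G, ((n : ℤ) - 2 * (symmDiff x y).card)
      = ∑ j, (∑ x ∈ F, sg j x) * (∑ y ∈ G, sg j y) := by
  simp only [← sg_mul, sum_mul_sum]
  rw [sum_comm]
  have : ∀ y ∈ G, (∑ x ∈ F, ∑ j, sg j x * sg j y) = ∑ j, ∑ x ∈ F, sg j x * sg j y :=
    fun y _ => sum_comm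
  rw [sum_congr rfl this, sum_comm]
  apply sum_congr rfl
  intro j _
  rw [sum_comm]

lemma parity_symmDiff {n : ℕ} (x y : Finset (Fin n)) :
    (symmDiff x y).card % 2 = (x.card + y.card) % 2 := by
  have e1 : (symmDiff x y).card = (x \ y).card + (y \ x).card := by
    rw [symmDiff_def, sup_eq_union, card_union_of_disjoint]
    exact disjoint_sdiff_sdiff
  have e2 := card_sdiff_add_card_inter x y
  have e3 := card_sdiff_add_card_inter y x
  rw [inter_comm] at e3
  omega

/-- Codes on the critical line are equidistant if they are large. -/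
lemma rigid {n m t k : ℕ} (hn : n = 2 * (2 * m - 1) * t) (hm : 1 ≤ m)
    (F : Finset (Finset (Fin n))) (hk : F.card = k)
    (h : ∀ x ∈ F, ∀ y ∈ F, x ≠ y → 2 * m * t ≤ (symmDiff x y).card)
    (hlow : 2 * (k : ℤ) * t * (2 * m - k) ≤ ∑ j, (∑ x ∈ F, sg j x) * (∑ y ∈ F, sg j y)) :
    ∀ x ∈ F, ∀ y ∈ F, x ≠ y → (symmDiff x y).card = 2 * m * t := by
  classical
  have hnz : (n : ℤ) = 2 * (2 * m - 1) * t := by
    rw [hn]
    push_cast [Nat.cast_sub (show 1 ≤ 2 * m by omega)]
    ring
  rw [← gram] at hlow
  have hle : ∀ x ∈ F, ∀ y ∈ F, ((n : ℤ) - 2 * (symmDiff x y).card)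
      ≤ if x = y then (n : ℤ) else -(2 * t) := by
    intro x hx y hy
    split
    · next hxy =>
      subst hxy
      simp
    · next hxy =>
      have := h x hx y hy hxy
      have h2 : ((2 * m * t : ℕ) : ℤ) ≤ (symmDiff x y).card := by exact_mod_cast this
      push_cast at h2
      rw [hnz]
      linarith
  have hsum : ∑ x ∈ F, ∑ y ∈ F, (if x = y then (n : ℤ) else -(2 * t))
      = 2 * (k : ℤ) * t * (2 * m - k) := by
    have h3 : ∀ x ∈ F, ∑ y ∈ F, (if x = y then (n : ℤ) else -(2 * t))
        = n + ((k : ℤ) - 1) * -(2 * t) := by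
      intro x hx
      rw [← Finset.add_sum_erase F _ hx, if_pos rfl]
      have h4 : ∀ y ∈ F.erase x, (if x = y then (n : ℤ) else -(2 * t)) = -(2 * t) := by
        intro y hy
        rw [if_neg (ne_of_mem_erase hy).symm]
      rw [sum_congr rfl h4, sum_const, card_erase_of_mem hx, hk, nsmul_eq_mul]
      have : 1 ≤ k := by
        rw [← hk]
        exact card_pos.mpr ⟨x, hx⟩
      push_cast [Nat.cast_sub this]
      ring
    rw [sum_congr rfl h3, sum_const, hk, nsmul_eq_mul, hnz]
    ring
  have heq : ∑ x ∈ F, ∑ y ∈ F, ((n : ℤ) - 2 * (symmDiff x y).card)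
      = ∑ x ∈ F, ∑ y ∈ F, (if x = y then (n : ℤ) else -(2 * t)) := by
    apply le_antisymm
    · exact sum_le_sum fun x hx => sum_le_sum fun y hy => hle x hx y hy
    · rw [hsum]
      exact hlow
  intro x hx y hy hxy
  have h5 := (Finset.sum_eq_sum_iff_of_le (fun x hx => sum_le_sum fun y hy => hle x hx y hy)).mp
    heq x hx
  have h6 := (Finset.sum_eq_sum_iff_of_le (fun y hy => hle x hx y hy)).mp h5 y hy
  rw [if_neg hxy, hnz] at h6
  have : ((symmDiff x y).card : ℤ) = ((2 * m * t : ℕ) : ℤ) := by
    push_cast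
    linarith
  exact_mod_cast this

/-- A full class is balanced. -/
lemma balanced {n m t : ℕ} (hn : n = 2 * (2 * m - 1) * t) (hm : 1 ≤ m)
    (F : Finset (Finset (Fin n))) (hk : F.card = 2 * m)
    (h : ∀ x ∈ F, ∀ y ∈ F, x ≠ y → 2 * m * t ≤ (symmDiff x y).card) :
    (∀ j, ∑ x ∈ F, sg j x = 0) ∧
      ∀ x ∈ F, ∀ y ∈ F, x ≠ y → (symmDiff x y).card = 2 * m * t := by
  classical
  have hnn : ∀ j : Fin n, 0 ≤ (∑ x ∈ F, sg j x) * (∑ y ∈ F, sg j y) := fun j => mul_self_nonneg _
  have hr := rigid hn hm F hk h (by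
    push_cast
    rw [sub_self, mul_zero]
    exact sum_nonneg fun j _ => hnn j)
  refine ⟨?_, hr⟩
  have hnz : (n : ℤ) = 2 * (2 * m - 1) * t := by
    rw [hn]
    push_cast [Nat.cast_sub (show 1 ≤ 2 * m by omega)]
    ring
  have h0 : ∑ j, (∑ x ∈ F, sg j x) * (∑ y ∈ F, sg j y) = 0 := by
    rw [← gram]
    have h3 : ∀ x ∈ F, ∑ y ∈ F, ((n : ℤ) - 2 * (symmDiff x y).card) = 0 := by
      intro x hx
      rw [← Finset.add_sum_erase F _ hx, symmDiff_self]
      have h4 : ∀ y ∈ F.erase x, ((n : ℤ) - 2 * (symmDiff x y).card) = -(2 * t) := by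
        intro y hy
        rw [hr x hx y (mem_of_mem_erase hy) (ne_of_mem_erase hy).symm, hnz]
        push_cast
        ring
      rw [sum_congr rfl h4, sum_const, card_erase_of_mem hx, hk, nsmul_eq_mul, hnz]
      push_cast [Nat.cast_sub (show 1 ≤ 2 * m by omega)]
      simp
      ring
    rw [sum_congr rfl h3, sum_const_zero]
  intro j
  have := (Finset.sum_eq_zero_iff_of_nonneg (fun j _ => hnn j)).mp h0 j (mem_univ j)
  exact mul_self_eq_zero.mp this

lemma odd_sum_sg {n : ℕ} (j : Fin n) (F : Finset (Finset (Fin n))) :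
    (∑ x ∈ F, sg j x) % 2 = (F.card : ℤ) % 2 := by
  classical
  induction F using Finset.induction_on with
  | empty => simp
  | insert a F ha ih =>
    rw [sum_insert ha, card_insert_of_notMem ha]
    have : sg j a = 1 ∨ sg j a = -1 := by
      unfold sg
      split
      · right; rfl
      · left; rfl
    push_cast
    rcases this with h | h <;> rw [h] <;> omega

/-- A class with one word less is equidistant. -/
lemma rigid' {n m t : ℕ} (hn : n = 2 * (2 * m - 1) * t) (hm : 1 ≤ m)
    (F : Finset (Finset (Fin n))) (hk : F.card = 2 * m - 1)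
    (h : ∀ x ∈ F, ∀ y ∈ F, x ≠ y → 2 * m * t ≤ (symmDiff x y).card) :
    ∀ x ∈ F, ∀ y ∈ F, x ≠ y → (symmDiff x y).card = 2 * m * t := by
  apply rigid hn hm F hk h
  have hnz : (n : ℤ) = 2 * (2 * m - 1) * t := by
    rw [hn]
    push_cast [Nat.cast_sub (show 1 ≤ 2 * m by omega)]
    ring
  have h1 : ∀ j : Fin n, 1 ≤ (∑ x ∈ F, sg j x) * (∑ y ∈ F, sg j y) := by
    intro j
    have h2 := odd_sum_sg j F
    rw [hk, Nat.cast_sub (show 1 ≤ 2 * m by omega)] at h2
    push_cast at h2
    have h3 : (∑ x ∈ F, sg j x) ≠ 0 := by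
      intro h4
      rw [h4] at h2
      omega
    have h5 : 0 < (∑ x ∈ F, sg j x) * (∑ y ∈ F, sg j y) := by
      rw [← sq]
      exact sq_pos_of_ne_zero h3
    omega
  calc 2 * ((2 * m - 1 : ℕ) : ℤ) * t * (2 * m - ((2 * m - 1 : ℕ) : ℤ)) = n := by
        rw [Nat.cast_sub (show 1 ≤ 2 * m by omega), hnz]
        push_cast
        ring
    _ = ∑ _j : Fin n, (1 : ℤ) := by simp
    _ ≤ _ := sum_le_sum fun j _ => h1 j

/-- The signs of the words of one parity cancel. -/
lemma sum_sg_parity {n : ℕ} (hn : 2 ≤ n) (j : Fin n) (r : ℕ) :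
    ∑ x ∈ (univ : Finset (Finset (Fin n))).filter (fun x => x.card % 2 = r), sg j x = 0 := by
  classical
  obtain ⟨i, hi⟩ : ∃ i : Fin n, i ≠ j := by
    by_cases h : j.1 = 0
    · exact ⟨⟨1, by omega⟩, fun hh => by rw [← hh] at h; simp at h⟩
    · exact ⟨⟨0, by omega⟩, fun hh => by rw [← hh] at h; simp at h⟩
  have hcard : ∀ x : Finset (Fin n), (symmDiff x {i, j}).card % 2 = x.card % 2 := by
    intro x
    rw [parity_symmDiff, card_pair hi]
    omega
  refine Finset.sum_involution (fun x _ => symmDiff x {i, j}) ?_ ?_ ?_ ?_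
  · intro x _
    unfold sg
    by_cases hx : j ∈ x <;> simp [hx, mem_symmDiff]
  · intro x _ _ h
    have h2 : ({i, j} : Finset (Fin n)) = ∅ := symmDiff_eq_left.mp h
    exact absurd h2 (insert_ne_empty _ _)
  · intro x hx
    rw [mem_filter] at hx ⊢
    exact ⟨mem_univ _, by rw [hcard, hx.2]⟩
  · intro x _
    exact symmDiff_symmDiff_cancel_right _ _

/-- Half of the words have even weight. -/
lemma card_parity {n : ℕ} (hn : 1 ≤ n) (r : ℕ) (hr : r < 2) :
    2 * ((univ : Finset (Finset (Fin n))).filter (fun x => x.card % 2 = r)).card = 2 ^ n := by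
  classical
  have hc : ∀ x : Finset (Fin n), (symmDiff x {(⟨0, hn⟩ : Fin n)}).card % 2
      = (x.card + 1) % 2 := by
    intro x
    rw [parity_symmDiff, card_singleton]
  have h1 : ((univ : Finset (Finset (Fin n))).filter (fun x => x.card % 2 = r)).card
      = ((univ : Finset (Finset (Fin n))).filter (fun x => ¬ x.card % 2 = r)).card := by
    refine Finset.card_bij' (fun x _ => symmDiff x {⟨0, hn⟩}) (fun x _ => symmDiff x {⟨0, hn⟩})
      ?_ ?_ ?_ ?_
    · intro x hx
      rw [mem_filter] at hx ⊢
      refine ⟨mem_univ _, ?_⟩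
      rw [hc]
      omega
    · intro x hx
      rw [mem_filter] at hx ⊢
      refine ⟨mem_univ _, ?_⟩
      rw [hc]
      omega
    · intro x _
      exact symmDiff_symmDiff_cancel_right _ _
    · intro x _
      exact symmDiff_symmDiff_cancel_right _ _
  have h2 := Finset.card_filter_add_card_filter_not (s := (univ : Finset (Finset (Fin n))))
    (fun x => x.card % 2 = r)
  rw [← h1, card_univ, Fintype.card_finset, Fintype.card_fin] at h2
  omega

/-- The lower bound on the critical line. -/
theorem crit_lower {n m t c : ℕ} (hn : n = 2 * (2 * m - 1) * t) (hm : Odd m) (hm3 : 3 ≤ m)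
    (ht : 1 ≤ t) (hmod : m ∣ 2 ^ (n - 1) + 1)
    (hcol : (QPow n (2 * m * t - 1)).Colorable c) : 2 ^ n + 2 < 2 * m * c := by
  classical
  have hn2 : 2 ≤ n := by
    rw [hn]
    nlinarith [show 5 ≤ 2 * m - 1 by omega]
  have hmt : 1 ≤ 2 * m * t := by nlinarith
  have hpow : 2 ^ n = 2 * 2 ^ (n - 1) := by
    rw [← pow_succ']
    congr 1
    omega
  have hpow2 : 2 ∣ 2 ^ (n - 1) := dvd_pow_self 2 (by omega)
  have hlow : 2 ^ n ≤ 2 * m * c := by
    apply lower (by omega) _ hcol
    left
    rw [Nat.sub_add_cancel hmt, hn]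
    obtain ⟨k, rfl⟩ : ∃ k, m = k + 1 := ⟨m - 1, by omega⟩
    rw [show 2 * (k + 1) - 1 = 2 * k + 1 by omega]
    nlinarith
  by_contra hcon
  rw [not_lt] at hcon
  -- the number of colours
  have hc2 : 2 * m * c = 2 ^ n + 2 := by
    obtain ⟨q, hq⟩ := hmod
    have h1 : 2 ^ n + 2 = 2 * m * q := by
      rw [hpow]
      calc 2 * 2 ^ (n - 1) + 2 = 2 * (2 ^ (n - 1) + 1) := by ring
        _ = 2 * m * q := by rw [hq]; ring
    rw [h1] at hcon ⊢
    have hcq : c ≤ q := Nat.le_of_mul_le_mul_left hcon (by omega)
    by_contra hne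
    have hlt : c < q := by
      rcases hcq.lt_or_eq with h | h
      · exact h
      · exact absurd (by rw [h]) hne
    have h2 : 2 * m * (c + 1) ≤ 2 * m * q := Nat.mul_le_mul_left _ hlt
    have h3 : 2 * m * (c + 1) = 2 * m * c + 2 * m := by ring
    omega
  obtain ⟨C⟩ := hcol
  let F : Fin c → Finset (Finset (Fin n)) := fun k => univ.filter (fun x => C x = k)
  have hF : ∀ k x, x ∈ F k ↔ C x = k := by
    intro k x
    simp [F]
  have hdist : ∀ k, ∀ x ∈ F k, ∀ y ∈ F k, x ≠ y → 2 * m * t ≤ (symmDiff x y).card := by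
    intro k x hx y hy hxy
    by_contra hlt
    rw [not_le] at hlt
    have hadj : (QPow n (2 * m * t - 1)).Adj x y := by
      refine ⟨?_, by omega⟩
      rw [Nat.one_le_iff_ne_zero, Ne, card_eq_zero]
      intro h0
      exact hxy (symmDiff_eq_bot.mp h0)
    rw [hF] at hx hy
    exact C.valid hadj (hx.trans hy.symm)
  have hcard : ∀ k, (F k).card ≤ 2 * m := by
    intro k
    by_contra hlt
    rw [not_le] at hlt
    obtain ⟨𝒜, hA, hAc⟩ := Finset.exists_subset_card_eq (n := 2 * m + 1) hlt
    have := plotkin 𝒜 hAc (by omega) (fun x hx y hy => hdist k x (hA hx) y (hA hy))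
    rw [hn] at this
    obtain ⟨l, rfl⟩ : ∃ l, m = l + 1 := ⟨m - 1, by omega⟩
    rw [show 2 * (l + 1) - 1 = 2 * l + 1 by omega] at this
    nlinarith
  -- sums over all classes
  have hfib : ∀ f : Finset (Fin n) → ℤ, ∀ r : ℕ, (∑ k, ∑ x ∈ (F k).filter (fun x => x.card % 2 = r),
      f x) = ∑ x ∈ univ.filter (fun x => x.card % 2 = r), f x := by
    intro f r
    rw [← Finset.sum_fiberwise (univ.filter (fun x : Finset (Fin n) => x.card % 2 = r)) C f]
    apply sum_congr rfl
    intro k _
    apply sum_congr _ (fun _ _ => rfl)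
    ext x
    simp only [F, mem_filter, mem_univ, true_and]
    tauto
  have hsplit : ∀ k, ((F k).filter (fun x => x.card % 2 = 0)).card
      + ((F k).filter (fun x => x.card % 2 = 1)).card = (F k).card := by
    intro k
    rw [← Finset.card_filter_add_card_filter_not (s := F k) (fun x => x.card % 2 = 0)]
    congr 2
    ext x
    simp only [mem_filter]
    constructor
    · rintro ⟨h1, h2⟩
      exact ⟨h1, by omega⟩
    · rintro ⟨h1, h2⟩
      exact ⟨h1, by omega⟩
  have htot : ∀ r < 2, ∑ k, ((F k).filter (fun x => x.card % 2 = r)).card = 2 ^ (n - 1) := by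
    intro r hr
    have h1 := hfib (fun _ => 1) r
    simp only [sum_const, nsmul_eq_mul, mul_one] at h1
    have h2 := card_parity (show 1 ≤ n by omega) r hr
    rw [hpow] at h2
    have h3 : ((univ : Finset (Finset (Fin n))).filter (fun x => x.card % 2 = r)).card
        = 2 ^ (n - 1) := by omega
    rw [h3] at h1
    exact_mod_cast h1
  have hdef : ∑ k, (2 * m - (F k).card) = 2 := by
    have h1 : ∑ k, ((2 * m - (F k).card) + (F k).card) = 2 * m * c := by
      rw [sum_congr rfl (fun k _ => Nat.sub_add_cancel (hcard k)), sum_const, card_univ,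
        Fintype.card_fin, smul_eq_mul, mul_comm]
    rw [sum_add_distrib] at h1
    have h2 : ∑ k, (F k).card = 2 ^ n := by
      have h3 := htot 0 (by norm_num)
      have h4 := htot 1 (by norm_num)
      rw [hpow, ← sum_congr rfl (fun k _ => hsplit k), sum_add_distrib, h3, h4]
      ring
    omega
  -- large classes have only one parity
  have hpure : ∀ k, 2 * m - 1 ≤ (F k).card → ∀ r,
      ((F k).filter (fun x => x.card % 2 = r)).card = 0 ∨
      ((F k).filter (fun x => x.card % 2 = r)).card = (F k).card := by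
    intro k hk r
    have h1 : ∀ x ∈ F k, ∀ y ∈ F k, x.card % 2 = y.card % 2 := by
      intro x hx y hy
      by_cases hxy : x = y
      · rw [hxy]
      have h2 : (symmDiff x y).card = 2 * m * t := by
        have := hcard k
        rcases (show (F k).card = 2 * m ∨ (F k).card = 2 * m - 1 by omega) with h | h
        · exact (balanced hn (by omega) _ h (hdist k)).2 x hx y hy hxy
        · exact rigid' hn (by omega) _ h (hdist k) x hx y hy hxy
      have h3 := parity_symmDiff x y
      rw [h2, mul_assoc, Nat.mul_mod_right] at h3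
      omega
    by_cases h : ∃ x ∈ F k, x.card % 2 = r
    · obtain ⟨x, hx, hxr⟩ := h
      right
      congr 1
      apply filter_true_of_mem
      intro y hy
      rw [← h1 x hx y hy, hxr]
    · left
      rw [card_eq_zero, filter_eq_empty_iff]
      intro x hx hxr
      exact h ⟨x, hx, hxr⟩
  by_cases hcase : ∃ k, 2 ≤ 2 * m - (F k).card
  · -- one class with two words less
    obtain ⟨k, hk⟩ := hcase
    rw [← Finset.add_sum_erase univ _ (mem_univ k)] at hdef
    have hrest : ∀ l, l ≠ k → (F l).card = 2 * m := by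
      intro l hl
      have h1 : 2 * m - (F l).card ≤ ∑ l ∈ univ.erase k, (2 * m - (F l).card) :=
        Finset.single_le_sum (f := fun l => 2 * m - (F l).card) (fun _ _ => Nat.zero_le _)
          (mem_erase.mpr ⟨hl, mem_univ _⟩)
      have := hcard l
      omega
    have hFk : (F k).card = 2 * m - 2 := by
      have := hcard k
      omega
    -- the two parts of the class
    have hpart : ∀ r < 2, ((F k).filter (fun x => x.card % 2 = r)).card = m - 1 := by
      intro r hr
      have h1 := htot r hr
      rw [← Finset.add_sum_erase univ _ (mem_univ k)] at h1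
      have h2 : 2 * m ∣ ∑ l ∈ univ.erase k, ((F l).filter (fun x => x.card % 2 = r)).card := by
        apply Finset.dvd_sum
        intro l hl
        have h3 := hrest l (ne_of_mem_erase hl)
        rcases hpure l (by omega) r with h | h
        · rw [h]
          exact dvd_zero _
        · rw [h, h3]
      have h4 : ((F k).filter (fun x => x.card % 2 = r)).card ≤ 2 * m - 2 := by
        rw [← hFk]
        exact card_filter_le _ _
      have h5 : m ∣ ((F k).filter (fun x => x.card % 2 = r)).card + 1 := by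
        have h6 : m ∣ ∑ l ∈ univ.erase k, ((F l).filter (fun x => x.card % 2 = r)).card :=
          dvd_trans (dvd_mul_left m 2) h2
        rw [← h1] at hmod
        have h7 : ((F k).filter (fun x => x.card % 2 = r)).card
            + (∑ l ∈ univ.erase k, ((F l).filter (fun x => x.card % 2 = r)).card) + 1
            = (((F k).filter (fun x => x.card % 2 = r)).card + 1)
            + ∑ l ∈ univ.erase k, ((F l).filter (fun x => x.card % 2 = r)).card := by ring
        rw [h7] at hmod
        exact (Nat.dvd_add_left h6).mp hmod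
      obtain ⟨q, hq⟩ := h5
      have hq1 : q = 1 := by
        rcases q with _ | _ | q
        · omega
        · rfl
        · exfalso
          have : m * (q + 1 + 1) = m * q + 2 * m := by ring
          have : 0 ≤ m * q := Nat.zero_le _
          omega
      subst hq1
      omega
    have hbal : ∀ r < 2, ∀ j, ∑ x ∈ (F k).filter (fun x => x.card % 2 = r), sg j x = 0 := by
      intro r _ j
      have h1 := hfib (sg j) r
      rw [sum_sg_parity hn2, ← Finset.add_sum_erase univ _ (mem_univ k)] at h1
      have h2 : ∑ l ∈ univ.erase k, ∑ x ∈ (F l).filter (fun x => x.card % 2 = r), sg j x = 0 := by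
        apply sum_eq_zero
        intro l hl
        have h3 := hrest l (ne_of_mem_erase hl)
        rcases hpure l (by omega) r with h | h
        · rw [card_eq_zero.mp h, sum_empty]
        · rw [Finset.eq_of_subset_of_card_le (filter_subset _ _) (by rw [h])]
          exact (balanced hn (by omega) _ h3 (hdist l)).1 j
      rw [h2, add_zero] at h1
      exact h1
    have hg := gram ((F k).filter (fun x => x.card % 2 = 0)) ((F k).filter (fun x => x.card % 2 = 1))
    have hzero : ∑ j, (∑ x ∈ (F k).filter (fun x => x.card % 2 = 0), sg j x)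
        * (∑ y ∈ (F k).filter (fun x => x.card % 2 = 1), sg j y) = 0 := by
      apply sum_eq_zero
      intro j _
      rw [hbal 0 (by norm_num) j, zero_mul]
    rw [hzero] at hg
    have hne0 : ((F k).filter (fun x => x.card % 2 = 0)).Nonempty := by
      rw [← card_pos, hpart 0 (by norm_num)]
      omega
    have hne1 : ((F k).filter (fun x => x.card % 2 = 1)).Nonempty := by
      rw [← card_pos, hpart 1 (by norm_num)]
      omega
    have hneg : ∑ x ∈ (F k).filter (fun x => x.card % 2 = 0),
        ∑ y ∈ (F k).filter (fun x => x.card % 2 = 1), ((n : ℤ) - 2 * (symmDiff x y).card) < 0 := by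
      apply Finset.sum_neg _ hne0
      intro x hx
      apply Finset.sum_neg _ hne1
      intro y hy
      rw [mem_filter] at hx hy
      have hxy : x ≠ y := by
        rintro rfl
        omega
      have h1 := hdist k x hx.1 y hy.1 hxy
      have h2 : ((2 * m * t : ℕ) : ℤ) ≤ (symmDiff x y).card := by exact_mod_cast h1
      have hnz : (n : ℤ) = 2 * (2 * m - 1) * t := by
        rw [hn]
        push_cast [Nat.cast_sub (show 1 ≤ 2 * m by omega)]
        ring
      have ht' : (1 : ℤ) ≤ t := by exact_mod_cast ht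
      push_cast at h2
      rw [hnz]
      linarith
    omega
  · -- all classes are large
    push Not at hcase
    have hbig : ∀ k, 2 * m - 1 ≤ (F k).card := by
      intro k
      have := hcase k
      omega
    have h0 := htot 0 (by norm_num)
    -- the deficiency of the even classes
    let S := univ.filter (fun k => ((F k).filter (fun x => x.card % 2 = 0)).card ≠ 0)
    have h1 : ∑ k, ((F k).filter (fun x => x.card % 2 = 0)).card = ∑ k ∈ S, (F k).card := by
      rw [Finset.sum_filter]
      apply sum_congr rfl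
      intro k _
      split
      · next h =>
        rcases hpure k (hbig k) 0 with h' | h'
        · exact absurd h' h
        · exact h'
      · next h =>
        rw [not_not] at h
        exact h
    have h2 : ∑ k ∈ S, (2 * m - (F k).card) + ∑ k ∈ S, (F k).card = 2 * m * S.card := by
      rw [← sum_add_distrib, sum_congr rfl (fun k _ => Nat.sub_add_cancel (hcard k)), sum_const,
        smul_eq_mul, mul_comm]
    have h3 : ∑ k ∈ S, (2 * m - (F k).card) ≤ 2 :=
      (Finset.sum_le_sum_of_subset (subset_univ S)).trans hdef.le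
    rw [← h1, h0] at h2
    generalize ∑ k ∈ S, (2 * m - (F k).card) = i at h2 h3
    have h4 : m ∣ i + 2 ^ (n - 1) := by
      rw [h2]
      exact dvd_mul_of_dvd_left (dvd_mul_left m 2) _
    have h5 : 2 ∣ i := by
      have : 2 ∣ i + 2 ^ (n - 1) := by
        rw [h2, mul_assoc]
        exact dvd_mul_right _ _
      exact (Nat.dvd_add_left hpow2).mp this
    obtain ⟨q, hq⟩ := hmod
    obtain ⟨q', hq'⟩ := h4
    rcases (show i = 0 ∨ i = 2 by omega) with hi | hi
    · subst hi
      have : m ∣ 1 := by
        rw [← Nat.dvd_add_right (show m ∣ 2 ^ (n - 1) from ⟨q', by omega⟩)]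
        exact ⟨q, hq⟩
      have := Nat.le_of_dvd (by norm_num) this
      omega
    · subst hi
      have h6 : m ∣ 1 := by
        rw [← Nat.dvd_add_right (show m ∣ 2 ^ (n - 1) + 1 from ⟨q, hq⟩)]
        exact ⟨q', by omega⟩
      have := Nat.le_of_dvd (by norm_num) h6
      omega

end MP7d5fe8
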