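import Pool.Agent.Work.MP_7d5fe8_co.CritStep
import Pool.Agent.Work.MP_7d5fe8_co.Colour

/-! The group of all words of even weight is tiled. -/

open Finset

namespace MP7d5fe8

set_option linter.unusedSectionVars false

section
variable {κ : Type} [Fintype κ] [DecidableEq κ]

lemma ed_self (p : κ) : ed p p = 0 := add_self' _

lemma ed_comm (p q : κ) : ed p q = ed q p := add_comm _ _

lemma ed_trans (p q r : κ) : ed p q + ed q r = ed p r := by
  unfold ed
  have : (Pi.single p 1 + Pi.single q 1 + (Pi.single q 1 + Pi.single r 1) : Wd κ)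
      = Pi.single p 1 + Pi.single r 1 + (Pi.single q 1 + Pi.single q 1) := by abel
  rw [this, add_self', add_zero]

/-- The class of a unit word modulo a group. -/
def cl (H : AddSubgroup (Wd κ)) (x : κ) : Wd κ ⧸ H := QuotientAddGroup.mk (Pi.single x 1)

lemma cl_eq_iff {H : AddSubgroup (Wd κ)} {x y : κ} : cl H x = cl H y ↔ ed x y ∈ H := by
  unfold cl
  rw [QuotientAddGroup.eq, neg_eq_self']
  rfl

lemma q_add_self {H : AddSubgroup (Wd κ)} (a : Wd κ ⧸ H) : a + a = 0 := by
  induction a using QuotientAddGroup.induction_on with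
  | H g =>
    rw [← QuotientAddGroup.mk_add, add_self']
    rfl

lemma EV_le {H : AddSubgroup (Wd κ)} (x0 : κ) (h : ∀ x, ed x x0 ∈ H) : EV κ ≤ H := by
  intro g hg
  rw [mem_EV] at hg
  have e : g = ∑ x, (if g x = 1 then ed x x0 else 0) := by
    have h2 : ∀ x, (if g x = 1 then ed x x0 else 0) = g x • ed x x0 := by
      intro x
      have h3 : ∀ a : ZMod 2, a = 0 ∨ a = 1 := by decide
      rcases h3 (g x) with h4 | h4
      · rw [h4, zero_smul, if_neg]
        decide
      · rw [h4, one_smul, if_pos rfl]
    rw [sum_congr rfl (fun x _ => h2 x)]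
    simp only [ed, smul_add, sum_add_distrib]
    rw [← Finset.sum_smul, hg, zero_smul, add_zero]
    ext y
    rw [Finset.sum_apply, Finset.sum_eq_single y]
    · simp
    · intro z _ hz
      simp [Pi.single_apply, hz.symm]
    · intro hy
      exact absurd (mem_univ _) hy
  rw [e]
  apply H.sum_mem
  intro x _
  split
  · exact h x
  · exact H.zero_mem

lemma block_sum {τ : κ → Fin 10} {H : AddSubgroup (Wd κ)} (hV : V0 τ ≤ H) (i j : Fin 10) :
    ∑ x ∈ univ.filter (fun x => τ x = i), cl H x = ∑ x ∈ univ.filter (fun x => τ x = j), cl H x := by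
  have h1 : ∀ i, ∑ x ∈ univ.filter (fun x => τ x = i), cl H x
      = QuotientAddGroup.mk (s := H) (beta τ (Pi.single i 1)) := by
    intro i
    have e : beta τ (Pi.single i 1) = ∑ x ∈ univ.filter (fun x => τ x = i), (Pi.single x 1) := by
      ext y
      rw [Finset.sum_apply]
      show (Pi.single i 1 : Wd (Fin 10)) (τ y) = _
      rw [Pi.single_apply]
      by_cases hy : τ y = i
      · rw [if_pos hy, Finset.sum_eq_single y]
        · simp
        · intro z _ hz
          simp [Pi.single_apply, hz.symm]
        · intro hn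
          exact absurd (show y ∈ univ.filter (fun x => τ x = i) from
            mem_filter.mpr ⟨mem_univ _, hy⟩) hn
      · rw [if_neg hy]
        symm
        apply sum_eq_zero
        intro z hz
        rw [Pi.single_apply, if_neg]
        rintro rfl
        exact hy (mem_filter.mp hz).2
    rw [e]
    unfold cl
    rw [← QuotientAddGroup.mk_sum]
  rw [h1, h1, QuotientAddGroup.eq, neg_eq_self', ← map_add]
  apply hV
  refine ⟨_, ?_, rfl⟩
  simp only [Pi.add_apply, sum_add_distrib, Pi.single_apply, sum_ite_eq', mem_univ, if_true]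
  decide

/-- The structure of a group which cannot be enlarged. -/
def Stuck (τ : κ → Fin 10) (W : AddSubgroup (Wd κ)) : Prop :=
  ∀ p q p' q' : κ, τ p ≠ τ q → τ p' ≠ τ q' → p ≠ p' → p ≠ q' → q ≠ p' → q ≠ q' →
    dsj (tx (τ p) (τ q)) (tx (τ p') (τ q')) = true →
    ed p q ∈ W ∨ ed p' q' ∈ W ∨ ed p q + ed p' q' ∈ W

lemma mem_add1 {W : AddSubgroup (Wd κ)} {f g : Wd κ} :
    g ∈ add2 W f 0 ↔ g ∈ W ∨ g + f ∈ W := by
  rw [mem_add2]
  have h0 : ∀ v, cb v (0 : Wd κ) = 0 := by intro v; cases v <;> rfl
  constructor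
  · rintro ⟨u, v, h⟩
    rw [h0, add_zero] at h
    cases u
    · left
      simpa [cb] using h
    · right
      simpa [cb] using h
  · rintro (h | h)
    · exact ⟨false, false, by rw [h0, add_zero]; simpa [cb] using h⟩
    · exact ⟨true, false, by rw [h0, add_zero]; simpa [cb] using h⟩

lemma le_add1 {W : AddSubgroup (Wd κ)} {f : Wd κ} : W ≤ add2 W f 0 :=
  fun _ hg => mem_add1.mpr (Or.inl hg)

lemma exists_pos {τ : κ → Fin 10} {t : ℕ} (ht : ∀ i, (univ.filter (fun x => τ x = i)).card = t)
    (ht2 : 2 ≤ t) {p q : κ} (hpq : τ p ≠ τ q) (m : Fin 10) : ∃ z, τ z = m ∧ z ≠ p ∧ z ≠ q := by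
  have h1 : 1 < (univ.filter (fun x => τ x = m)).card := by
    rw [ht]
    omega
  by_cases hp : τ p = m
  · obtain ⟨z, hz, hzp⟩ := Finset.exists_mem_ne h1 p
    refine ⟨z, (mem_filter.mp hz).2, hzp, ?_⟩
    rintro rfl
    exact hpq (hp.trans (mem_filter.mp hz).2.symm)
  · obtain ⟨z, hz, hzq⟩ := Finset.exists_mem_ne h1 q
    refine ⟨z, (mem_filter.mp hz).2, ?_, hzq⟩
    rintro rfl
    exact hp (mem_filter.mp hz).2

lemma star {τ : κ → Fin 10} {t : ℕ} (ht : ∀ i, (univ.filter (fun x => τ x = i)).card = t)
    (ht2 : 2 ≤ t) {W : AddSubgroup (Wd κ)} (hV : V0 τ ≤ W) (hS : Stuck τ W) {p q : κ}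
    (hpq : τ p ≠ τ q) (hf : ed p q ∉ W) (x y : κ)
    (hxy : sepm (tx (τ p) (τ q)) (τ x) = sepm (tx (τ p) (τ q)) (τ y)) :
    cl (add2 W (ed p q) 0) x = cl (add2 W (ed p q) 0) y := by
  obtain ⟨s1, s2, ⟨k, hkp, hkq, s3⟩, _⟩ := third _ _ hpq
  have hmask := mem_masks _ _ hpq
  have hS' := fun p' q' => hS p q p' q' hpq
  generalize hA : tx (τ p) (τ q) = A at *
  set H := add2 W (ed p q) 0 with hH
  have hVH : V0 τ ≤ H := hV.trans le_add1
  -- step 1
  have st1 : ∀ x y, x ≠ p → x ≠ q → y ≠ p → y ≠ q → τ x ≠ τ y → dsj A (tx (τ x) (τ y)) = true →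
      cl H x = cl H y := by
    intro x y a1 a2 a3 a4 a5 a6
    rw [cl_eq_iff, mem_add1]
    rcases hS' x y a5 a1.symm a3.symm a2.symm a4.symm a6 with h | h | h
    · exact absurd h hf
    · exact Or.inl h
    · right
      rw [add_comm]
      exact h
  -- step 2
  have st2 : ∀ x y, x ≠ p → x ≠ q → y ≠ p → y ≠ q → sepm A (τ x) = sepm A (τ y) →
      cl H x = cl H y := by
    intro x y a1 a2 a3 a4 a5
    obtain ⟨m, m1, m2, m3, m4⟩ := common A hmask _ _ a5
    obtain ⟨z, rfl, hzp, hzq⟩ := exists_pos ht ht2 hpq m
    exact (st1 x z a1 a2 hzp hzq m1 m3).trans (st1 y z a3 a4 hzp hzq m2 m4).symm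
  -- step 3
  obtain ⟨x1, hx1, hx1p, hx1q⟩ := exists_pos ht ht2 hpq k
  have st3 : ∀ r, (r = p ∨ r = q) → cl H r = cl H x1 := by
    intro r hr
    have hrA : sepm A (τ r) = true := by
      rcases hr with rfl | rfl
      · exact s1
      · exact s2
    have hk : ∀ y ∈ univ.filter (fun x => τ x = k), cl H y = cl H x1 := by
      intro y hy
      have hyk := (mem_filter.mp hy).2
      apply st2 y x1 _ _ hx1p hx1q
      · rw [hyk, hx1]
      · rintro rfl
        exact hkp hyk.symm
      · rintro rfl
        exact hkq hyk.symm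
    have hr' : ∀ y ∈ (univ.filter (fun x => τ x = τ r)).erase r, cl H y = cl H x1 := by
      intro y hy
      rw [mem_erase, mem_filter] at hy
      obtain ⟨hyr, _, hyt⟩ := hy
      apply st2 y x1 _ _ hx1p hx1q
      · rw [hyt, hx1, hrA, s3]
      · rintro rfl
        rcases hr with rfl | rfl
        · exact hyr rfl
        · exact hpq hyt
      · rintro rfl
        rcases hr with rfl | rfl
        · exact hpq hyt.symm
        · exact hyr rfl
    have hb := block_sum hVH (τ r) k
    have hmem : r ∈ univ.filter (fun x => τ x = τ r) := mem_filter.mpr ⟨mem_univ r, rfl⟩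
    rw [← Finset.add_sum_erase _ _ hmem, sum_congr rfl hr',
      sum_congr rfl hk, sum_const, sum_const, card_erase_of_mem hmem, ht, ht] at hb
    obtain ⟨t', rfl⟩ : ∃ t', t = t' + 1 := ⟨t - 1, by omega⟩
    rw [Nat.add_sub_cancel, succ_nsmul, add_comm] at hb
    exact add_left_cancel hb
  -- step 4
  have st4 : ∀ x, ∃ x', x' ≠ p ∧ x' ≠ q ∧ sepm A (τ x') = sepm A (τ x) ∧ cl H x = cl H x' := by
    intro x
    by_cases hxp : x = p
    · exact ⟨x1, hx1p, hx1q, by rw [hx1, s3, hxp, s1], st3 x (Or.inl hxp)⟩
    by_cases hxq : x = q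
    · exact ⟨x1, hx1p, hx1q, by rw [hx1, s3, hxq, s2], st3 x (Or.inr hxq)⟩
    exact ⟨x, hxp, hxq, rfl, rfl⟩
  obtain ⟨x', b1, b2, b3, b4⟩ := st4 x
  obtain ⟨y', c1, c2, c3, c4⟩ := st4 y
  rw [b4, c4]
  exact st2 x' y' b1 b2 c1 c2 (by rw [b3, c3, hxy])

lemma card_add1 {W : AddSubgroup (Wd κ)} {f : Wd κ} (hf : f ∉ W) [DecidablePred (· ∈ W)]
    [DecidablePred (· ∈ add2 W f 0)] :
    (univ.filter (fun g => g ∈ add2 W f 0)).card = 2 * (univ.filter (fun g => g ∈ W)).card := by
  classical
  have e : univ.filter (fun g => g ∈ add2 W f 0)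
      = univ.filter (fun g => g ∈ W) ∪ univ.filter (fun g => g + f ∈ W) := by
    ext g
    simp only [mem_filter, mem_univ, true_and, mem_union, mem_add1]
  rw [e, card_union_of_disjoint]
  · have : (univ.filter (fun g => g + f ∈ W)).card = (univ.filter (fun g => g ∈ W)).card := by
      apply Finset.card_bij' (fun g _ => g + f) (fun g _ => g + f)
      · intro g hg
        rw [mem_filter] at hg ⊢
        exact ⟨mem_univ _, hg.2⟩
      · intro g hg
        rw [mem_filter] at hg ⊢
        refine ⟨mem_univ _, ?_⟩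
        rw [add_assoc, add_self', add_zero]
        exact hg.2
      · intro g _
        rw [add_assoc, add_self', add_zero]
      · intro g _
        rw [add_assoc, add_self', add_zero]
    omega
  · rw [Finset.disjoint_left]
    intro g h1 h2
    rw [mem_filter] at h1 h2
    exact hf ((W.add_mem_cancel_left h1.2).mp h2.2)

lemma card_EV (x0 : κ) [DecidablePred (fun g : Wd κ => g ∈ EV κ)] : 2 * (univ.filter (fun g => g ∈ EV κ)).card = 2 ^ Fintype.card κ := by
  classical
  have h1 := Finset.card_filter_add_card_filter_not (s := (univ : Finset (Wd κ)))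
    (fun g => g ∈ EV κ)
  have h2 : (univ.filter (fun g => g ∉ EV κ)).card = (univ.filter (fun g => g ∈ EV κ)).card := by
    have hs : ∀ g : Wd κ, (∑ x, (g + Pi.single x0 1 : Wd κ) x) = (∑ x, g x) + 1 := by
      intro g
      simp only [Pi.add_apply, sum_add_distrib, Pi.single_apply, sum_ite_eq', mem_univ, if_true]
    refine Finset.card_bij' (fun g _ => g + Pi.single x0 1) (fun g _ => g + Pi.single x0 1)
      ?_ ?_ ?_ ?_
    · intro g hg
      rw [mem_filter] at hg ⊢
      refine ⟨mem_univ _, ?_⟩
      have h3 := hg.2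
      rw [mem_EV] at h3 ⊢
      rw [hs]
      revert h3
      generalize (∑ x, g x) = s
      revert s
      decide
    · intro g hg
      rw [mem_filter] at hg ⊢
      refine ⟨mem_univ _, ?_⟩
      have h3 := hg.2
      rw [mem_EV] at h3 ⊢
      rw [hs, h3]
      decide
    · intro g _
      rw [add_assoc, add_self', add_zero]
    · intro g _
      rw [add_assoc, add_self', add_zero]
  rw [h2] at h1
  rw [card_univ, Fintype.card_fun, ZMod.card] at h1
  omega

lemma card_Tiled {t : ℕ} {W : AddSubgroup (Wd κ)} (x0 : κ) (h1W : (1 : Wd κ) ∈ W)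
    (hT : Tiled t W) [DecidablePred (· ∈ W)] :
    ∃ K, (univ.filter (fun g => g ∈ W)).card = 6 * K + 2 := by
  classical
  obtain ⟨θ, hθ, h⟩ := hT
  obtain ⟨K, iK, c, hc, hτc⟩ := Til_explicit hθ
  refine ⟨Fintype.card K, ?_⟩
  have e1 : (∑ g : Wd κ, θ g) = Fintype.card K * 6 := by
    simp only [hτc]
    rw [sum_comm]
    have : ∀ k : K, (∑ g : Wd κ, ∑ i : Fin 6, if c k i = g then 1 else 0) = 6 := by
      intro k
      rw [sum_comm]
      simp
    rw [sum_congr rfl (fun k _ => this k), sum_const, card_univ, smul_eq_mul]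
  have e2 : (∑ g : Wd κ, θ g) = ∑ g : Wd κ, if (g ∈ W ∧ g ≠ 0 ∧ g ≠ 1) then 1 else 0 := by
    apply sum_congr rfl
    intro g _
    split
    · next hg => exact (h g).1 hg
    · next hg => exact (h g).2 hg
  have h01 : (0 : Wd κ) ≠ 1 := by
    intro h
    have := congrFun h x0
    exact zero_ne_one this
  rw [← card_filter, e1] at e2
  have e3 : univ.filter (fun g => g ∈ W)
      = univ.filter (fun g => g ∈ W ∧ g ≠ 0 ∧ g ≠ 1) ∪ {0, 1} := by
    ext g
    simp only [mem_filter, mem_univ, true_and, mem_union, mem_insert, mem_singleton]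
    constructor
    · intro hg
      by_cases g0 : g = 0
      · exact Or.inr (Or.inl g0)
      by_cases g1 : g = 1
      · exact Or.inr (Or.inr g1)
      exact Or.inl ⟨hg, g0, g1⟩
    · rintro (h | rfl | rfl)
      · exact h.1
      · exact W.zero_mem
      · exact h1W
  rw [e3, card_union_of_disjoint, ← e2, card_pair h01]
  · omega
  · rw [Finset.disjoint_left]
    intro g h1 h2
    simp only [mem_filter, mem_univ, true_and] at h1
    simp only [mem_insert, mem_singleton] at h2
    rcases h2 with rfl | rfl
    · exact h1.2.1 rfl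
    · exact h1.2.2 rfl

/-- A stuck group is everything. -/
lemma stuck_top {τ : κ → Fin 10} {t : ℕ} (ht : ∀ i, (univ.filter (fun x => τ x = i)).card = t)
    (ht2 : 2 ≤ t) {W : AddSubgroup (Wd κ)} (hV : V0 τ ≤ W) (hE : W ≤ EV κ) (hS : Stuck τ W)
    (hT : Tiled t W) : W = EV κ := by
  classical
  have hpos : ∀ i, ∃ z, τ z = i := by
    intro i
    have : 0 < (univ.filter (fun x => τ x = i)).card := by rw [ht]; omega
    obtain ⟨x, hx⟩ := Finset.card_pos.mp this
    exact ⟨x, (mem_filter.mp hx).2⟩
  obtain ⟨x0, hx0⟩ := hpos 0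
  obtain ⟨x9, hx9⟩ := hpos 1
  by_cases hall : ∀ p q, τ p ≠ τ q → ed p q ∈ W
  · apply le_antisymm hE
    apply EV_le x0
    intro x
    by_cases hx : τ x = τ x0
    · rw [← ed_trans x x9 x0]
      apply W.add_mem
      · apply hall
        rw [hx, hx0, hx9]
        decide
      · apply hall
        rw [hx0, hx9]
        decide
    · exact hall _ _ hx
  exfalso
  push Not at hall
  obtain ⟨p, q, hpq, hf⟩ := hall
  have hstar := star ht ht2 hV hS hpq hf
  obtain ⟨s1, s2, _, ⟨j, s4⟩⟩ := third _ _ hpq
  have hmask := mem_masks _ _ hpq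
  generalize hA : tx (τ p) (τ q) = A at *
  obtain ⟨y, rfl⟩ := hpos j
  by_cases hc : cl (add2 W (ed p q) 0) p = cl (add2 W (ed p q) 0) y
  · -- everything in two cosets of `W`
    have hle : EV κ ≤ add2 W (ed p q) 0 := by
      apply EV_le p
      intro x
      rw [← cl_eq_iff]
      cases hx : sepm A (τ x)
      · rw [hc]
        apply hstar
        rw [hx, s4]
      · apply hstar
        rw [hx, s1]
    have hge : add2 W (ed p q) 0 ≤ EV κ := by
      intro g hg
      rw [mem_add1] at hg
      rcases hg with hg | hg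
      · exact hE hg
      · exact ((EV κ).add_mem_cancel_right (ed_mem_EV p q)).mp (hE hg)
    have heq : EV κ = add2 W (ed p q) 0 := le_antisymm hle hge
    obtain ⟨K, hK⟩ := card_Tiled x0 (hV (one_mem_V0 τ)) hT
    have c1 := card_add1 hf
    rw [hK] at c1
    have c2 := card_EV x0
    have c3 : (univ.filter (fun g => g ∈ EV κ)).card
        = (univ.filter (fun g => g ∈ add2 W (ed p q) 0)).card := by
      congr 1
      ext g
      simp only [mem_filter, mem_univ, true_and]
      rw [heq]
    rw [c3, c1] at c2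
    have c4 : Fintype.card κ = 10 * t := by
      rw [← card_univ, Finset.card_eq_sum_card_fiberwise (f := τ) (t := univ)
        (fun _ _ => mem_coe.mpr (mem_univ _)), sum_congr rfl (fun i _ => ht i)]
      simp
    rw [c4] at c2
    have c5 : 2 ^ (10 * t) % 3 = 1 := by
      have : (2 : ℕ) ^ (10 * t) = (4 ^ 5) ^ t := by
        rw [← pow_mul]
        rw [show (4 : ℕ) = 2 ^ 2 by norm_num, ← pow_mul]
        congr 1
        ring
      rw [this, Nat.pow_mod]
      norm_num
    omega
  · -- two independent directions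
    have hpy : τ p ≠ τ y := by
      intro h
      rw [← h, s1] at s4
      exact absurd s4 (by decide)
    have hh : ed p y ∉ add2 W (ed p q) 0 := fun h => hc (cl_eq_iff.mpr h)
    have hhW : ed p y ∉ W := fun h => hh (le_add1 h)
    have hfh : ed p y + ed p q ∉ W := fun h => hh (mem_add1.mpr (Or.inr h))
    have hstar' := star ht ht2 hV hS hpy hhW
    have hcross := cross A hmask (τ p) (τ y) s1 s4
    have hmaskB := mem_masks _ _ hpy
    obtain ⟨r1, r2, _, _⟩ := third _ _ hpy
    generalize hB : tx (τ p) (τ y) = B at *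
    -- independence
    have hind : ∀ u v : Bool, cb u (ed p y) + cb v (ed p q) ∈ W → u = false ∧ v = false := by
      intro u v h
      cases u <;> cases v
      · exact ⟨rfl, rfl⟩
      · exfalso
        simp only [cb, if_true] at h
        apply hf
        simpa using h
      · exfalso
        simp only [cb, if_true] at h
        apply hhW
        simpa using h
      · exfalso
        simp only [cb, if_true] at h
        exact hfh h
    have hsame : ∀ x x', sepm A (τ x) = sepm A (τ x') → sepm B (τ x) = sepm B (τ x') →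
        ed x x' ∈ W := by
      intro x x' h1 h2
      have h3 := cl_eq_iff.mp (hstar x x' h1)
      have h4 := cl_eq_iff.mp (hstar' x x' h2)
      rw [mem_add1] at h3 h4
      rcases h3 with h3 | h3
      · exact h3
      rcases h4 with h4 | h4
      · exact h4
      exfalso
      apply hfh
      have : ed p y + ed p q = (ed x x' + ed p q) + (ed x x' + ed p y) := by
        have h5 := add_self' (ed x x')
        calc ed p y + ed p q = 0 + (ed p y + ed p q) := (zero_add _).symm
          _ = (ed x x' + ed x x') + (ed p y + ed p q) := by rw [h5]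
          _ = _ := by abel
      rw [this]
      exact W.add_mem h3 h4
    have hqB : sepm B (τ q) = false := by
      cases hq : sepm B (τ q)
      · rfl
      · exact absurd (hsame p q (by rw [s1, s2]) (by rw [r1, hq])) hf
    have hcoord : ∀ x, ed x p + cb (!sepm A (τ x)) (ed p y) + cb (!sepm B (τ x)) (ed p q) ∈ W := by
      intro x
      cases hxA : sepm A (τ x) <;> cases hxB : sepm B (τ x)
      · -- the fourth type
        simp only [Bool.not_false, cb, if_true]
        have h3 := cl_eq_iff.mp (hstar x y (by rw [hxA, s4]))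
        have h4 := cl_eq_iff.mp (hstar' x q (by rw [hxB, hqB]))
        rw [mem_add1] at h3 h4
        have e1 : ed x y = ed x p + ed p y := (ed_trans _ _ _).symm
        have e2 : ed x q = ed x p + ed p q := (ed_trans _ _ _).symm
        rcases h3 with h3 | h3
        · exfalso
          rw [e1] at h3
          rcases h4 with h4 | h4
          · rw [e2] at h4
            apply hfh
            have : ed p y + ed p q = (ed x p + ed p y) + (ed x p + ed p q) := by
              have h5 := add_self' (ed x p)
              calc ed p y + ed p q = 0 + (ed p y + ed p q) := (zero_add _).symm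
                _ = (ed x p + ed x p) + (ed p y + ed p q) := by rw [h5]
                _ = _ := by abel
            rw [this]
            exact W.add_mem h3 h4
          · rw [e2] at h4
            apply hf
            have : ed p q = (ed x p + ed p y) + (ed x p + ed p q + ed p y) := by
              have h5 := add_self' (ed x p)
              have h6 := add_self' (ed p y)
              calc ed p q = 0 + 0 + ed p q := by rw [zero_add, zero_add]
                _ = (ed x p + ed x p) + (ed p y + ed p y) + ed p q := by rw [h5, h6]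
                _ = _ := by abel
            rw [this]
            exact W.add_mem h3 h4
        · rw [e1] at h3
          exact h3
      · simp only [Bool.not_false, Bool.not_true, cb, if_true]
        have h3 := hsame x y (by rw [hxA, s4]) (by rw [hxB, r2])
        rw [← ed_trans x p y] at h3
        simpa using h3
      · simp only [Bool.not_false, Bool.not_true, cb, if_true]
        have h3 := hsame x q (by rw [hxA, s2]) (by rw [hxB, hqB])
        rw [← ed_trans x p q] at h3
        simpa using h3
      · simp only [Bool.not_true, cb]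
        have h3 := hsame x p (by rw [hxA, s1]) (by rw [hxB, r1])
        simpa using h3
    have hcoord2 : ∀ x x', ed x x' + (cb (sepm A (τ x) ^^ sepm A (τ x')) (ed p y)
        + cb (sepm B (τ x) ^^ sepm B (τ x')) (ed p q)) ∈ W := by
      intro x x'
      have h3 := W.add_mem (hcoord x) (hcoord x')
      have e1 : ed x x' = ed x p + ed x' p := by
        rw [ed_comm x' p]
        exact (ed_trans _ _ _).symm
      have e2 : ed x p + cb (!sepm A (τ x)) (ed p y) + cb (!sepm B (τ x)) (ed p q)
          + (ed x' p + cb (!sepm A (τ x')) (ed p y) + cb (!sepm B (τ x')) (ed p q))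
          = (ed x p + ed x' p) + ((cb (!sepm A (τ x)) (ed p y) + cb (!sepm A (τ x')) (ed p y))
          + (cb (!sepm B (τ x)) (ed p q) + cb (!sepm B (τ x')) (ed p q))) := by abel
      rw [e2, cb_add, cb_add, Bool.not_xor_not, Bool.not_xor_not, ← e1] at h3
      exact h3
    obtain ⟨k, l, k', l', d1, d2, d3, d4, d5, d6⟩ := indep A hmask B hmaskB hcross
    have htwo : ∀ i, ∃ a b, a ≠ b ∧ τ a = i ∧ τ b = i := by
      intro i
      have : 1 < (univ.filter (fun x => τ x = i)).card := by rw [ht]; omega
      obtain ⟨a, ha, b, hb, hab⟩ := Finset.one_lt_card.mp this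
      exact ⟨a, b, hab, (mem_filter.mp ha).2, (mem_filter.mp hb).2⟩
    choose P Q hPQ hP hQ using htwo
    have hne : ∀ i j, P i ≠ Q j := by
      intro i j h
      by_cases hij : i = j
      · subst hij
        exact hPQ _ h
      · apply hij
        rw [← hP i, ← hQ j, h]
    have h7 := hS (P k) (P l) (Q k') (Q l') (by rw [hP, hP]; exact d1) (by rw [hQ, hQ]; exact d2)
      (hne _ _) (hne _ _) (hne _ _) (hne _ _) (by rw [hP, hP, hQ, hQ]; exact d3)
    have k1 := hcoord2 (P k) (P l)
    have k2 := hcoord2 (Q k') (Q l')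
    rw [hP, hP] at k1
    rw [hQ, hQ] at k2
    rcases h7 with h7 | h7 | h7
    · obtain ⟨z1, z2⟩ := hind _ _ ((W.add_mem_cancel_left h7).mp k1)
      rcases d4 with d4 | d4
      · rw [z1] at d4
        exact absurd d4 (by decide)
      · rw [z2] at d4
        exact absurd d4 (by decide)
    · obtain ⟨z1, z2⟩ := hind _ _ ((W.add_mem_cancel_left h7).mp k2)
      rcases d5 with d5 | d5
      · rw [z1] at d5
        exact absurd d5 (by decide)
      · rw [z2] at d5
        exact absurd d5 (by decide)
    · have k3 := W.add_mem k1 k2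
      have e3 : ed (P k) (P l) + (cb (sepm A k ^^ sepm A l) (ed p y)
          + cb (sepm B k ^^ sepm B l) (ed p q)) + (ed (Q k') (Q l')
          + (cb (sepm A k' ^^ sepm A l') (ed p y) + cb (sepm B k' ^^ sepm B l') (ed p q)))
          = (ed (P k) (P l) + ed (Q k') (Q l')) + ((cb (sepm A k ^^ sepm A l) (ed p y)
          + cb (sepm A k' ^^ sepm A l') (ed p y)) + (cb (sepm B k ^^ sepm B l) (ed p q)
          + cb (sepm B k' ^^ sepm B l') (ed p q))) := by abel
      rw [e3, cb_add, cb_add] at k3
      obtain ⟨z1, z2⟩ := hind _ _ ((W.add_mem_cancel_left h7).mp k3)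
      rcases d6 with d6 | d6
      · apply d6
        revert z1
        cases (sepm A k ^^ sepm A l) <;> cases (sepm A k' ^^ sepm A l') <;> simp
      · apply d6
        revert z2
        cases (sepm B k ^^ sepm B l) <;> cases (sepm B k' ^^ sepm B l') <;> simp

/-- The nonconstant words of even weight are tiled by codes of six words. -/
theorem tiled_EV {τ : κ → Fin 10} {t : ℕ} (ht : ∀ i, (univ.filter (fun x => τ x = i)).card = t)
    (ht1 : 1 ≤ t) : Tiled t (EV κ) := by
  classical
  have hVE : V0 τ ≤ EV κ := by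
    rintro g ⟨c, hc, rfl⟩
    rw [mem_EV]
    have : ∑ x, beta τ c x = ∑ i, (t : ZMod 2) * c i := by
      rw [← Finset.sum_fiberwise univ τ]
      apply sum_congr rfl
      intro i _
      have : ∀ x ∈ univ.filter (fun x => τ x = i), beta τ c x = c i := by
        intro x hx
        rw [mem_filter] at hx
        show c (τ x) = c i
        rw [hx.2]
      rw [sum_congr rfl this, sum_const, ht, nsmul_eq_mul]
    rw [this, ← mul_sum, hc, mul_zero]
  rcases Nat.lt_or_ge t 2 with hlt | ht2
  · have h1 : t = 1 := by omega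
    subst h1
    have : V0 τ = EV κ := by
      apply le_antisymm hVE
      intro g hg
      have huniq : ∀ i, ∃ x, univ.filter (fun x => τ x = i) = {x} := by
        intro i
        exact Finset.card_eq_one.mp (ht i)
      choose e he using huniq
      have heτ : ∀ x, e (τ x) = x := by
        intro x
        have : x ∈ univ.filter (fun x' => τ x' = τ x) := mem_filter.mpr ⟨mem_univ _, rfl⟩
        rw [he, mem_singleton] at this
        exact this.symm
      have hτe : ∀ i, τ (e i) = i := by
        intro i
        have : e i ∈ univ.filter (fun x' => τ x' = i) := by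
          rw [he]
          exact mem_singleton_self _
        exact (mem_filter.mp this).2
      refine ⟨fun i => g (e i), ?_, ?_⟩
      · rw [mem_EV] at hg
        rw [← hg]
        exact Fintype.sum_bijective e ⟨fun a b h => by rw [← hτe a, ← hτe b, h],
          fun x => ⟨τ x, heτ x⟩⟩ _ _ (fun _ => rfl)
      · ext x
        show g (e (τ x)) = g x
        rw [heτ]
    rw [← this]
    have := til_V0 ht ht1
    rw [mul_one] at this
    exact this
  · let 𝒮 : Set (AddSubgroup (Wd κ)) := {W | V0 τ ≤ W ∧ W ≤ EV κ ∧ Tiled t W}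
    have hfin : 𝒮.Finite := Set.toFinite _
    obtain ⟨W, hW⟩ := hfin.exists_maximal ⟨V0 τ, le_refl _, hVE, til_V0 ht ht1⟩
    obtain ⟨⟨w1, w2, w3⟩, hmax⟩ := hW
    have hS : Stuck τ W := by
      intro p q p' q' a1 a2 a3 a4 a5 a6 a7
      by_contra hn
      push Not at hn
      obtain ⟨n1, n2, n3⟩ := hn
      obtain ⟨U, hU1, hU2, hU3⟩ := crit_step ht ht1 w1 w2 w3 a1 a2 a3 a4 a5 a6 a7 n1 n2 n3
      have := hmax (show U ∈ 𝒮 from ⟨w1.trans hU1.le, hU2, hU3⟩) hU1.le
      exact absurd hU1 (not_lt_of_ge this)
    rw [← stuck_top ht ht2 w1 w2 hS w3]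
    exact w3

end

end MP7d5fe8
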