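import Pool.Agent.Work.MP_7d5fe8_co.GadgetTil
import Pool.Agent.Work.MP_7d5fe8_co.Blocks

/-! Enlarging a tiled group by two transpositions of coordinates. -/

open Finset

namespace MP7d5fe8

set_option linter.unusedSectionVars false

section
variable {κ : Type} [Fintype κ] [DecidableEq κ]

lemma neg_eq_self' (g : Wd κ) : -g = g := by
  ext x
  exact ZMod.neg_eq_self_mod_two _

lemma add_self' (g : Wd κ) : g + g = 0 := by
  nth_rewrite 1 [← neg_eq_self' g]
  exact neg_add_cancel g

/-- Translates of one code tile the difference of two groups. -/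
lemma tile_one {D M : ℕ} (W U : AddSubgroup (Wd κ)) (hWU : W ≤ U) (ℓ : Wd κ →+ ZMod 2)
    (w : Fin M → Wd κ) (hw : Sep D w) (hU : ∀ i, w i ∈ U) (hW : ∀ i, w i ∉ W)
    (hex : ∀ g ∈ U, g ∉ W → ∃ i, g + w i ∈ W ∧ ℓ (g + w i) = 0)
    (hun : ∀ i j, w i + w j ∈ W → ℓ (w i + w j) = 0 → i = j) :
    ∃ θ ∈ Til κ D M, ∀ g, ((g ∈ U ∧ g ∉ W) → θ g = 1) ∧ (¬ (g ∈ U ∧ g ∉ W) → θ g = 0) := by
  classical
  let L : Finset (Wd κ) := univ.filter (fun x => x ∈ W ∧ ℓ x = 0)
  refine ⟨∑ x ∈ L, cnt (fun i => x + w i), ?_, fun g => ?_⟩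
  · refine AddSubmonoid.sum_mem _ fun x _ => cnt_mem_Til ?_
    intro i j hij
    show D ≤ hammingDist (x + w i) (x + w j)
    rw [hammingDist_add_left']
    exact hw i j hij
  · have key : (∑ x ∈ L, cnt (fun i => x + w i)) g
        = ∑ i : Fin M, if (g + w i ∈ W ∧ ℓ (g + w i) = 0) then 1 else 0 := by
      simp only [Finset.sum_apply]
      unfold cnt
      rw [sum_comm]
      apply sum_congr rfl
      intro i _
      have h1 : ∀ x, (x + w i = g) ↔ (x = g + w i) := by
        intro x
        constructor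
        · intro h
          rw [← h, add_assoc, add_self', add_zero]
        · intro h
          rw [h, add_assoc, add_self', add_zero]
      simp only [h1]
      rw [Finset.sum_ite_eq' L (g + w i) (fun _ => 1)]
      have h2 : (g + w i ∈ L) ↔ (g + w i ∈ W ∧ ℓ (g + w i) = 0) := by
        simp only [L, mem_filter, mem_univ, true_and]
      simp only [h2]
    rw [key]
    constructor
    · rintro ⟨hg, hgW⟩
      obtain ⟨i, h1, h2⟩ := hex g hg hgW
      rw [Finset.sum_eq_single i]
      · rw [if_pos ⟨h1, h2⟩]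
      · intro j _ hj
        rw [if_neg]
        rintro ⟨h3, h4⟩
        apply hj
        have e : w j + w i = (g + w j) + (g + w i) := by
          have := add_self' g
          calc w j + w i = 0 + (w j + w i) := (zero_add _).symm
            _ = (g + g) + (w j + w i) := by rw [this]
            _ = _ := by abel
        apply hun
        · rw [e]
          exact W.add_mem h3 h1
        · rw [e, map_add, h4, h2, add_zero]
      · intro h
        exact absurd (mem_univ _) h
    · intro hg
      apply sum_eq_zero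
      intro i _
      rw [if_neg]
      rintro ⟨h1, _⟩
      apply hg
      have e : g = (g + w i) + w i := by rw [add_assoc, add_self', add_zero]
      constructor
      · rw [e]
        exact U.add_mem (hWU h1) (hU i)
      · intro hgW
        apply hW i
        have e2 : w i = g + (g + w i) := by rw [← add_assoc, add_self', zero_add]
        rw [e2]
        exact W.add_mem hgW h1

/-- The code with column types `σ`. -/
def yw (σ : κ → Fin 10) (a : Fin 6) : Wd κ := beta σ (fun i => if tt i a then 1 else 0)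

lemma yw_apply (σ : κ → Fin 10) (a : Fin 6) (x : κ) :
    yw σ a x = if tt (σ x) a then 1 else 0 := rfl

lemma Sep_yw {σ : κ → Fin 10} {t : ℕ} (ht : ∀ i, (univ.filter (fun x => σ x = i)).card = t) :
    Sep (6 * t) (yw σ) := by
  intro a b hab
  unfold yw
  rw [dist_beta ht, mul_comm]
  apply Nat.mul_le_mul_left
  have h := tt_count a b hab
  unfold hammingDist
  rw [← h]
  apply card_le_card
  intro i hi
  rw [mem_filter] at hi ⊢
  refine ⟨hi.1, ?_⟩
  have := hi.2
  cases h1 : tt i a <;> cases h2 : tt i b <;> simp_all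

lemma yw_mem_V0 (τ : κ → Fin 10) (a : Fin 6) : yw τ a ∈ V0 τ := by
  refine ⟨_, ?_, rfl⟩
  rw [← Finset.sum_filter]
  rw [sum_const, nsmul_eq_mul, mul_one, ZMod.natCast_eq_zero_iff, Nat.dvd_iff_mod_eq_zero]
  exact tt_even a

/-- The word with two ones. -/
def ed (p q : κ) : Wd κ := Pi.single p 1 + Pi.single q 1

def cb (b : Bool) (f : Wd κ) : Wd κ := if b then f else 0

lemma cb_add (b c : Bool) (f : Wd κ) : cb b f + cb c f = cb (b ^^ c) f := by
  cases b <;> cases c <;> simp [cb, add_self']

/-- Exchange two disjoint pairs of coordinates. -/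
def sw (τ : κ → Fin 10) (p q p' q' : κ) : κ → Fin 10 :=
  fun x => τ (Equiv.swap p q (Equiv.swap p' q' x))

lemma sw_card {τ : κ → Fin 10} {t : ℕ} (ht : ∀ i, (univ.filter (fun x => τ x = i)).card = t)
    (p q p' q' : κ) : ∀ i, (univ.filter (fun x => sw τ p q p' q' x = i)).card = t := by
  intro i
  rw [← ht i]
  apply Finset.card_bij' (fun x _ => Equiv.swap p q (Equiv.swap p' q' x))
    (fun x _ => Equiv.swap p' q' (Equiv.swap p q x))
  · intro x hx
    rw [mem_filter] at hx ⊢
    exact ⟨mem_univ _, hx.2⟩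
  · intro x hx
    rw [mem_filter] at hx ⊢
    refine ⟨mem_univ _, ?_⟩
    show τ (Equiv.swap p q (Equiv.swap p' q' (Equiv.swap p' q' (Equiv.swap p q x)))) = i
    rw [Equiv.swap_apply_self, Equiv.swap_apply_self]
    exact hx.2
  · intro x _
    rw [Equiv.swap_apply_self, Equiv.swap_apply_self]
  · intro x _
    rw [Equiv.swap_apply_self, Equiv.swap_apply_self]

lemma yw_sw {τ : κ → Fin 10} {p q p' q' : κ} (h0 : p ≠ q) (h0' : p' ≠ q') (h1 : p ≠ p')
    (h2 : p ≠ q') (h3 : q ≠ p') (h4 : q ≠ q') (a : Fin 6) :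
    yw (sw τ p q p' q') a = yw τ a + cb ((tx (τ p) (τ q)).testBit a) (ed p q)
      + cb ((tx (τ p') (τ q')).testBit a) (ed p' q') := by
  have hx : ∀ i j, (tx i j).testBit a = (tt i a ^^ tt j a) := by
    intro i j
    unfold tx tt
    exact Nat.testBit_xor _ _ _
  rw [hx, hx]
  ext x
  simp only [Pi.add_apply, yw_apply]
  have hed : ∀ (b : Bool) (r s : κ), cb b (ed r s) x
      = if b then ((if x = r then 1 else 0) + (if x = s then 1 else 0)) else 0 := by
    intro b r s
    cases b
    · simp [cb]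
    · simp [cb, ed, Pi.single_apply]
  rw [hed, hed]
  by_cases xp : x = p
  · subst xp
    have hs : sw τ x q p' q' x = τ q := by
      unfold sw
      rw [Equiv.swap_apply_of_ne_of_ne h1 h2, Equiv.swap_apply_left]
    rw [hs]
    simp only [h0, h1, h2, if_true, if_false]
    cases tt (τ x) a <;> cases tt (τ q) a <;> cases tt (τ p') a <;> cases tt (τ q') a <;> decide
  by_cases xq : x = q
  · subst xq
    have hs : sw τ p x p' q' x = τ p := by
      unfold sw
      rw [Equiv.swap_apply_of_ne_of_ne h3 h4, Equiv.swap_apply_right]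
    rw [hs]
    simp only [h0.symm, h3, h4, if_true, if_false]
    cases tt (τ x) a <;> cases tt (τ p) a <;> cases tt (τ p') a <;> cases tt (τ q') a <;> decide
  by_cases xp' : x = p'
  · subst xp'
    have hs : sw τ p q x q' x = τ q' := by
      unfold sw
      rw [Equiv.swap_apply_left, Equiv.swap_apply_of_ne_of_ne h2.symm h4.symm]
    rw [hs]
    simp only [h0', h1.symm, h3.symm, if_true, if_false]
    cases tt (τ x) a <;> cases tt (τ p) a <;> cases tt (τ q) a <;> cases tt (τ q') a <;> decide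
  by_cases xq' : x = q'
  · subst xq'
    have hs : sw τ p q p' x x = τ p' := by
      unfold sw
      rw [Equiv.swap_apply_right, Equiv.swap_apply_of_ne_of_ne h1.symm h3.symm]
    rw [hs]
    simp only [h0'.symm, h2.symm, h4.symm, if_true, if_false]
    cases tt (τ x) a <;> cases tt (τ p) a <;> cases tt (τ q) a <;> cases tt (τ p') a <;> decide
  have hs : sw τ p q p' q' x = τ x := by
    unfold sw
    rw [Equiv.swap_apply_of_ne_of_ne xp' xq', Equiv.swap_apply_of_ne_of_ne xp xq]
  rw [hs]
  simp only [xp, xq, xp', xq', if_false]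
  simp

/-- The group of words of even weight. -/
def EV (κ : Type) [Fintype κ] : AddSubgroup (Wd κ) where
  carrier := {g | ∑ x, g x = 0}
  zero_mem' := by simp
  add_mem' := by
    intro a b ha hb
    simp only [Set.mem_ofPred_eq] at *
    simp [sum_add_distrib, ha, hb]
  neg_mem' := by
    intro a ha
    simp only [Set.mem_ofPred_eq] at *
    simp [ha]

lemma mem_EV {g : Wd κ} : g ∈ EV κ ↔ ∑ x, g x = 0 := Iff.rfl

lemma ed_mem_EV (p q : κ) : ed p q ∈ EV κ := by
  rw [mem_EV]
  simp only [ed, Pi.add_apply, sum_add_distrib, Pi.single_apply, sum_ite_eq', mem_univ, if_true]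
  decide

/-- The group `W` together with two more words. -/
def add2 (W : AddSubgroup (Wd κ)) (f f' : Wd κ) : AddSubgroup (Wd κ) where
  carrier := {g | ∃ u v : Bool, g + cb u f + cb v f' ∈ W}
  zero_mem' := ⟨false, false, by simp [cb]⟩
  add_mem' := by
    rintro a b ⟨u, v, h⟩ ⟨u', v', h'⟩
    refine ⟨u ^^ u', v ^^ v', ?_⟩
    rw [← cb_add, ← cb_add]
    have : a + b + (cb u f + cb u' f) + (cb v f' + cb v' f')
        = (a + cb u f + cb v f') + (b + cb u' f + cb v' f') := by abel
    rw [this]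
    exact W.add_mem h h'
  neg_mem' := by
    rintro a ⟨u, v, h⟩
    refine ⟨u, v, ?_⟩
    rw [neg_eq_self']
    exact h

lemma mem_add2 {W : AddSubgroup (Wd κ)} {f f' g : Wd κ} :
    g ∈ add2 W f f' ↔ ∃ u v : Bool, g + cb u f + cb v f' ∈ W := Iff.rfl

/-- The nonconstant words of the group are tiled by codes of six words. -/
def Tiled (t : ℕ) (W : AddSubgroup (Wd κ)) : Prop :=
  ∃ θ ∈ Til κ (6 * t) 6, ∀ g, ((g ∈ W ∧ g ≠ 0 ∧ g ≠ 1) → θ g = 1) ∧
      (¬ (g ∈ W ∧ g ≠ 0 ∧ g ≠ 1) → θ g = 0)

lemma one_mem_V0 (τ : κ → Fin 10) : (1 : Wd κ) ∈ V0 τ := by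
  refine ⟨1, ?_, rfl⟩
  decide

lemma crit_step {τ : κ → Fin 10} {t : ℕ} (ht : ∀ i, (univ.filter (fun x => τ x = i)).card = t)
    (ht1 : 1 ≤ t) {W : AddSubgroup (Wd κ)} (hV : V0 τ ≤ W) (hE : W ≤ EV κ) (hT : Tiled t W)
    {p q p' q' : κ} (h0 : τ p ≠ τ q) (h0' : τ p' ≠ τ q') (h1 : p ≠ p')
    (h2 : p ≠ q') (h3 : q ≠ p') (h4 : q ≠ q')
    (hd : dsj (tx (τ p) (τ q)) (tx (τ p') (τ q')) = true)
    (hf : ed p q ∉ W) (hf' : ed p' q' ∉ W) (hff : ed p q + ed p' q' ∉ W) :
    ∃ U : AddSubgroup (Wd κ), W < U ∧ U ≤ EV κ ∧ Tiled t U := by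
  classical
  have hpq : p ≠ q := fun h => h0 (by rw [h])
  have hpq' : p' ≠ q' := fun h => h0' (by rw [h])
  have hYW : ∀ a, yw τ a ∈ W := fun a => hV (yw_mem_V0 τ a)
  have hcbW : ∀ u v : Bool, cb u (ed p q) + cb v (ed p' q') ∈ W → u = false ∧ v = false := by
    intro u v h
    cases u <;> cases v
    · exact ⟨rfl, rfl⟩
    · exfalso
      simp only [cb, if_true] at h
      apply hf'
      simpa using h
    · exfalso
      simp only [cb, if_true] at h
      apply hf
      simpa using h
    · exfalso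
      simp only [cb, if_true] at h
      exact hff h
  obtain ⟨m, g1, g2, g3⟩ := good _ (mem_masks _ _ h0) _ (mem_masks _ _ h0') hd
  have hYS := yw_sw (τ := τ) hpq hpq' h1 h2 h3 h4
  have hcard := sw_card ht p q p' q'
  generalize hA : tx (τ p) (τ q) = A at *
  generalize hB : tx (τ p') (τ q') = B at *
  generalize hσ : sw τ p q p' q' = σ at *
  obtain ⟨x0, hx0⟩ : ∃ x0, σ x0 = m := by
    have : 0 < (univ.filter (fun x => σ x = m)).card := by
      rw [hcard]
      omega
    obtain ⟨x, hx⟩ := Finset.card_pos.mp this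
    exact ⟨x, (mem_filter.mp hx).2⟩
  -- the words
  let z : Wd κ := cb (ms A) (ed p q) + cb (ms B) (ed p' q')
  let w : Fin 6 → Wd κ := fun a => yw σ a + z
  have hw : ∀ a, w a = yw τ a + (cb (A.testBit a ^^ ms A) (ed p q)
      + cb (B.testBit a ^^ ms B) (ed p' q')) := by
    intro a
    show yw σ a + (cb (ms A) (ed p q) + cb (ms B) (ed p' q')) = _
    rw [hYS a, ← cb_add, ← cb_add]
    abel
  have hwx : ∀ a, w a x0 = (if tt m a then 1 else 0) + z x0 := by
    intro a
    show yw σ a x0 + z x0 = _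
    rw [yw_apply, hx0]
  let ℓ : Wd κ →+ ZMod 2 := Pi.evalAddMonoidHom (fun _ => ZMod 2) x0
  have hℓ : ∀ g, ℓ g = g x0 := fun g => rfl
  let U := add2 W (ed p q) (ed p' q')
  have hWU : W ≤ U := by
    intro g hg
    exact ⟨false, false, by simpa [cb] using hg⟩
  have hstep : ∃ θ ∈ Til κ (6 * t) 6, ∀ g, ((g ∈ U ∧ g ∉ W) → θ g = 1) ∧
      (¬ (g ∈ U ∧ g ∉ W) → θ g = 0) := by
    apply tile_one W U hWU ℓ w
    · intro a b hab
      show 6 * t ≤ hammingDist (yw σ a + z) (yw σ b + z)
      rw [hammingDist_add_right']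
      exact Sep_yw hcard a b hab
    · intro a
      refine ⟨A.testBit a ^^ ms A, B.testBit a ^^ ms B, ?_⟩
      rw [hw a]
      have : yw τ a + (cb (A.testBit a ^^ ms A) (ed p q) + cb (B.testBit a ^^ ms B) (ed p' q'))
          + cb (A.testBit a ^^ ms A) (ed p q) + cb (B.testBit a ^^ ms B) (ed p' q')
          = yw τ a + (cb (A.testBit a ^^ ms A) (ed p q) + cb (A.testBit a ^^ ms A) (ed p q))
            + (cb (B.testBit a ^^ ms B) (ed p' q') + cb (B.testBit a ^^ ms B) (ed p' q')) := by
        abel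
      rw [this, add_self', add_self', add_zero, add_zero]
      exact hYW a
    · intro a ha
      rw [hw a] at ha
      have := (W.add_mem_cancel_left (hYW a)).mp ha
      have h5 := hcbW _ _ this
      apply g1 a
      obtain ⟨h6, h7⟩ := h5
      constructor
      · revert h6
        cases A.testBit a <;> cases ms A <;> simp
      · revert h7
        cases B.testBit a <;> cases ms B <;> simp
    · rintro g ⟨u, v, huv⟩ hgW
      have hne : ¬ ((u ^^ ms A) = ms A ∧ (v ^^ ms B) = ms B) := by
        rintro ⟨h5, h6⟩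
        have hu : u = false := by
          revert h5
          cases u <;> cases ms A <;> simp
        have hv : v = false := by
          revert h6
          cases v <;> cases ms B <;> simp
        subst hu hv
        apply hgW
        simpa [cb] using huv
      obtain ⟨a, e1, e2, e3⟩ := g2 _ _ (decide (g x0 + z x0 = 1)) hne
      refine ⟨a, ?_, ?_⟩
      · rw [hw a, e1, e2]
        have h5 : ((u ^^ ms A) ^^ ms A) = u := by cases u <;> cases ms A <;> rfl
        have h6 : ((v ^^ ms B) ^^ ms B) = v := by cases v <;> cases ms B <;> rfl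
        rw [h5, h6]
        have : g + (yw τ a + (cb u (ed p q) + cb v (ed p' q')))
            = yw τ a + (g + cb u (ed p q) + cb v (ed p' q')) := by abel
        rw [this]
        exact W.add_mem (hYW a) huv
      · rw [hℓ, Pi.add_apply, hwx a, e3]
        have h7 : ∀ r s : ZMod 2, r + ((if decide (r + s = 1) = true then 1 else 0) + s) = 0 := by
          decide
        exact h7 _ _
    · intro a b hab hl
      rw [hw a, hw b] at hab
      have e : yw τ a + (cb (A.testBit a ^^ ms A) (ed p q) + cb (B.testBit a ^^ ms B) (ed p' q'))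
          + (yw τ b + (cb (A.testBit b ^^ ms A) (ed p q) + cb (B.testBit b ^^ ms B) (ed p' q')))
          = (yw τ a + yw τ b) + ((cb (A.testBit a ^^ ms A) (ed p q)
            + cb (A.testBit b ^^ ms A) (ed p q)) + (cb (B.testBit a ^^ ms B) (ed p' q')
            + cb (B.testBit b ^^ ms B) (ed p' q'))) := by abel
      rw [e, cb_add, cb_add] at hab
      have h5 := (W.add_mem_cancel_left (W.add_mem (hYW a) (hYW b))).mp hab
      obtain ⟨h6, h7⟩ := hcbW _ _ h5
      apply g3 a b
      · revert h6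
        cases A.testBit a <;> cases A.testBit b <;> cases ms A <;> simp
      · revert h7
        cases B.testBit a <;> cases B.testBit b <;> cases ms B <;> simp
      · rw [hℓ, Pi.add_apply, hwx, hwx] at hl
        revert hl
        generalize z x0 = s
        revert s
        cases tt m a <;> cases tt m b <;> decide
  obtain ⟨θ₀, hθ₀, h₀⟩ := hT
  obtain ⟨θ₁, hθ₁, h₁⟩ := hstep
  have hfU : ed p q ∈ U := ⟨true, false, by simp [cb, add_self', W.zero_mem]⟩
  refine ⟨U, ⟨hWU, fun h => hf (h hfU)⟩, ?_, θ₀ + θ₁, add_mem hθ₀ hθ₁, fun g => ?_⟩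
  · rintro g ⟨u, v, huv⟩
    have h5 := hE huv
    have h6 : ∀ b : Bool, ∀ r s : κ, cb b (ed r s) ∈ EV κ := by
      intro b r s
      cases b
      · simp only [cb]
        exact (EV κ).zero_mem
      · simp only [cb, if_true]
        exact ed_mem_EV r s
    exact ((EV κ).add_mem_cancel_right (h6 u p q)).mp (((EV κ).add_mem_cancel_right
      (h6 v p' q')).mp h5)
  · have h0W : (0 : Wd κ) ∈ W := W.zero_mem
    have h1W : (1 : Wd κ) ∈ W := hV (one_mem_V0 τ)
    rw [Pi.add_apply]
    constructor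
    · rintro ⟨a1, a2, a3⟩
      by_cases hgW : g ∈ W
      · rw [(h₀ g).1 ⟨hgW, a2, a3⟩, (h₁ g).2 (fun h => h.2 hgW)]
      · rw [(h₀ g).2 (fun h => hgW h.1), (h₁ g).1 ⟨a1, hgW⟩]
    · intro hn
      rw [(h₀ g).2 (fun h => hn ⟨hWU h.1, h.2⟩), (h₁ g).2]
      rintro ⟨a1, a2⟩
      apply hn
      refine ⟨a1, ?_, ?_⟩
      · rintro rfl
        exact a2 h0W
      · rintro rfl
        exact a2 h1W

end

end MP7d5fe8
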