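import Pool.Agent.Work.MP_7d5fe8_co.CritMax
import Pool.Agent.Work.MP_7d5fe8_co.CritLower

/-! The chromatic numbers on the critical line. -/

open Finset

namespace MP7d5fe8

set_option linter.unusedSectionVars false

section
variable {κ : Type} [Fintype κ] [DecidableEq κ]

lemma exists_type {t : ℕ} (hκ : Fintype.card κ = 10 * t) :
    ∃ τ : κ → Fin 10, ∀ i, (univ.filter (fun x => τ x = i)).card = t := by
  have h : Fintype.card κ = Fintype.card (Fin 10 × Fin t) := by
    rw [hκ, Fintype.card_prod, Fintype.card_fin, Fintype.card_fin]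
  let e : κ ≃ Fin 10 × Fin t := Fintype.equivOfCardEq h
  refine ⟨fun x => (e x).1, fun i => ?_⟩
  have : (univ.filter (fun x => (e x).1 = i)).card = (univ : Finset (Fin t)).card := by
    refine Finset.card_bij' (fun x _ => (e x).2) (fun y _ => e.symm (i, y)) ?_ ?_ ?_ ?_
    · intro x _
      exact mem_univ _
    · intro y _
      rw [mem_filter]
      refine ⟨mem_univ _, ?_⟩
      rw [Equiv.apply_symm_apply]
    · intro x hx
      rw [mem_filter] at hx
      rw [← hx.2]
      exact e.symm_apply_apply x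
    · intro y _
      rw [Equiv.apply_symm_apply]
  rw [this, card_univ, Fintype.card_fin]

/-- Colouring of the words of even weight. -/
lemma colour_EV {t : ℕ} (hκ : Fintype.card κ = 10 * t) (ht : 1 ≤ t) :
    ∃ (K : ℕ) (col : Wd κ → Fin (K + 1)), 2 * (6 * K + 2) = 2 ^ (10 * t) ∧
      ∀ g ∈ EV κ, ∀ g' ∈ EV κ, g ≠ g' → col g = col g' → 6 * t ≤ hammingDist g g' := by
  classical
  obtain ⟨τ, hτ⟩ := exists_type hκ
  have hT := tiled_EV hτ ht
  have h1W : (1 : Wd κ) ∈ EV κ := by
    rw [mem_EV]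
    simp only [Pi.one_apply, sum_const, card_univ, hκ, nsmul_eq_mul, mul_one]
    rw [ZMod.natCast_eq_zero_iff]
    exact ⟨5 * t, by ring⟩
  obtain ⟨x0⟩ : Nonempty κ := by
    rw [← Fintype.card_pos_iff, hκ]
    omega
  have h01 : (0 : Wd κ) ≠ 1 := by
    intro h
    exact zero_ne_one (congrFun h x0)
  obtain ⟨θ, hθ, h⟩ := hT
  obtain ⟨K, iK, c, hc, hτc⟩ := Til_explicit hθ
  have e1 : (∑ g : Wd κ, θ g) = Fintype.card K * 6 := by
    simp only [hτc]
    rw [sum_comm]
    have : ∀ k : K, (∑ g : Wd κ, ∑ i : Fin 6, if c k i = g then 1 else 0) = 6 := by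
      intro k
      rw [sum_comm]
      simp
    rw [sum_congr rfl (fun k _ => this k), sum_const, card_univ, smul_eq_mul]
  have e2 : (∑ g : Wd κ, θ g) = ∑ g : Wd κ, if (g ∈ EV κ ∧ g ≠ 0 ∧ g ≠ 1) then 1 else 0 := by
    apply sum_congr rfl
    intro g _
    split
    · next hg => exact (h g).1 hg
    · next hg => exact (h g).2 hg
  rw [← card_filter, e1] at e2
  have e3 : univ.filter (fun g => g ∈ EV κ)
      = univ.filter (fun g => g ∈ EV κ ∧ g ≠ 0 ∧ g ≠ 1) ∪ {0, 1} := by
    ext g
    simp only [mem_filter, mem_univ, true_and, mem_union, mem_insert, mem_singleton]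
    constructor
    · intro hg
      by_cases g0 : g = 0
      · exact Or.inr (Or.inl g0)
      by_cases g1 : g = 1
      · exact Or.inr (Or.inr g1)
      exact Or.inl ⟨hg, g0, g1⟩
    · rintro (h | rfl | rfl)
      · exact h.1
      · exact (EV κ).zero_mem
      · exact h1W
  have e4 : (univ.filter (fun g => g ∈ EV κ)).card = 6 * Fintype.card K + 2 := by
    rw [e3, card_union_of_disjoint, ← e2, card_pair h01]
    · omega
    · rw [Finset.disjoint_left]
      intro g h1 h2
      simp only [mem_filter, mem_univ, true_and] at h1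
      simp only [mem_insert, mem_singleton] at h2
      rcases h2 with rfl | rfl
      · exact h1.2.1 rfl
      · exact h1.2.2 rfl
  have e5 := card_EV x0
  rw [e4, hκ] at e5
  have hex : ∀ g, (g ∈ EV κ ∧ g ≠ 0 ∧ g ≠ 1) → ∃ k i, c k i = g := by
    intro g hg
    by_contra hne
    push Not at hne
    have : θ g = 0 := by
      rw [hτc]
      apply sum_eq_zero
      intro k _
      apply sum_eq_zero
      intro i _
      rw [if_neg (hne k i)]
    rw [(h g).1 hg] at this
    exact one_ne_zero this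
  choose kk ii hki using hex
  let col0 : Wd κ → Option K := fun g =>
    if hg : (g ∈ EV κ ∧ g ≠ 0 ∧ g ≠ 1) then some (kk g hg) else none
  have hcardO : Fintype.card (Option K) = Fintype.card (Fin (Fintype.card K + 1)) := by
    rw [Fintype.card_option, Fintype.card_fin]
  let e := Fintype.equivOfCardEq hcardO
  refine ⟨Fintype.card K, fun g => e (col0 g), e5, ?_⟩
  intro g hg g' hg' hne heq
  have heq' : col0 g = col0 g' := e.injective heq
  by_cases hp : (g ∈ EV κ ∧ g ≠ 0 ∧ g ≠ 1) <;> by_cases hq : (g' ∈ EV κ ∧ g' ≠ 0 ∧ g' ≠ 1)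
  · simp only [col0, dif_pos hp, dif_pos hq, Option.some.injEq] at heq'
    have a1 := hki g hp
    have a2 := hki g' hq
    rw [← heq'] at a2
    have hii : ii g hp ≠ ii g' hq := by
      intro hii
      rw [← hii] at a2
      exact hne (a1.symm.trans a2)
    have := hc (kk g hp) _ _ hii
    rwa [a1, a2] at this
  · simp only [col0, dif_pos hp, dif_neg hq] at heq'
    exact absurd heq' (by simp)
  · simp only [col0, dif_neg hp, dif_pos hq] at heq'
    exact absurd heq' (by simp)
  · have b1 : g = 0 ∨ g = 1 := by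
      by_contra hcon
      push Not at hcon
      exact hp ⟨hg, hcon⟩
    have b2 : g' = 0 ∨ g' = 1 := by
      by_contra hcon
      push Not at hcon
      exact hq ⟨hg', hcon⟩
    have hd : hammingDist (0 : Wd κ) 1 = 10 * t := by
      unfold hammingDist
      have : univ.filter (fun i => (0 : Wd κ) i ≠ (1 : Wd κ) i) = univ := by
        apply filter_true_of_mem
        intro i _
        exact zero_ne_one
      rw [this, card_univ, hκ]
    rcases b1 with rfl | rfl <;> rcases b2 with rfl | rfl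
    · exact absurd rfl hne
    · rw [hd]
      omega
    · rw [hammingDist_comm, hd]
      omega
    · exact absurd rfl hne

lemma dist_ind (S T : Finset κ) : hammingDist (ind S) (ind T) = (symmDiff S T).card := by
  unfold hammingDist
  congr 1
  ext i
  rw [Finset.mem_filter, mem_symmDiff]
  unfold ind
  by_cases h1 : i ∈ S <;> by_cases h2 : i ∈ T <;> simp [h1, h2]

lemma ind_inj {S T : Finset κ} (h : (ind S : Wd κ) = ind T) : S = T := by
  have := dist_ind S T
  rw [h, hammingDist_self] at this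
  exact symmDiff_eq_bot.mp (card_eq_zero.mp this.symm)

lemma ind_mem_EV (S : Finset κ) : (ind S : Wd κ) ∈ EV κ ↔ S.card % 2 = 0 := by
  rw [mem_EV]
  unfold ind
  rw [← Finset.sum_filter, sum_const, nsmul_eq_mul, mul_one, ZMod.natCast_eq_zero_iff,
    Nat.dvd_iff_mod_eq_zero, filter_mem_eq_inter, univ_inter]

end

lemma par_even {n : ℕ} (x : Finset (Fin n)) : (par x).card % 2 = 0 := by
  have h0 : par (∅ : Finset (Fin n)) = ∅ := by
    unfold par
    simp
  have h := card_symmDiff_par x ∅
  rw [h0, ← bot_eq_empty, ← bot_eq_empty, symmDiff_bot, symmDiff_bot] at h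
  rw [h]
  split
  · next ho =>
    obtain ⟨k, hk⟩ := ho
    omega
  · next ho =>
    rw [Nat.not_odd_iff_even, Nat.even_iff] at ho
    omega

lemma upper_even_aux {t K : ℕ} (ht : 1 ≤ t) {col : Wd (Fin (10 * t - 1 + 1)) → Fin (K + 1)}
    (hcol : ∀ g ∈ EV (Fin (10 * t - 1 + 1)), ∀ g' ∈ EV (Fin (10 * t - 1 + 1)), g ≠ g' →
      col g = col g' → 6 * t ≤ hammingDist g g') {x y : Finset (Fin (10 * t - 1))}
    (hxy : (QPow (10 * t - 1) (6 * t - 2)).Adj x y)
    (heq : col (ind (par x)) = col (ind (par y))) : False := by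
  have h1 := card_symmDiff_par x y
  have hne : (ind (par x) : Wd (Fin (10 * t - 1 + 1))) ≠ ind (par y) := by
    intro h
    rw [ind_inj h, symmDiff_self] at h1
    have := hxy.1
    simp only [bot_eq_empty, card_empty] at h1
    omega
  have h2 := hcol _ ((ind_mem_EV _).mpr (par_even x)) _ ((ind_mem_EV _).mpr (par_even y)) hne heq
  rw [dist_ind, h1] at h2
  have h3 := hxy.2
  have h4 : (if Odd (symmDiff x y).card then 1 else 0) ≤ 1 := by
    split <;> omega
  omega

lemma upper_even {t : ℕ} (ht : 1 ≤ t) : ∃ K, 2 * (6 * K + 2) = 2 ^ (10 * t) ∧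
    (QPow (10 * t - 1) (6 * t - 2)).Colorable (K + 1) := by
  have hn : 10 * t - 1 + 1 = 10 * t := by omega
  obtain ⟨K, col, hK, hcol⟩ := colour_EV (κ := Fin (10 * t - 1 + 1)) (t := t)
    (by rw [Fintype.card_fin, hn]) ht
  refine ⟨K, hK, ?_⟩
  have hf : ∀ {x y}, (QPow (10 * t - 1) (6 * t - 2)).Adj x y →
      col (ind (par x)) ≠ col (ind (par y)) := by
    intro x y hxy heq
    exact upper_even_aux ht hcol hxy heq
  have h := (SimpleGraph.Coloring.mk (fun x => col (ind (par x))) hf).colorable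
  rwa [Fintype.card_fin] at h

lemma upper_odd {t : ℕ} (ht : 1 ≤ t) : ∃ K, 2 * (6 * K + 2) = 2 ^ (10 * t) ∧
    (QPow (10 * t) (6 * t - 1)).Colorable (2 * (K + 1)) := by
  obtain ⟨K, col, hK, hcol⟩ := colour_EV (κ := Fin (10 * t)) (t := t)
    (by rw [Fintype.card_fin]) ht
  refine ⟨K, hK, ?_⟩
  have hpos : 0 < 10 * t := by omega
  let o : Finset (Fin (10 * t)) := {⟨0, hpos⟩}
  have hc : ∀ x : Finset (Fin (10 * t)), (symmDiff x o).card % 2 = (x.card + 1) % 2 := by
    intro x
    rw [parity_symmDiff, card_singleton]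
  have hcard : Fintype.card (Fin (K + 1) ⊕ Fin (K + 1)) = 2 * (K + 1) := by
    rw [Fintype.card_sum, Fintype.card_fin]
    ring
  rw [← hcard]
  let f : Finset (Fin (10 * t)) → Fin (K + 1) ⊕ Fin (K + 1) := fun x =>
    if x.card % 2 = 0 then Sum.inl (col (ind x)) else Sum.inr (col (ind (symmDiff x o)))
  have hf : ∀ {x y}, (QPow (10 * t) (6 * t - 1)).Adj x y → f x ≠ f y := by
    intro x y hxy heq
    have h3 := hxy.2
    have hxy' : x ≠ y := hxy.ne
    by_cases hx : x.card % 2 = 0 <;> by_cases hy : y.card % 2 = 0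
    · simp only [f, hx, hy, if_true] at heq
      have h2 := hcol _ ((ind_mem_EV _).mpr hx) _ ((ind_mem_EV _).mpr hy)
        (fun h => hxy' (ind_inj h)) (Sum.inl_injective heq)
      rw [dist_ind] at h2
      omega
    · simp only [f, hx, hy, if_true, if_false] at heq
      exact absurd heq (by simp)
    · simp only [f, hx, hy, if_true, if_false] at heq
      exact absurd heq (by simp)
    · simp only [f, hx, hy, if_false] at heq
      have hx' : (symmDiff x o).card % 2 = 0 := by
        rw [hc]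
        omega
      have hy' : (symmDiff y o).card % 2 = 0 := by
        rw [hc]
        omega
      have h2 := hcol _ ((ind_mem_EV _).mpr hx') _ ((ind_mem_EV _).mpr hy')
        (fun h => hxy' (symmDiff_left_injective o (ind_inj h))) (Sum.inr_injective heq)
      rw [dist_ind, symmDiff_symmDiff_symmDiff_comm, symmDiff_self, symmDiff_bot] at h2
      omega
  exact (SimpleGraph.Coloring.mk f hf).colorable

/-- The chromatic numbers on the critical line of codes with six words. -/
theorem critical {t : ℕ} (ht : 1 ≤ t) :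
    (QPow (10 * t) (6 * t - 1)).chromaticNumber = ((2 ^ (10 * t) + 8) / 6 : ℕ) ∧
    (QPow (10 * t - 1) (6 * t - 2)).chromaticNumber = ((2 ^ (10 * t - 1) + 4) / 6 : ℕ) := by
  have hpow : 2 ^ (10 * t) = 2 * 2 ^ (10 * t - 1) := by
    rw [← pow_succ']
    congr 1
    omega
  constructor
  · obtain ⟨K, hK, hcol⟩ := upper_odd ht
    have hval : (2 ^ (10 * t) + 8) / 6 = 2 * (K + 1) := by
      rw [← hK]
      omega
    rw [hval]
    apply le_antisymm hcol.chromaticNumber_le
    unfold SimpleGraph.chromaticNumber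
    refine le_iInf₂ fun c hc => ?_
    rw [Nat.cast_le]
    have h := crit_lower (n := 10 * t) (m := 3) (t := t) (c := c) (by norm_num) (by decide)
      le_rfl ht (by
        refine ⟨2 * K + 1, ?_⟩
        rw [hpow] at hK
        omega) hc
    rw [← hK] at h
    omega
  · obtain ⟨K, hK, hcol⟩ := upper_even ht
    have hval : (2 ^ (10 * t - 1) + 4) / 6 = K + 1 := by
      rw [hpow] at hK
      omega
    rw [hval]
    apply le_antisymm hcol.chromaticNumber_le
    unfold SimpleGraph.chromaticNumber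
    refine le_iInf₂ fun c hc => ?_
    rw [Nat.cast_le]
    have h := lower (m := 3) (n := 10 * t - 1) (d := 6 * t - 2) (c := c) (by norm_num) (by
      right
      refine ⟨⟨3 * t - 1, by omega⟩, by omega⟩) hc
    rw [hpow] at hK
    omega

/-- The counting bound is not attained on many critical lines. -/
theorem critical_gap {m t : ℕ} (hm : Odd m) (hm3 : 3 ≤ m) (ht : 1 ≤ t)
    (hmod : m ∣ 2 ^ (2 * (2 * m - 1) * t - 1) + 1) :
    ((⌈(2 ^ (2 * (2 * m - 1) * t) : ℚ) / (2 * m)⌉₊ : ℕ) : ℕ∞)
      < (QPow (2 * (2 * m - 1) * t) (2 * m * t - 1)).chromaticNumber := by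
  have hn1 : 1 ≤ 2 * (2 * m - 1) * t := by
    have : 1 ≤ 2 * (2 * m - 1) := by omega
    nlinarith
  have hpow : 2 ^ (2 * (2 * m - 1) * t) = 2 * 2 ^ (2 * (2 * m - 1) * t - 1) := by
    rw [← pow_succ']
    congr 1
    omega
  obtain ⟨q, hq⟩ := hmod
  have h2 : 2 ^ (2 * (2 * m - 1) * t) + 2 = 2 * m * q := by
    rw [hpow]
    calc 2 * 2 ^ (2 * (2 * m - 1) * t - 1) + 2 = 2 * (2 ^ (2 * (2 * m - 1) * t - 1) + 1) := by ring
      _ = 2 * m * q := by rw [hq]; ring
  have hceil : ⌈(2 ^ (2 * (2 * m - 1) * t) : ℚ) / (2 * m)⌉₊ ≤ q := by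
    rw [Nat.ceil_le, div_le_iff₀ (by positivity)]
    have : ((2 ^ (2 * (2 * m - 1) * t) + 2 : ℕ) : ℚ) = ((2 * m * q : ℕ) : ℚ) := by rw [h2]
    push_cast at this
    linarith
  refine lt_of_le_of_lt (Nat.cast_le.mpr hceil) ?_
  have h1 : ((q + 1 : ℕ) : ℕ∞)
      ≤ (QPow (2 * (2 * m - 1) * t) (2 * m * t - 1)).chromaticNumber := by
    unfold SimpleGraph.chromaticNumber
    refine le_iInf₂ fun c hc => ?_
    rw [Nat.cast_le]
    have h := crit_lower rfl hm hm3 ht ⟨q, hq⟩ hc
    rw [h2] at h
    exact Nat.lt_of_mul_lt_mul_left h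
  refine lt_of_lt_of_le ?_ h1
  rw [Nat.cast_lt]
  exact Nat.lt_succ_self q

end MP7d5fe8
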