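import Pool.Agent.Work.MP_7d5fe8_co.Lower

/-! The exact value in the Plotkin range. -/

open Finset

namespace MP7d5fe8

/-- Change the index type of the coordinates. -/
lemma Sep_reindex {M D n : ℕ} {κ : Type} [Fintype κ] [DecidableEq κ] (b : Fin M → Wd κ)
    (hb : Sep D b) (hn : Fintype.card κ = n) : ∃ a : Fin M → Wd (Fin n), Sep D a := by
  subst hn
  let e := Fintype.equivFin κ
  refine ⟨fun i c => b i (e.symm c), fun i j hij => ?_⟩
  refine (hb i j hij).trans ?_
  unfold hammingDist
  apply Finset.card_le_card_of_injOn e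
  · intro c hc
    simp only [coe_filter, mem_univ, true_and, Set.mem_ofPred_eq] at hc
    simp only [coe_filter, mem_univ, true_and, Set.mem_ofPred_eq, Equiv.symm_apply_apply]
    exact hc
  · exact e.injective.injOn

lemma Sep_repeat {M D n : ℕ} (t : ℕ) (b : Fin M → Wd (Fin n)) (hb : Sep D b) :
    ∃ a : Fin M → Wd (Fin (t * n)), Sep (t * D) a := by
  refine Sep_reindex (κ := Fin t × Fin n) (fun i c => b i c.2) ?_ (by simp)
  intro i j hij
  have h1 : hammingDist (fun c : Fin t × Fin n => b i c.2) (fun c => b j c.2)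
      = t * hammingDist (b i) (b j) := by
    have e : ∀ x : Fin t, (∑ y : Fin n, if b i (x, y).2 ≠ b j (x, y).2 then 1 else 0)
        = hammingDist (b i) (b j) := by
      intro x
      unfold hammingDist
      rw [card_filter]
    conv_lhs => unfold hammingDist
    rw [card_filter, Fintype.sum_prod_type, Finset.sum_congr rfl (fun x _ => e x),
      Finset.sum_const, card_univ, Fintype.card_fin, smul_eq_mul]
  rw [h1]
  exact Nat.mul_le_mul_left t (hb i j hij)

/-- The code whose columns are all balanced words. -/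
lemma complete_code (m : ℕ) (hm : 1 ≤ m) :
    ∃ (Δ : ℕ) (b : Fin (2 * m) → Wd (Fin (Nat.centralBinom m))), Sep Δ b ∧
      m * Nat.centralBinom m = (2 * m - 1) * Δ := by
  classical
  obtain ⟨k, rfl⟩ : ∃ k, m = k + 1 := ⟨m - 1, by omega⟩
  set m := k + 1 with hmk
  let s : Finset (Finset (Fin (2 * m))) := powersetCard m univ
  have hs : Fintype.card {τ // τ ∈ s} = Nat.centralBinom m := by
    rw [Fintype.card_coe, card_powersetCard, card_univ, Fintype.card_fin, Nat.centralBinom]
  have hsep : Sep (2 * Nat.centralBinom k)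
      (fun (i : Fin (2 * m)) (τ : {τ // τ ∈ s}) => if i ∈ τ.1 then (1 : ZMod 2) else 0) := by
    intro i j hij
    have h1 : hammingDist (fun (τ : {τ // τ ∈ s}) => if i ∈ τ.1 then (1 : ZMod 2) else 0)
        (fun (τ : {τ // τ ∈ s}) => if j ∈ τ.1 then (1 : ZMod 2) else 0)
        = (s.filter (fun τ => ¬ (i ∈ τ ↔ j ∈ τ))).card := by
      unfold hammingDist
      rw [card_filter, card_filter, ← Finset.sum_coe_sort s]
      apply sum_congr rfl
      rintro ⟨τ, hτ⟩ _
      by_cases hi : i ∈ τ <;> by_cases hj : j ∈ τ <;> simp [hi, hj]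
    rw [h1]
    let P : Finset (Finset (Fin (2 * m))) := powersetCard k (univ \ {i, j})
    have hP : P.card = Nat.centralBinom k := by
      rw [card_powersetCard, card_sdiff_of_subset (subset_univ _), card_univ, Fintype.card_fin,
        card_pair hij, Nat.centralBinom]
      congr 1
    have hmemP : ∀ τ ∈ P, i ∉ τ ∧ j ∉ τ ∧ τ.card = k := by
      intro τ hτ
      rw [mem_powersetCard] at hτ
      refine ⟨fun h => ?_, fun h => ?_, hτ.2⟩
      · have := hτ.1 h
        simp at this
      · have := hτ.1 h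
        simp at this
    have hdisj : Disjoint (P.image (insert i)) (P.image (insert j)) := by
      rw [disjoint_left]
      intro τ h1 h2
      rw [mem_image] at h1 h2
      obtain ⟨τ₁, h1, rfl⟩ := h1
      obtain ⟨τ₂, h2, h3⟩ := h2
      have : j ∈ insert i τ₁ := by rw [← h3]; exact mem_insert_self _ _
      rw [mem_insert] at this
      rcases this with h | h
      · exact hij h.symm
      · exact (hmemP τ₁ h1).2.1 h
    have hinj : ∀ l, (l = i ∨ l = j) → Set.InjOn (insert l) (P : Set (Finset (Fin (2 * m)))) := by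
      intro l hl τ₁ h1 τ₂ h2 h
      have e1 : l ∉ τ₁ := by
        rcases hl with rfl | rfl
        · exact (hmemP τ₁ h1).1
        · exact (hmemP τ₁ h1).2.1
      have e2 : l ∉ τ₂ := by
        rcases hl with rfl | rfl
        · exact (hmemP τ₂ h2).1
        · exact (hmemP τ₂ h2).2.1
      rw [← erase_insert e1, ← erase_insert e2, h]
    have hsub : P.image (insert i) ∪ P.image (insert j) ⊆ s.filter (fun τ => ¬ (i ∈ τ ↔ j ∈ τ)) := by
      intro τ hτ
      rw [mem_union, mem_image, mem_image] at hτ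
      rw [mem_filter]
      rcases hτ with ⟨τ₁, h1, rfl⟩ | ⟨τ₁, h1, rfl⟩
      · obtain ⟨a1, a2, a3⟩ := hmemP τ₁ h1
        refine ⟨?_, ?_⟩
        · rw [mem_powersetCard]
          exact ⟨subset_univ _, by rw [card_insert_of_notMem a1, a3]⟩
        · simp [a2, hij.symm]
      · obtain ⟨a1, a2, a3⟩ := hmemP τ₁ h1
        refine ⟨?_, ?_⟩
        · rw [mem_powersetCard]
          exact ⟨subset_univ _, by rw [card_insert_of_notMem a2, a3]⟩
        · simp [a1, hij]
    calc 2 * Nat.centralBinom k = (P.image (insert i) ∪ P.image (insert j)).card := by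
          rw [card_union_of_disjoint hdisj, card_image_of_injOn (hinj i (Or.inl rfl)),
            card_image_of_injOn (hinj j (Or.inr rfl)), hP, two_mul]
      _ ≤ _ := card_le_card hsub
  obtain ⟨a, ha⟩ := Sep_reindex _ hsep hs
  refine ⟨_, a, ha, ?_⟩
  have := Nat.succ_mul_centralBinom_succ k
  have e : 2 * m - 1 = 2 * k + 1 := by omega
  rw [e, hmk, this]
  ring

lemma chromatic_of_bounds {m n d : ℕ} (hm : 1 ≤ m)
    (hlow : ∀ c, (QPow n d).Colorable c → 2 ^ n ≤ 2 * m * c)
    (hup : (QPow n d).Colorable ((2 ^ n + 2 * m - 1) / (2 * m))) :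
    (QPow n d).chromaticNumber = ((2 ^ n + 2 * m - 1) / (2 * m) : ℕ) := by
  apply le_antisymm hup.chromaticNumber_le
  unfold SimpleGraph.chromaticNumber
  refine le_iInf₂ fun c hc => ?_
  have h := hlow c hc
  rw [Nat.cast_le]
  have : (2 ^ n + 2 * m - 1) / (2 * m) < c + 1 := by
    rw [Nat.div_lt_iff_lt_mul (by omega)]
    have : (c + 1) * (2 * m) = 2 * m * c + 2 * m := by ring
    omega
  omega

/-- Exact value, from any code meeting the Plotkin bound. -/
theorem exact_general {m N Δ n d : ℕ} (hm : 1 ≤ m) (hN : 1 ≤ N) (b : Fin (2 * m) → Wd (Fin N))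
    (hb : Sep Δ b) (hΔ : m * N ≤ (2 * m - 1) * Δ)
    (hlow : (m + 1) * n < (2 * m + 1) * (d + 1) ∨
      (Even d ∧ (m + 1) * (n + 1) < (2 * m + 1) * (d + 2)))
    (hup : (2 * m - 1) * (d + 1 + N + 10 * m) ≤ m * n) :
    (QPow n d).chromaticNumber = ((2 ^ n + 2 * m - 1) / (2 * m) : ℕ) := by
  apply chromatic_of_bounds hm (fun c hc => lower hm hlow hc)
  obtain ⟨r, hr⟩ : ∃ r, 2 * m - 1 = m + r := ⟨m - 1, by omega⟩
  have hr' : m = r + 1 := by omega
  have hn8 : 8 * m ≤ n := by
    by_contra hlt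
    rw [not_le] at hlt
    have h1 : m * n < m * (8 * m) := Nat.mul_lt_mul_of_pos_left hlt hm
    have h2 : m * (8 * m) ≤ (2 * m - 1) * (d + 1 + N + 10 * m) :=
      Nat.mul_le_mul (by omega) (by omega)
    omega
  obtain ⟨p, hp⟩ := Nat.exists_eq_add_of_le hn8
  set t := p / N with ht
  have ht1 : t * N ≤ p := Nat.div_mul_le_self p N
  have ht2 : p < (t + 1) * N := by
    have := Nat.lt_div_mul_add (a := p) (b := N) hN
    rw [add_mul, one_mul]
    exact this
  obtain ⟨a, ha⟩ := Sep_repeat t b hb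
  have hkey : d + 1 + 2 * m ≤ t * Δ := by
    have h1 : (2 * m - 1) * (d + 1 + 2 * m) ≤ (2 * m - 1) * (t * Δ) := by
      have h2 : t * (m * N) ≤ t * ((2 * m - 1) * Δ) := Nat.mul_le_mul_left t hΔ
      have h3 : m * p ≤ m * ((t + 1) * N) := Nat.mul_le_mul_left m ht2.le
      rw [hr] at h2 hup ⊢
      rw [hp] at hup
      nlinarith [Nat.zero_le (r * N), Nat.zero_le (r * m)]
    exact Nat.le_of_mul_le_mul_left h1 (by omega)
  have ha' : Sep (d + 1 + 2 * m) a := fun i j hij => hkey.trans (ha i j hij)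
  exact colorable (by omega) (by omega) ha'

lemma ten_mul_le (m : ℕ) (hm : 1 ≤ m) : 10 * m ≤ 3 * 4 ^ m := by
  induction m, hm using Nat.le_induction with
  | base => norm_num
  | succ k hk ih => rw [pow_succ]; omega

/-- Exact value with an explicit constant. -/
theorem exact_explicit {m n d : ℕ} (hm : 1 ≤ m)
    (hlow : (m + 1) * n < (2 * m + 1) * (d + 1) ∨
      (Even d ∧ (m + 1) * (n + 1) < (2 * m + 1) * (d + 2)))
    (hup : (2 * m - 1) * (d + 1 + 4 ^ (m + 1)) ≤ m * n) :
    (QPow n d).chromaticNumber = ((2 ^ n + 2 * m - 1) / (2 * m) : ℕ) := by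
  obtain ⟨Δ, b, hb, hΔ⟩ := complete_code m hm
  refine exact_general hm (Nat.centralBinom_pos m) b hb hΔ.le hlow (le_trans ?_ hup)
  apply Nat.mul_le_mul_left
  have h1 : Nat.centralBinom m ≤ 4 ^ m := by
    rw [Nat.centralBinom]
    calc (2 * m).choose m ≤ 2 ^ (2 * m) := Nat.choose_le_two_pow _ _
      _ = 4 ^ m := by rw [pow_mul]; norm_num
  have h2 := ten_mul_le m hm
  rw [pow_succ]
  omega

end MP7d5fe8
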