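import Pool.Agent.Work.MP_7d5fe8_co.Lattice
import Pool.Agent.Work.MP_7d5fe8_co.Exact

/-! Existence of codes meeting the Plotkin bound for all large lengths. -/

open Finset

namespace MP7d5fe8

set_option linter.unusedSectionVars false

variable {m : ℕ}

lemma sep_self (τ : Finset (Fin (2 * m))) (i : Fin (2 * m)) : sep τ i i = 0 := by simp [sep]

lemma sep_comm (τ : Finset (Fin (2 * m))) (i j : Fin (2 * m)) : sep τ i j = sep τ j i := by
  unfold sep
  by_cases hi : i ∈ τ <;> by_cases hj : j ∈ τ <;> simp [hi, hj]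

/-- Indicator of being different. -/
def nq (a b : ZMod 2) : ℤ := if a ≠ b then 1 else 0

lemma val_ne_sep (τ : Bal m) (i j : Fin (2 * m)) :
    nq (val τ i) (val τ j) = sep τ.1 i j := by
  unfold nq sep val
  by_cases hi : i ∈ τ.1 <;> by_cases hj : j ∈ τ.1 <;> simp [hi, hj]

lemma sum_sep (τ : Bal m) (i : Fin (2 * m)) : ∑ j, sep τ.1 i j = m := by
  have hc : τ.1.card = m := (mem_powersetCard.mp τ.2).2
  by_cases hi : i ∈ τ.1
  · have : ∀ j, sep τ.1 i j = if j ∈ τ.1ᶜ then 1 else 0 := by
      intro j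
      unfold sep
      by_cases hj : j ∈ τ.1 <;> simp [hi, hj]
    simp only [this]
    rw [Finset.sum_ite_mem, univ_inter, sum_const, card_compl, Fintype.card_fin, hc]
    simp
    omega
  · have : ∀ j, sep τ.1 i j = if j ∈ τ.1 then 1 else 0 := by
      intro j
      unfold sep
      by_cases hj : j ∈ τ.1 <;> simp [hi, hj]
    simp only [this]
    rw [Finset.sum_ite_mem, univ_inter, sum_const, hc]
    simp

lemma hammingDist_int {κ : Type} [Fintype κ] [DecidableEq κ] (x y : Wd κ) :
    (hammingDist x y : ℤ) = ∑ c, nq (x c) (y c) := by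
  unfold hammingDist nq
  rw [card_filter]
  push_cast
  rfl

/-- The partner of an index. -/
noncomputable def ptn (i : Fin (2 * m)) : Fin (2 * m) :=
  (prs m).symm ((prs m i).1, (prs m i).2 + 1)

lemma ptn_ne (i : Fin (2 * m)) : ptn i ≠ i := by
  intro h
  have := congrArg (fun x => (prs m x).2) h
  simp [ptn] at this

lemma ptn_ptn (i : Fin (2 * m)) : ptn (ptn i) = i := by
  unfold ptn
  rw [Equiv.symm_apply_eq]
  ext1
  · simp
  · simp only [Equiv.apply_symm_apply]
    rw [add_assoc, CharTwo.add_self_eq_zero, add_zero]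

lemma ptn_fst (i : Fin (2 * m)) : (prs m (ptn i)).1 = (prs m i).1 := by
  simp [ptn]

lemma realize (hm : 2 ≤ m) {κ₀ : Type} [Fintype κ₀] [DecidableEq κ₀] (B : Fin (2 * m) → Wd κ₀)
    (δ : Fin (2 * m) → Fin (2 * m) → ℤ) (hδ : ∀ i j, (hammingDist (B i) (B j) : ℤ) = 2 * δ i j)
    (D' : ℕ) (φ : Fin m → ℤ) (hφ0 : ∀ k, 0 ≤ φ k)
    (hφ : ∀ i, φ (prs m i).1 = (∑ j, δ i j) - (2 * m - 1) * D') :
    ∃ c₀ : ℕ, ∀ c, c₀ ≤ c → ∃ b : Fin (2 * m) → Wd (Fin (Fintype.card κ₀ + c * Nat.centralBinom m)),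
      Sep (2 * D' + c * (2 * Nat.centralBinom (m - 1))) b := by
  classical
  have hδs : ∀ i j, δ i j = δ j i := by
    intro i j
    have h1 := hδ i j
    have h2 := hδ j i
    rw [hammingDist_comm] at h1
    omega
  have hδ0 : ∀ i, δ i i = 0 := by
    intro i
    have h1 := hδ i i
    rw [hammingDist_self] at h1
    push_cast at h1
    omega
  let z : Fin (2 * m) → Fin (2 * m) → ℤ := fun i j =>
    if i = j then 0 else (if j = ptn i then φ (prs m i).1 else 0) + D' - δ i j
  have hz : ∀ i j, i ≠ j → z i j = (if j = ptn i then φ (prs m i).1 else 0) + D' - δ i j := by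
    intro i j hij
    simp only [z, if_neg hij]
  have hsym : ∀ i j, z i j = z j i := by
    intro i j
    by_cases hij : i = j
    · rw [hij]
    · rw [hz i j hij, hz j i (Ne.symm hij), hδs i j]
      by_cases h : j = ptn i
      · have h' : i = ptn j := by rw [h, ptn_ptn]
        rw [if_pos h, if_pos h', h, ptn_fst]
      · have h' : ¬ i = ptn j := fun h' => h (by rw [h', ptn_ptn])
        rw [if_neg h, if_neg h']
  have hdiag : ∀ i, z i i = 0 := fun i => by simp [z]
  have hrow : ∀ i, ∑ j, z i j = 0 := by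
    intro i
    have e1 : (∑ j, z i j) = ∑ j, ((if j = ptn i then φ (prs m i).1 else 0)
        + (D' - if i = j then (D' : ℤ) else 0) - δ i j) := by
      apply sum_congr rfl
      intro j _
      by_cases hij : i = j
      · subst hij
        rw [hdiag, if_neg (fun h => ptn_ne i h.symm), hδ0, if_pos rfl]
        ring
      · rw [hz i j hij, if_neg hij]
        ring
    rw [e1, sum_sub_distrib, sum_add_distrib, sum_sub_distrib, Finset.sum_ite_eq',
      Finset.sum_ite_eq, if_pos (mem_univ _), if_pos (mem_univ _), hφ i, sum_const, card_univ,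
      Fintype.card_fin, nsmul_eq_mul]
    push_cast
    ring
  obtain ⟨N, hN⟩ := lattice hm z hsym hdiag hrow
  have hN' : ∀ i j, (∑ τ, N τ * sep τ.1 i j) = 2 * z i j := fun i j => congrFun (congrFun hN i) j
  have hNsum : ∑ τ, N τ = 0 := by
    let i : Fin (2 * m) := ⟨0, by omega⟩
    have h1 : (∑ j, ∑ τ, N τ * sep τ.1 i j) = 0 := by
      rw [sum_congr rfl (fun j _ => hN' i j), ← mul_sum, hrow, mul_zero]
    rw [sum_comm] at h1
    have h2 : ∀ τ : Bal m, (∑ j, N τ * sep τ.1 i j) = N τ * m := by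
      intro τ
      rw [← mul_sum, sum_sep]
    rw [sum_congr rfl (fun τ _ => h2 τ), ← sum_mul] at h1
    have hm0 : (m : ℤ) ≠ 0 := by
      have : m ≠ 0 := by omega
      exact_mod_cast this
    exact (mul_eq_zero.mp h1).resolve_right hm0
  refine ⟨∑ τ, (N τ).natAbs, fun c hc => ?_⟩
  let K : Bal m → ℕ := fun τ => (N τ + c).toNat
  have hK : ∀ τ, (K τ : ℤ) = N τ + c := by
    intro τ
    apply Int.toNat_of_nonneg
    have h1 : (N τ).natAbs ≤ ∑ τ, (N τ).natAbs :=
      Finset.single_le_sum (f := fun τ => (N τ).natAbs) (fun _ _ => Nat.zero_le _) (mem_univ τ)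
    omega
  have hcardK : Fintype.card (κ₀ ⊕ (Σ τ : Bal m, Fin (K τ)))
      = Fintype.card κ₀ + c * Nat.centralBinom m := by
    rw [Fintype.card_sum, Fintype.card_sigma]
    congr 1
    have h1 : ((∑ τ : Bal m, Fintype.card (Fin (K τ)) : ℕ) : ℤ) = ((c * Nat.centralBinom m : ℕ) : ℤ) := by
      push_cast
      simp only [Fintype.card_fin, hK, sum_add_distrib, hNsum, zero_add, sum_const, card_univ,
        card_Bal, nsmul_eq_mul]
      ring
    exact_mod_cast h1
  refine Sep_reindex (κ := κ₀ ⊕ (Σ τ : Bal m, Fin (K τ)))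
    (fun i => Sum.elim (B i) (fun x => val x.1 i)) ?_ hcardK
  intro i j hij
  have h1 : (hammingDist (Sum.elim (B i) (fun x : (Σ τ : Bal m, Fin (K τ)) => val x.1 i))
      (Sum.elim (B j) (fun x : (Σ τ : Bal m, Fin (K τ)) => val x.1 j)) : ℤ)
      = 2 * δ i j + 2 * z i j + c * ∑ τ : Bal m, sep τ.1 i j := by
    rw [hammingDist_int, Fintype.sum_sum_type, Fintype.sum_sigma]
    simp only [Sum.elim_inl, Sum.elim_inr]
    rw [← hammingDist_int, hδ]
    have h2 : ∀ τ : Bal m, (∑ _y : Fin (K τ), nq (val τ i) (val τ j))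
        = N τ * sep τ.1 i j + c * sep τ.1 i j := by
      intro τ
      rw [sum_const, card_univ, Fintype.card_fin, val_ne_sep, nsmul_eq_mul, hK]
      ring
    rw [sum_congr rfl (fun τ _ => h2 τ), sum_add_distrib, hN', ← mul_sum]
    ring
  have h2 : (2 * Nat.centralBinom (m - 1) : ℤ) ≤ ∑ τ : Bal m, sep τ.1 i j := by
    have h3 := card_sep m (by omega) hij
    rw [card_filter] at h3
    have h4 : ((∑ τ : Bal m, if ¬ (i ∈ τ.1 ↔ j ∈ τ.1) then 1 else 0 : ℕ) : ℤ)
        = ∑ τ : Bal m, sep τ.1 i j := by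
      push_cast
      apply sum_congr rfl
      intro τ _
      unfold sep
      by_cases h : (i ∈ τ.1 ↔ j ∈ τ.1) <;> simp [h]
    rw [← h4]
    exact_mod_cast h3
  have h3 : (c : ℤ) * (2 * Nat.centralBinom (m - 1)) ≤ c * ∑ τ : Bal m, sep τ.1 i j :=
    mul_le_mul_of_nonneg_left h2 (Nat.cast_nonneg c)
  have h4 : (2 * D' : ℤ) ≤ 2 * δ i j + 2 * z i j := by
    rw [hz i j hij]
    have : (0 : ℤ) ≤ if j = ptn i then φ (prs m i).1 else 0 := by
      split_ifs
      · exact hφ0 _
      · exact le_refl _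
    linarith
  have h5 : ((2 * D' + c * (2 * Nat.centralBinom (m - 1)) : ℕ) : ℤ)
      ≤ (hammingDist (Sum.elim (B i) (fun x : (Σ τ : Bal m, Fin (K τ)) => val x.1 i))
      (Sum.elim (B j) (fun x : (Σ τ : Bal m, Fin (K τ)) => val x.1 j)) : ℤ) := by
    rw [h1]
    push_cast
    linarith
  exact_mod_cast h5

/-- Base family of even length. -/
lemma exist_even (hm : 2 ≤ m) (n' D' : ℕ) (h : (2 * m - 1) * D' ≤ m * n') :
    ∃ c₀ : ℕ, ∀ c, c₀ ≤ c → ∃ b : Fin (2 * m) → Wd (Fin (2 * n' + c * Nat.centralBinom m)),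
      Sep (2 * D' + c * (2 * Nat.centralBinom (m - 1))) b := by
  obtain ⟨τ, hτ⟩ := exists_bal (m := m) (fun _ => 0)
  have key := realize hm (κ₀ := Fin (2 * n')) (fun i _ => val τ i)
    (fun i j => n' * sep τ.1 i j) (by
      intro i j
      rw [hammingDist_int]
      rw [sum_congr rfl (fun c _ => val_ne_sep τ i j), sum_const, card_univ, Fintype.card_fin,
        nsmul_eq_mul]
      push_cast
      ring) D' (fun _ => n' * m - (2 * m - 1) * D') (by
      intro _
      have h1 : (((2 * m - 1) * D' : ℕ) : ℤ) ≤ ((m * n' : ℕ) : ℤ) := by exact_mod_cast h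
      rw [Nat.cast_mul, Nat.cast_mul, Nat.cast_sub (by omega)] at h1
      push_cast at h1
      linarith) (by
      intro i
      rw [← mul_sum, sum_sep])
  rw [Fintype.card_fin] at key
  exact key

/-- Base family of odd length. -/
lemma exist_odd (hm : 2 ≤ m) (n' D' : ℕ) (hn : 1 ≤ n') (h : (2 * m - 1) * D' ≤ m * n' + m / 2) :
    ∃ c₀ : ℕ, ∀ c, c₀ ≤ c → ∃ b : Fin (2 * m) → Wd (Fin (2 * n' + 1 + c * Nat.centralBinom m)),
      Sep (2 * D' + c * (2 * Nat.centralBinom (m - 1))) b := by
  classical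
  let hh : ℕ := (m + 1) / 2
  let y : Fin m → ZMod 2 := fun k => if (k : ℕ) < hh then 1 else 0
  obtain ⟨τ1, hτ1⟩ := exists_bal (m := m) (fun _ => 0)
  obtain ⟨τ2, hτ2⟩ := exists_bal (m := m) y
  let B : Fin (2 * m) → Wd (Fin (2 * n' - 1) ⊕ Fin 2) := fun i =>
    Sum.elim (fun _ => val τ1 i) (fun c => if c = 0 then val τ2 i else y (prs m i).1)
  let η : Fin (2 * m) → Fin (2 * m) → ℤ := fun i j =>
    if (prs m i).2 = (prs m j).2 ∧ y (prs m i).1 = y (prs m j).1 then 0 else 1
  let s3 : Fin (2 * m) → Fin (2 * m) → ℤ := fun i j => nq (y (prs m i).1) (y (prs m j).1)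
  have hη : ∀ i j, sep τ1.1 i j + sep τ2.1 i j + s3 i j = 2 * η i j := by
    intro i j
    rw [← val_ne_sep, ← val_ne_sep, hτ1, hτ1, hτ2, hτ2, add_zero, add_zero]
    simp only [η, s3, nq]
    generalize (prs m i).2 = a
    generalize (prs m j).2 = b
    generalize y (prs m i).1 = c
    generalize y (prs m j).1 = d
    revert a b c d
    decide
  have hdist : ∀ i j, (hammingDist (B i) (B j) : ℤ) = 2 * ((n' - 1) * sep τ1.1 i j + η i j) := by
    intro i j
    rw [hammingDist_int, Fintype.sum_sum_type, Fin.sum_univ_two]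
    simp only [B, Sum.elim_inl, Sum.elim_inr, if_true]
    have e1 : (∑ _x : Fin (2 * n' - 1), nq (val τ1 i) (val τ1 j))
        = (2 * n' - 1) * sep τ1.1 i j := by
      rw [sum_const, card_univ, Fintype.card_fin, val_ne_sep, nsmul_eq_mul,
        Nat.cast_sub (by omega)]
      push_cast
      ring
    have e2 : (if (1 : Fin 2) = 0 then val τ2 i else y (prs m i).1) = y (prs m i).1 := by
      rw [if_neg (by decide)]
    have e3 : (if (1 : Fin 2) = 0 then val τ2 j else y (prs m j).1) = y (prs m j).1 := by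
      rw [if_neg (by decide)]
    rw [e1, e2, e3, val_ne_sep]
    have := hη i j
    simp only [s3] at this
    linarith
  have hs3 : ∀ i, (∑ j, s3 i j) = if y (prs m i).1 = 1 then 2 * (m : ℤ) - 2 * hh else 2 * hh := by
    intro i
    have e1 : (∑ j, s3 i j) = ∑ p : Fin m × ZMod 2, nq (y (prs m i).1) (y p.1) :=
      Equiv.sum_comp (prs m) (fun p => nq (y (prs m i).1) (y p.1))
    rw [e1, Fintype.sum_prod_type]
    have e2 : ∀ k : Fin m, (∑ _x : ZMod 2, nq (y (prs m i).1) (y k))
        = 2 * nq (y (prs m i).1) (y k) := by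
      intro k
      rw [sum_const, card_univ, ZMod.card, nsmul_eq_mul]
      norm_num
    rw [sum_congr rfl (fun k _ => e2 k), ← mul_sum]
    have hhm : hh ≤ m := by simp only [hh]; omega
    have e3 : (∑ k : Fin m, if (k : ℕ) < hh then (1 : ℤ) else 0) = hh := by
      rw [Fin.sum_univ_eq_sum_range (fun k => if k < hh then (1 : ℤ) else 0) m,
        ← Finset.sum_filter]
      have : (range m).filter (fun k => k < hh) = range hh := by
        ext k
        simp only [mem_filter, mem_range]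
        omega
      rw [this, sum_const, card_range]
      simp
    have e4 : (∑ k : Fin m, if ¬ (k : ℕ) < hh then (1 : ℤ) else 0) = m - hh := by
      have : ∀ k : Fin m, (if ¬ (k : ℕ) < hh then (1 : ℤ) else 0)
          = 1 - if (k : ℕ) < hh then (1 : ℤ) else 0 := by
        intro k
        by_cases hk : (k : ℕ) < hh <;> simp [hk]
      rw [sum_congr rfl (fun k _ => this k), sum_sub_distrib, e3]
      simp
    by_cases hy : y (prs m i).1 = 1
    · rw [if_pos hy, hy]
      have : ∀ k : Fin m, nq (1 : ZMod 2) (y k)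
          = if ¬ (k : ℕ) < hh then (1 : ℤ) else 0 := by
        intro k
        simp only [y, nq]
        by_cases hk : (k : ℕ) < hh <;> simp [hk]
      rw [sum_congr rfl (fun k _ => this k), e4]
      ring
    · have hy0 : y (prs m i).1 = 0 := by
        have h2 : ∀ a : ZMod 2, a ≠ 1 → a = 0 := by decide
        exact h2 _ hy
      rw [if_neg hy, hy0]
      have : ∀ k : Fin m, nq (0 : ZMod 2) (y k)
          = if (k : ℕ) < hh then (1 : ℤ) else 0 := by
        intro k
        simp only [y, nq]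
        by_cases hk : (k : ℕ) < hh <;> simp [hk]
      rw [sum_congr rfl (fun k _ => this k), e3]
  have hsum : ∀ i, (∑ j, ((n' - 1) * sep τ1.1 i j + η i j))
      = (n' : ℤ) * m + if y (prs m i).1 = 1 then (m : ℤ) - hh else hh := by
    intro i
    have e1 : 2 * (∑ j, η i j) = m + m + ∑ j, s3 i j := by
      rw [mul_sum, ← sum_congr rfl (fun j _ => hη i j), sum_add_distrib, sum_add_distrib,
        sum_sep, sum_sep]
    rw [sum_add_distrib, ← mul_sum, sum_sep]
    rw [hs3] at e1
    by_cases hy : y (prs m i).1 = 1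
    · rw [if_pos hy] at e1 ⊢
      linarith
    · rw [if_neg hy] at e1 ⊢
      linarith
  have key := realize hm B (fun i j => (n' - 1) * sep τ1.1 i j + η i j) hdist D'
    (fun k => (n' : ℤ) * m + (if y k = 1 then (m : ℤ) - hh else hh) - (2 * m - 1) * D') (by
      intro k
      have h1 : (((2 * m - 1) * D' : ℕ) : ℤ) ≤ ((m * n' + m / 2 : ℕ) : ℤ) := by exact_mod_cast h
      rw [Nat.cast_mul, Nat.cast_sub (by omega)] at h1
      have h2 : ((m / 2 : ℕ) : ℤ) ≤ (m : ℤ) - hh := by
        simp only [hh]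
        omega
      have h3 : ((m / 2 : ℕ) : ℤ) ≤ hh := by
        simp only [hh]
        omega
      push_cast at h1 h2 h3
      split_ifs <;> linarith) (by
      intro i
      rw [hsum i])
  have hcard : Fintype.card (Fin (2 * n' - 1) ⊕ Fin 2) = 2 * n' + 1 := by
    rw [Fintype.card_sum, Fintype.card_fin, Fintype.card_fin]
    omega
  rw [hcard] at key
  exact key

end MP7d5fe8
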