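import Pool.Agent.Work.MP_7d5fe8_co.Gadget

/-! The partition of the ten-dimensional cube, blown up. -/

open Finset

namespace MP7d5fe8

set_option linter.unusedSectionVars false

def bits (m : ℕ) : Wd (Fin 10) := fun i => if m.testBit i then 1 else 0

lemma pc10_eq (x : ℕ) : pc10 x = ∑ i : Fin 10, (x.testBit i).toNat := by
  simp only [Nat.toNat_testBit, Fin.sum_univ_succ, Fin.sum_univ_zero, pc10]
  simp only [Fin.val_zero, Fin.val_succ, zero_add, Nat.reduceAdd, Nat.reducePow, Nat.div_one]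
  omega

lemma dist_bits (a b : ℕ) : hammingDist (bits a) (bits b) = pc10 (a ^^^ b) := by
  rw [pc10_eq]
  unfold hammingDist
  rw [card_filter]
  apply sum_congr rfl
  intro i _
  rw [Nat.testBit_xor]
  unfold bits
  cases a.testBit i <;> cases b.testBit i <;> simp

lemma bits_inj {a b : ℕ} (ha : a < 1024) (hb : b < 1024) (h : bits a = bits b) : a = b := by
  apply Nat.eq_of_testBit_eq
  intro i
  by_cases hi : i < 10
  · have := congrFun h ⟨i, hi⟩
    unfold bits at this
    simp only at this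
    cases h1 : a.testBit i <;> cases h2 : b.testBit i <;> simp_all
  · have h3 : 1024 ≤ 2 ^ i := by
      calc 1024 = 2 ^ 10 := by norm_num
        _ ≤ 2 ^ i := Nat.pow_le_pow_right (by norm_num) (by omega)
    rw [Nat.testBit_lt_two_pow (by omega), Nat.testBit_lt_two_pow (by omega)]

lemma exists_bits (c : Wd (Fin 10)) : ∃ m < 1024, bits m = c := by
  refine ⟨Nat.ofBits (fun i => decide (c i = 1)), Nat.ofBits_lt_two_pow _, ?_⟩
  ext i
  unfold bits
  rw [Nat.testBit_ofBits_lt _ _ i.2]
  have h2 : ∀ a : ZMod 2, a = 0 ∨ a = 1 := by decide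
  rcases h2 (c i) with h | h <;> simp [h]

lemma sum_bits (m : ℕ) : ∑ i, bits m i = ((pc10 m : ℕ) : ZMod 2) := by
  rw [pc10_eq, Nat.cast_sum]
  apply sum_congr rfl
  intro i _
  unfold bits
  cases m.testBit i <;> simp

lemma sum_bits_zero (m : ℕ) : ∑ i, bits m i = 0 ↔ pc10 m % 2 = 0 := by
  rw [sum_bits, ZMod.natCast_eq_zero_iff, Nat.dvd_iff_mod_eq_zero]

lemma bits_zero : bits 0 = 0 := by
  ext i
  simp [bits]

lemma bits_one : bits 1023 = 1 := by
  ext i
  fin_cases i <;> decide

section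
variable {κ : Type} [Fintype κ] [DecidableEq κ]

/-- Block-constant words. -/
def beta (τ : κ → Fin 10) : Wd (Fin 10) →+ Wd κ where
  toFun c x := c (τ x)
  map_zero' := rfl
  map_add' _ _ := rfl

lemma dist_beta {τ : κ → Fin 10} {t : ℕ} (ht : ∀ i, (univ.filter (fun x => τ x = i)).card = t)
    (c c' : Wd (Fin 10)) : hammingDist (beta τ c) (beta τ c') = t * hammingDist c c' := by
  unfold hammingDist
  rw [card_filter, card_filter, mul_sum, ← Finset.sum_fiberwise univ τ]
  apply sum_congr rfl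
  intro i _
  have : ∀ x ∈ univ.filter (fun x => τ x = i),
      (if beta τ c x ≠ beta τ c' x then 1 else 0) = if c i ≠ c' i then 1 else 0 := by
    intro x hx
    rw [mem_filter] at hx
    show (if c (τ x) ≠ c' (τ x) then 1 else 0) = _
    rw [hx.2]
  rw [sum_congr rfl this, sum_const, ht, smul_eq_mul]

/-- The group of block-constant words which consist of an even number of blocks. -/
def V0 (τ : κ → Fin 10) : AddSubgroup (Wd κ) where
  carrier := {g | ∃ c : Wd (Fin 10), ∑ i, c i = 0 ∧ beta τ c = g}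
  zero_mem' := ⟨0, by simp, map_zero _⟩
  add_mem' := by
    rintro _ _ ⟨c, hc, rfl⟩ ⟨c', hc', rfl⟩
    exact ⟨c + c', by simp [sum_add_distrib, hc, hc'], map_add _ _ _⟩
  neg_mem' := by
    rintro _ ⟨c, hc, rfl⟩
    exact ⟨-c, by simp [hc], map_neg _ _⟩

lemma mem_V0 {τ : κ → Fin 10} {g : Wd κ} :
    g ∈ V0 τ ↔ ∃ c : Wd (Fin 10), ∑ i, c i = 0 ∧ beta τ c = g := Iff.rfl

lemma beta_inj {τ : κ → Fin 10} (hs : Function.Surjective τ) {c c' : Wd (Fin 10)}
    (h : beta τ c = beta τ c') : c = c' := by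
  ext i
  obtain ⟨x, rfl⟩ := hs i
  exact congrFun h x

lemma til_V0 {τ : κ → Fin 10} {t : ℕ} (ht : ∀ i, (univ.filter (fun x => τ x = i)).card = t)
    (ht1 : 1 ≤ t) : ∃ θ ∈ Til κ (6 * t) 6, ∀ g, ((g ∈ V0 τ ∧ g ≠ 0 ∧ g ≠ 1) → θ g = 1) ∧
      (¬ (g ∈ V0 τ ∧ g ≠ 0 ∧ g ≠ 1) → θ g = 0) := by
  classical
  have hs : Function.Surjective τ := by
    intro i
    have : 0 < (univ.filter (fun x => τ x = i)).card := by rw [ht]; omega
    obtain ⟨x, hx⟩ := Finset.card_pos.mp this
    exact ⟨x, (mem_filter.mp hx).2⟩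
  let w : Fin 85 → Fin 6 → Wd κ := fun k i => beta τ (bits (wdn (6 * k + i)))
  have hlt : ∀ (k : Fin 85) (i : Fin 6), 6 * (k : ℕ) + i < 510 := by
    intro k i
    have := k.2
    have := i.2
    omega
  have hw1024 : ∀ m, wdn m < 1024 := fun m => Nat.mod_lt _ (by norm_num)
  have hwinj : ∀ k i k' i', w k i = w k' i' → k = k' ∧ i = i' := by
    intro k i k' i' h
    have h1 := bits_inj (hw1024 _) (hw1024 _) (beta_inj hs h)
    have h2 := (wdn_ok _ (hlt k i)).1
    have h3 := (wdn_ok _ (hlt k' i')).1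
    rw [h1, h3] at h2
    have := i.2
    have := i'.2
    constructor
    · apply Fin.ext
      omega
    · apply Fin.ext
      omega
  have hwV : ∀ k i, w k i ∈ V0 τ ∧ w k i ≠ 0 ∧ w k i ≠ 1 := by
    intro k i
    obtain ⟨_, h2, h3, h4⟩ := wdn_ok _ (hlt k i)
    refine ⟨⟨_, (sum_bits_zero _).mpr h2, rfl⟩, ?_, ?_⟩
    · intro h
      apply h3
      apply bits_inj (hw1024 _) (by norm_num)
      rw [bits_zero]
      apply beta_inj hs
      rw [map_zero]
      exact h
    · intro h
      apply h4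
      apply bits_inj (hw1024 _) (by norm_num)
      rw [bits_one]
      apply beta_inj hs
      exact h
  have hwex : ∀ g, g ∈ V0 τ → g ≠ 0 → g ≠ 1 → ∃ k i, w k i = g := by
    rintro g ⟨c, hc, rfl⟩ h0 h1
    obtain ⟨m, hm, rfl⟩ := exists_bits c
    have hm0 : m ≠ 0 := by
      rintro rfl
      apply h0
      rw [bits_zero, map_zero]
    have hm1 : m ≠ 1023 := by
      rintro rfl
      apply h1
      rw [bits_one]
      rfl
    obtain ⟨h3, h4⟩ := ixn_ok m hm ((sum_bits_zero _).mp hc) hm0 hm1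
    refine ⟨⟨ixn m / 6, by omega⟩, ⟨ixn m % 6, Nat.mod_lt _ (by norm_num)⟩, ?_⟩
    show beta τ (bits (wdn (6 * (ixn m / 6) + ixn m % 6))) = _
    rw [Nat.div_add_mod, h3]
  refine ⟨∑ k : Fin 85, cnt (w k), AddSubmonoid.sum_mem _ fun k _ => cnt_mem_Til ?_, fun g => ?_⟩
  · intro i j hij
    show 6 * t ≤ hammingDist (beta τ _) (beta τ _)
    rw [dist_beta ht, dist_bits, mul_comm 6 t]
    apply Nat.mul_le_mul_left
    exact sep_ok k k.2 i i.2 j j.2 (fun h => hij (Fin.ext h))
  · have key : (∑ k : Fin 85, cnt (w k)) g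
        = ∑ k : Fin 85, ∑ i : Fin 6, if w k i = g then 1 else 0 := by
      rw [Finset.sum_apply]
      rfl
    rw [key]
    constructor
    · rintro ⟨hg, h0, h1⟩
      obtain ⟨k, i, hki⟩ := hwex g hg h0 h1
      rw [Finset.sum_eq_single k, Finset.sum_eq_single i]
      · rw [if_pos hki]
      · intro i' _ hi'
        rw [if_neg]
        intro h
        exact hi' (hwinj k i' k i (h.trans hki.symm)).2
      · intro h
        exact absurd (mem_univ _) h
      · intro k' _ hk'
        apply sum_eq_zero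
        intro i' _
        rw [if_neg]
        intro h
        exact hk' (hwinj k' i' k i (h.trans hki.symm)).1
      · intro h
        exact absurd (mem_univ _) h
    · intro hg
      apply sum_eq_zero
      intro k _
      apply sum_eq_zero
      intro i _
      rw [if_neg]
      intro h
      exact hg (h ▸ hwV k i)

end

end MP7d5fe8
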