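import Pool.Agent.Work.MP_7d5fe8_co.Uniform

/-! The lattice of distance vectors of balanced columns. -/

open Finset

namespace MP7d5fe8

set_option linter.unusedSectionVars false

variable {m : ℕ}

/-- Separation of two indices by a set, as an integer. -/
def sep (τ : Finset (Fin (2 * m))) (i j : Fin (2 * m)) : ℤ := if (i ∈ τ ↔ j ∈ τ) then 0 else 1

/-- Indicator. -/
def ind1 (x p : Fin (2 * m)) : ℤ := if p = x then 1 else 0

lemma sep_eq {τ : Finset (Fin (2 * m))} {χ : Fin (2 * m) → ℤ}
    (h : ∀ p, χ p = if p ∈ τ then 1 else 0) (p q : Fin (2 * m)) :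
    sep τ p q = χ p + χ q - 2 * (χ p * χ q) := by
  rw [h, h]
  unfold sep
  by_cases hp : p ∈ τ <;> by_cases hq : q ∈ τ <;> simp [hp, hq]

/-- Elementary symmetric matrix. -/
def EE (k l : Fin (2 * m)) : Fin (2 * m) → Fin (2 * m) → ℤ :=
  fun p q => ind1 k p * ind1 l q + ind1 l p * ind1 k q

/-- Distance vectors of signed families of balanced sets. -/
def dmap (m : ℕ) : (Bal m → ℤ) →+ (Fin (2 * m) → Fin (2 * m) → ℤ) where
  toFun N := fun i j => ∑ τ, N τ * sep τ.1 i j
  map_zero' := by ext i j; simp
  map_add' x y := by
    ext i j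
    simp only [Pi.add_apply, add_mul, sum_add_distrib]

lemma cycle_mem {i i' a b : Fin (2 * m)} (h1 : i ≠ i') (h2 : i ≠ a) (h3 : i ≠ b) (h4 : i' ≠ a)
    (h5 : i' ≠ b) (h6 : a ≠ b) :
    (fun p q => 2 * (EE i a p q - EE i' a p q - EE i b p q + EE i' b p q)) ∈ (dmap m).range := by
  classical
  have hcard4 : ({i, i', a, b} : Finset (Fin (2 * m))).card = 4 := by
    rw [card_insert_of_notMem, card_insert_of_notMem, card_pair h6]
    · simp [h4, h5]
    · simp [h1, h2, h3]
  have hm : 2 ≤ m := by
    have : ({i, i', a, b} : Finset (Fin (2 * m))).card ≤ (univ : Finset (Fin (2 * m))).card :=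
      card_le_card (subset_univ _)
    rw [hcard4, card_univ, Fintype.card_fin] at this
    omega
  obtain ⟨B, hBs, hBc⟩ := Finset.exists_subset_card_eq
    (s := (univ : Finset (Fin (2 * m))) \ {i, i', a, b}) (n := m - 2) (by
      rw [card_sdiff_of_subset (subset_univ _), card_univ, Fintype.card_fin, hcard4]
      omega)
  have hB : ∀ x ∈ ({i, i', a, b} : Finset (Fin (2 * m))), x ∉ B := by
    intro x hx hxB
    exact (mem_sdiff.mp (hBs hxB)).2 hx
  have hi := hB i (by simp)
  have hi' := hB i' (by simp)
  have ha := hB a (by simp)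
  have hb := hB b (by simp)
  have mk : ∀ x y, x ≠ y → x ∉ B → y ∉ B →
      ∃ τ : Bal m, ∀ p q, sep τ.1 p q
        = (ind1 x p + ind1 y p + (if p ∈ B then 1 else 0))
          + (ind1 x q + ind1 y q + (if q ∈ B then 1 else 0))
          - 2 * ((ind1 x p + ind1 y p + (if p ∈ B then 1 else 0))
            * (ind1 x q + ind1 y q + (if q ∈ B then 1 else 0))) := by
    intro x y hxy hx hy
    have hy' : x ∉ insert y B := by
      rw [mem_insert, not_or]
      exact ⟨hxy, hx⟩
    refine ⟨⟨insert x (insert y B), ?_⟩, ?_⟩
    · rw [mem_powersetCard]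
      refine ⟨subset_univ _, ?_⟩
      rw [card_insert_of_notMem hy', card_insert_of_notMem hy, hBc]
      omega
    · apply sep_eq
      intro p
      unfold ind1
      by_cases hpx : p = x
      · subst hpx
        simp [hxy, hx]
      · by_cases hpy : p = y
        · subst hpy
          simp [hpx, hy]
        · simp [hpx, hpy]
  obtain ⟨τ1, e1⟩ := mk i a h2 hi ha
  obtain ⟨τ1', e1'⟩ := mk i' a h4 hi' ha
  obtain ⟨τ2, e2⟩ := mk i b h3 hi hb
  obtain ⟨τ2', e2'⟩ := mk i' b h5 hi' hb
  refine ⟨Pi.single τ2 1 - Pi.single τ2' 1 - Pi.single τ1 1 + Pi.single τ1' 1, ?_⟩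
  ext p q
  show (∑ τ : Bal m, (Pi.single τ2 1 - Pi.single τ2' 1 - Pi.single τ1 1 + Pi.single τ1' 1 :
    Bal m → ℤ) τ * sep τ.1 p q) = _
  simp only [Pi.add_apply, Pi.sub_apply, add_mul, sub_mul, sum_add_distrib, sum_sub_distrib,
    Pi.single_apply, ite_mul, one_mul, zero_mul, sum_ite_eq', mem_univ, if_true]
  rw [e1, e1', e2, e2']
  unfold EE
  ring

lemma sum_zero_of_split {Q : Type} [AddCommGroup Q] {n : ℕ} (z : Fin n → Fin n → ℤ)
    (hsym : ∀ i j, z i j = z j i) (hdiag : ∀ i, z i i = 0) (hrow : ∀ i, ∑ j, z i j = 0)
    (e : Fin n → Fin n → Q) (μ : Fin n → Q) (κ : Q) (hμ : ∀ k l, k ≠ l → e k l = μ k + μ l - κ) :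
    (∑ k, ∑ l ∈ univ.filter (fun l => k < l), z k l • e k l) = 0 := by
  have h1 : ∀ k, (∑ l ∈ univ.filter (fun l => k < l), z k l • e k l)
      = ∑ l ∈ univ.filter (fun l => k < l), (z k l • μ k + z k l • μ l - z k l • κ) := by
    intro k
    apply sum_congr rfl
    intro l hl
    have hkl : k ≠ l := (mem_filter.mp hl).2.ne
    rw [hμ k l hkl, smul_sub, smul_add]
  rw [sum_congr rfl (fun k _ => h1 k)]
  simp only [sum_sub_distrib, sum_add_distrib]
  -- the two halves combine to full row sums
  have h2 : (∑ k, ∑ l ∈ univ.filter (fun l => k < l), z k l • μ l)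
      = ∑ k, ∑ l ∈ univ.filter (fun l => l < k), z k l • μ k := by
    have : ∀ k, (∑ l ∈ univ.filter (fun l => k < l), z k l • μ l)
        = ∑ l, if k < l then z k l • μ l else 0 := fun k => by rw [sum_filter]
    rw [sum_congr rfl (fun k _ => this k), sum_comm]
    apply sum_congr rfl
    intro l _
    rw [sum_filter]
    apply sum_congr rfl
    intro k _
    rw [hsym k l]
  have h3 : ∀ k, (∑ l ∈ univ.filter (fun l => k < l), z k l • μ k)
      + (∑ l ∈ univ.filter (fun l => l < k), z k l • μ k) = 0 := by
    intro k
    rw [← sum_smul, ← sum_smul, ← add_smul]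
    have : (∑ l ∈ univ.filter (fun l => k < l), z k l)
        + (∑ l ∈ univ.filter (fun l => l < k), z k l) = 0 := by
      rw [← hrow k, sum_filter, sum_filter, ← sum_add_distrib]
      apply sum_congr rfl
      intro l _
      rcases lt_trichotomy k l with h | h | h
      · simp [h, h.not_gt]
      · subst h
        simp [hdiag]
      · simp [h, h.not_gt]
    rw [this, zero_smul]
  have h4 : (∑ k, ∑ l ∈ univ.filter (fun l => k < l), z k l) = 0 := by
    have h5 : (∑ k, ∑ l ∈ univ.filter (fun l => k < l), z k l)
        = ∑ k, ∑ l ∈ univ.filter (fun l => l < k), z k l := by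
      have : ∀ k, (∑ l ∈ univ.filter (fun l => k < l), z k l)
          = ∑ l, if k < l then z k l else 0 := fun k => by rw [sum_filter]
      rw [sum_congr rfl (fun k _ => this k), sum_comm]
      apply sum_congr rfl
      intro l _
      rw [sum_filter]
      apply sum_congr rfl
      intro k _
      rw [hsym k l]
    have h6 : (∑ k, ∑ l ∈ univ.filter (fun l => k < l), z k l)
        + (∑ k, ∑ l ∈ univ.filter (fun l => l < k), z k l) = 0 := by
      rw [← sum_add_distrib]
      apply sum_eq_zero
      intro k _
      rw [← hrow k, sum_filter, sum_filter, ← sum_add_distrib]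
      apply sum_congr rfl
      intro l _
      rcases lt_trichotomy k l with h | h | h
      · simp [h, h.not_gt]
      · subst h
        simp [hdiag]
      · simp [h, h.not_gt]
    rw [← h5] at h6
    omega
  rw [h2, ← sum_add_distrib, sum_congr rfl (fun k _ => h3 k)]
  simp only [sum_const_zero, zero_sub, neg_eq_zero]
  have : ∀ k, (∑ l ∈ univ.filter (fun l => k < l), z k l • κ)
      = (∑ l ∈ univ.filter (fun l => k < l), z k l) • κ := fun k => by rw [sum_smul]
  rw [sum_congr rfl (fun k _ => this k), ← sum_smul, h4, zero_smul]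

/-- Twice a symmetric integer matrix with zero diagonal and zero row sums is the distance vector
of a signed family of balanced sets. -/
lemma lattice (hm : 2 ≤ m) (z : Fin (2 * m) → Fin (2 * m) → ℤ) (hsym : ∀ i j, z i j = z j i)
    (hdiag : ∀ i, z i i = 0) (hrow : ∀ i, ∑ j, z i j = 0) :
    (fun i j => 2 * z i j) ∈ (dmap m).range := by
  classical
  let 𝒟 := (dmap m).range
  let π := QuotientAddGroup.mk' 𝒟
  let e : Fin (2 * m) → Fin (2 * m) → _ := fun k l => π (fun p q => 2 * EE k l p q)
  have e_symm : ∀ k l, e k l = e l k := by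
    intro k l
    show π _ = π _
    congr 1
    ext p q
    unfold EE
    ring
  have rel : ∀ i i' a b : Fin (2 * m), i ≠ i' → i ≠ a → i ≠ b → i' ≠ a → i' ≠ b → a ≠ b →
      e i a - e i' a - e i b + e i' b = 0 := by
    intro i i' a b h1 h2 h3 h4 h5 h6
    show π _ - π _ - π _ + π _ = 0
    rw [← map_sub, ← map_sub, ← map_add]
    have : ((fun p q => 2 * EE i a p q) - (fun p q => 2 * EE i' a p q)
        - (fun p q => 2 * EE i b p q) + (fun p q => 2 * EE i' b p q)
          : Fin (2 * m) → Fin (2 * m) → ℤ)
        = (fun p q => 2 * (EE i a p q - EE i' a p q - EE i b p q + EE i' b p q)) := by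
      ext p q
      simp only [Pi.add_apply, Pi.sub_apply]
      ring
    rw [this]
    exact (QuotientAddGroup.eq_zero_iff _).mpr (cycle_mem h1 h2 h3 h4 h5 h6)
  let o : Fin (2 * m) := ⟨0, by omega⟩
  let w : Fin (2 * m) := ⟨1, by omega⟩
  let t : Fin (2 * m) := ⟨2, by omega⟩
  have how : o ≠ w := by simp [o, w, Fin.ext_iff]
  have hot : o ≠ t := by simp [o, t, Fin.ext_iff]
  have hwt : w ≠ t := by simp [w, t, Fin.ext_iff]
  set γ := e o t - e w t with hγ
  have hγk : ∀ k, k ≠ o → k ≠ w → e o k - e w k = γ := by
    intro k hko hkw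
    by_cases hkt : k = t
    · rw [hkt]
    · have := rel o w k t how (Ne.symm hko) hot (Ne.symm hkw) hwt hkt
      rw [hγ, ← sub_eq_zero]
      rw [← this]
      abel
  set κ := γ + e o w with hκ
  let μ : Fin (2 * m) → _ := fun k => if k = o then κ else if k = w then e o w else e o k
  have hμ : ∀ k l, k ≠ l → e k l = μ k + μ l - κ := by
    have hμo : μ o = κ := by simp [μ]
    have hμw : μ w = e o w := by simp [μ, how.symm]
    have hμk : ∀ k, k ≠ o → k ≠ w → μ k = e o k := by
      intro k h1 h2
      simp [μ, h1, h2]
    have hwk : ∀ k, k ≠ o → k ≠ w → e w k = e o w + e o k - κ := by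
      intro k h1 h2
      have := hγk k h1 h2
      rw [hκ, ← this]
      abel
    intro k l hkl
    by_cases hko : k = o
    · subst hko
      by_cases hlw : l = w
      · subst hlw
        rw [hμo, hμw]
        abel
      · rw [hμo, hμk l (Ne.symm hkl) hlw]
        abel
    · by_cases hkw : k = w
      · subst hkw
        by_cases hlo : l = o
        · subst hlo
          rw [hμo, hμw, e_symm w o]
          abel
        · rw [hμw, hμk l hlo (Ne.symm hkl), hwk l hlo (Ne.symm hkl)]
      · by_cases hlo : l = o
        · subst hlo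
          rw [hμo, hμk k hko hkw, e_symm k o]
          abel
        · by_cases hlw : l = w
          · subst hlw
            rw [hμw, hμk k hko hkw, e_symm k w, hwk k hko hkw]
            abel
          · have h1 := rel k o l w hko hkl hkw (Ne.symm hlo) how hlw
            rw [hμk k hko hkw, hμk l hlo hlw]
            have h2 := hwk k hko hkw
            rw [e_symm w k] at h2
            rw [h2] at h1
            have h3 : e k l = e o l + (e o w + e o k - κ) - e o w := by
              rw [← sub_eq_zero, ← h1]
              abel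
            rw [h3]
            abel
  -- expansion of `2 z`
  have hexp : (fun i j => 2 * z i j)
      = ∑ k, ∑ l ∈ univ.filter (fun l => k < l), z k l • (fun p q => 2 * EE k l p q) := by
    ext p q
    simp only [Finset.sum_apply, Pi.smul_apply, smul_eq_mul]
    have h1 : ∀ k l, z k l * (2 * EE k l p q)
        = 2 * (z k l * ind1 k p * ind1 l q) + 2 * (z k l * ind1 l p * ind1 k q) := by
      intro k l
      unfold EE
      ring
    simp only [h1, sum_add_distrib]
    have h2 : (∑ k, ∑ l ∈ univ.filter (fun l => k < l), 2 * (z k l * ind1 k p * ind1 l q))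
        = if p < q then 2 * z p q else 0 := by
      rw [Finset.sum_eq_single p]
      · by_cases hpq : p < q
        · rw [if_pos hpq, Finset.sum_eq_single q]
          · simp [ind1]
          · intro l _ hl
            simp [ind1, Ne.symm hl]
          · intro h
            exact absurd (by simpa using hpq) h
        · rw [if_neg hpq]
          apply sum_eq_zero
          intro l hl
          have : q ≠ l := by
            rintro rfl
            exact hpq (mem_filter.mp hl).2
          simp [ind1, this]
      · intro k _ hk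
        apply sum_eq_zero
        intro l _
        simp [ind1, Ne.symm hk]
      · intro h
        exact absurd (mem_univ _) h
    have h3 : (∑ k, ∑ l ∈ univ.filter (fun l => k < l), 2 * (z k l * ind1 l p * ind1 k q))
        = if q < p then 2 * z q p else 0 := by
      rw [Finset.sum_eq_single q]
      · by_cases hpq : q < p
        · rw [if_pos hpq, Finset.sum_eq_single p]
          · simp [ind1]
          · intro l _ hl
            simp [ind1, Ne.symm hl]
          · intro h
            exact absurd (by simpa using hpq) h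
        · rw [if_neg hpq]
          apply sum_eq_zero
          intro l hl
          have : p ≠ l := by
            rintro rfl
            exact hpq (mem_filter.mp hl).2
          simp [ind1, this]
      · intro k _ hk
        apply sum_eq_zero
        intro l _
        simp [ind1, Ne.symm hk]
      · intro h
        exact absurd (mem_univ _) h
    rw [h2, h3]
    rcases lt_trichotomy p q with h | h | h
    · simp [h, h.not_gt]
    · subst h
      simp [hdiag]
    · simp [h, h.not_gt, hsym q p]
  have hzero : π (fun i j => 2 * z i j) = 0 := by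
    rw [hexp, map_sum]
    simp only [map_sum, map_zsmul]
    exact sum_zero_of_split z hsym hdiag hrow e μ κ hμ
  exact (QuotientAddGroup.eq_zero_iff _).mp hzero

end MP7d5fe8
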