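import Pool.Agent.Work.MP_7d5fe8_co.Colour

/-! Plotkin bound and the lower bound for the chromatic number. -/

open Finset

namespace MP7d5fe8

/-- Plotkin: a family of `2m+1` subsets with pairwise symmetric differences of size `≥ D`. -/
lemma plotkin {n D m : ℕ} (𝒜 : Finset (Finset (Fin n))) (hc : 𝒜.card = 2 * m + 1) (hm : 1 ≤ m)
    (h : ∀ x ∈ 𝒜, ∀ y ∈ 𝒜, x ≠ y → D ≤ (symmDiff x y).card) :
    (2 * m + 1) * D ≤ (m + 1) * n := by
  classical
  -- lower bound for the sum of distances over ordered pairs
  have h1 : (2 * m + 1) * (2 * m) * D ≤ ∑ x ∈ 𝒜, ∑ y ∈ 𝒜, (symmDiff x y).card := by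
    have : ∀ x ∈ 𝒜, (2 * m) * D ≤ ∑ y ∈ 𝒜, (symmDiff x y).card := by
      intro x hx
      rw [← Finset.add_sum_erase _ _ hx]
      have h2 : (2 * m) * D ≤ ∑ y ∈ 𝒜.erase x, (symmDiff x y).card := by
        calc (2 * m) * D = ∑ y ∈ 𝒜.erase x, D := by
              rw [sum_const, card_erase_of_mem hx, hc, smul_eq_mul, Nat.add_sub_cancel]
          _ ≤ _ := sum_le_sum fun y hy => h x hx y (mem_of_mem_erase hy) (ne_of_mem_erase hy).symm
      omega
    calc (2 * m + 1) * (2 * m) * D = ∑ x ∈ 𝒜, (2 * m) * D := by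
          rw [sum_const, hc, smul_eq_mul]; ring
      _ ≤ _ := sum_le_sum this
  -- upper bound by columns
  have h3 : (∑ x ∈ 𝒜, ∑ y ∈ 𝒜, (symmDiff x y).card)
      = ∑ i : Fin n, 2 * ((𝒜.filter (fun x => i ∈ x)).card * (𝒜.filter (fun x => i ∉ x)).card) := by
    have e1 : ∀ x y : Finset (Fin n), (symmDiff x y).card
        = ∑ i : Fin n, ((if i ∈ x then 1 else 0) * (if i ∉ y then 1 else 0)
          + (if i ∉ x then 1 else 0) * (if i ∈ y then 1 else 0)) := by
      intro x y
      have : symmDiff x y = univ.filter (fun i => (i ∈ x ∧ i ∉ y) ∨ (i ∉ x ∧ i ∈ y)) := by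
        ext i
        simp only [mem_symmDiff, mem_filter, mem_univ, true_and]
        tauto
      rw [this, card_filter]
      apply sum_congr rfl
      intro i _
      by_cases hx : i ∈ x <;> by_cases hy : i ∈ y <;> simp [hx, hy]
    simp only [e1]
    have e2 : ∀ x : Finset (Fin n), (∑ y ∈ 𝒜, ∑ i : Fin n,
        ((if i ∈ x then 1 else 0) * (if i ∉ y then 1 else 0)
          + (if i ∉ x then 1 else 0) * (if i ∈ y then 1 else 0)))
        = ∑ i : Fin n, ((if i ∈ x then 1 else 0) * (𝒜.filter (fun y => i ∉ y)).card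
          + (if i ∉ x then 1 else 0) * (𝒜.filter (fun y => i ∈ y)).card) := by
      intro x
      rw [sum_comm]
      apply sum_congr rfl
      intro i _
      rw [sum_add_distrib, ← mul_sum, ← mul_sum, card_filter, card_filter]
    simp only [e2]
    rw [sum_comm]
    apply sum_congr rfl
    intro i _
    rw [sum_add_distrib, ← sum_mul, ← sum_mul, ← card_filter, ← card_filter]
    ring
  have h4 : ∀ i : Fin n,
      2 * ((𝒜.filter (fun x => i ∈ x)).card * (𝒜.filter (fun x => i ∉ x)).card)
      ≤ 2 * (m * (m + 1)) := by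
    intro i
    have hsum := Finset.card_filter_add_card_filter_not (s := 𝒜) (fun x => i ∈ x)
    rw [hc] at hsum
    set p := (𝒜.filter (fun x => i ∈ x)).card
    set q := (𝒜.filter (fun x => i ∉ x)).card
    clear_value p q
    have : p * q ≤ m * (m + 1) := by
      rcases Nat.lt_or_ge m p with hp | hp
      · obtain ⟨k, hk⟩ := Nat.exists_eq_add_of_lt hp
        have hkm : k ≤ m := by omega
        obtain ⟨l, hl⟩ := Nat.exists_eq_add_of_le hkm
        have hq : q = l := by omega
        rw [hq, hk, hl]
        nlinarith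
      · obtain ⟨k, hk⟩ := Nat.exists_eq_add_of_le hp
        have hq : q = p + 2 * k + 1 := by omega
        rw [hq, hk]
        nlinarith
    omega
  have h5 : (∑ x ∈ 𝒜, ∑ y ∈ 𝒜, (symmDiff x y).card) ≤ n * (2 * (m * (m + 1))) := by
    rw [h3]
    calc _ ≤ ∑ i : Fin n, 2 * (m * (m + 1)) := sum_le_sum fun i _ => h4 i
      _ = _ := by rw [sum_const, card_univ, Fintype.card_fin, smul_eq_mul]
  have h6 : (2 * m) * ((2 * m + 1) * D) ≤ (2 * m) * ((m + 1) * n) := by
    have := h1.trans h5
    nlinarith
  exact Nat.le_of_mul_le_mul_left h6 (by omega)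

/-- Add a parity element. -/
def par {n : ℕ} (x : Finset (Fin n)) : Finset (Fin (n + 1)) :=
  if Even x.card then x.map Fin.castSuccEmb else insert (Fin.last n) (x.map Fin.castSuccEmb)

lemma card_symmDiff_par {n : ℕ} (x y : Finset (Fin n)) :
    (symmDiff (par x) (par y)).card
      = (symmDiff x y).card + if Odd (symmDiff x y).card then 1 else 0 := by
  classical
  have hl : ∀ z : Finset (Fin n), Fin.last n ∉ z.map Fin.castSuccEmb := by
    intro z hz
    rw [mem_map] at hz
    obtain ⟨i, _, hi⟩ := hz
    exact absurd hi (Fin.castSucc_lt_last i).ne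
  have hmap : symmDiff (x.map Fin.castSuccEmb) (y.map Fin.castSuccEmb)
      = (symmDiff x y).map Fin.castSuccEmb := by
    ext i
    simp only [mem_symmDiff, mem_map, Fin.coe_castSuccEmb]
    constructor
    · rintro (⟨⟨j, hj, rfl⟩, h2⟩ | ⟨⟨j, hj, rfl⟩, h2⟩)
      · refine ⟨j, Or.inl ⟨hj, fun h => h2 ⟨j, h, rfl⟩⟩, rfl⟩
      · refine ⟨j, Or.inr ⟨hj, fun h => h2 ⟨j, h, rfl⟩⟩, rfl⟩
    · rintro ⟨j, (⟨h1, h2⟩ | ⟨h1, h2⟩), rfl⟩
      · left
        refine ⟨⟨j, h1, rfl⟩, ?_⟩
        rintro ⟨k, hk, hkj⟩
        rw [Fin.castSucc_inj] at hkj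
        exact h2 (hkj ▸ hk)
      · right
        refine ⟨⟨j, h1, rfl⟩, ?_⟩
        rintro ⟨k, hk, hkj⟩
        rw [Fin.castSucc_inj] at hkj
        exact h2 (hkj ▸ hk)
  have hparity : (symmDiff x y).card % 2 = (x.card + y.card) % 2 := by
    have e1 : (symmDiff x y).card = (x \ y).card + (y \ x).card := by
      rw [symmDiff_def, sup_eq_union, card_union_of_disjoint]
      exact disjoint_sdiff_sdiff
    have e2 := card_sdiff_add_card_inter x y
    have e3 := card_sdiff_add_card_inter y x
    rw [inter_comm] at e3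
    omega
  unfold par
  have hcard : ((symmDiff x y).map Fin.castSuccEmb).card = (symmDiff x y).card := card_map _
  by_cases hx : Even x.card <;> by_cases hy : Even y.card
  · have : ¬ Odd (symmDiff x y).card := by
      rw [Nat.not_odd_iff_even, Nat.even_iff]
      rw [Nat.even_iff] at hx hy
      omega
    simp only [hx, hy, if_true, this, if_false, hmap, hcard, add_zero]
  · have : Odd (symmDiff x y).card := by
      rw [Nat.odd_iff]
      rw [Nat.not_even_iff] at hy
      rw [Nat.even_iff] at hx
      omega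
    simp only [hx, hy, if_true, this, if_false]
    have : symmDiff (x.map Fin.castSuccEmb) (insert (Fin.last n) (y.map Fin.castSuccEmb))
        = insert (Fin.last n) ((symmDiff x y).map Fin.castSuccEmb) := by
      rw [← hmap]
      ext i
      have := hl x
      have := hl y
      simp only [mem_symmDiff, mem_insert]
      by_cases hi : i = Fin.last n
      · subst hi
        tauto
      · tauto
    rw [this, card_insert_of_notMem (hl _), hcard]
  · have : Odd (symmDiff x y).card := by
      rw [Nat.odd_iff]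
      rw [Nat.not_even_iff] at hx
      rw [Nat.even_iff] at hy
      omega
    simp only [hx, hy, if_true, this, if_false]
    have : symmDiff (insert (Fin.last n) (x.map Fin.castSuccEmb)) (y.map Fin.castSuccEmb)
        = insert (Fin.last n) ((symmDiff x y).map Fin.castSuccEmb) := by
      rw [← hmap]
      ext i
      have := hl x
      have := hl y
      simp only [mem_symmDiff, mem_insert]
      by_cases hi : i = Fin.last n
      · subst hi
        tauto
      · tauto
    rw [this, card_insert_of_notMem (hl _), hcard]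
  · have : ¬ Odd (symmDiff x y).card := by
      rw [Nat.not_odd_iff_even, Nat.even_iff]
      rw [Nat.even_iff] at hx hy
      omega
    simp only [hx, hy, this, if_false, add_zero]
    have : symmDiff (insert (Fin.last n) (x.map Fin.castSuccEmb))
        (insert (Fin.last n) (y.map Fin.castSuccEmb)) = (symmDiff x y).map Fin.castSuccEmb := by
      rw [← hmap]
      ext i
      have := hl x
      have := hl y
      simp only [mem_symmDiff, mem_insert]
      by_cases hi : i = Fin.last n
      · subst hi
        tauto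
      · tauto
    rw [this, hcard]

/-- Plotkin, improved by a parity element when `D` is odd. -/
lemma plotkin_odd {n D m : ℕ} (𝒜 : Finset (Finset (Fin n))) (hc : 𝒜.card = 2 * m + 1)
    (hm : 1 ≤ m) (hD : Odd D)
    (h : ∀ x ∈ 𝒜, ∀ y ∈ 𝒜, x ≠ y → D ≤ (symmDiff x y).card) :
    (2 * m + 1) * (D + 1) ≤ (m + 1) * (n + 1) := by
  classical
  have hdist : ∀ x ∈ 𝒜, ∀ y ∈ 𝒜, x ≠ y → D + 1 ≤ (symmDiff (par x) (par y)).card := by
    intro x hx y hy hxy
    rw [card_symmDiff_par]
    have := h x hx y hy hxy
    by_cases ho : Odd (symmDiff x y).card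
    · simp only [ho, if_true]
      omega
    · simp only [ho, if_false, add_zero]
      rcases Nat.lt_or_ge D (symmDiff x y).card with hlt | hge
      · exact hlt
      · have : (symmDiff x y).card = D := le_antisymm hge this
        rw [this] at ho
        exact absurd hD ho
  have hinj : Set.InjOn par (𝒜 : Set (Finset (Fin n))) := by
    intro x hx y hy hxy
    by_contra hne
    have := hdist x hx y hy hne
    rw [hxy, symmDiff_self] at this
    simp at this
  apply plotkin (𝒜.image par) (by rw [card_image_of_injOn hinj, hc]) hm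
  intro u hu v hv huv
  rw [mem_image] at hu hv
  obtain ⟨x, hx, rfl⟩ := hu
  obtain ⟨y, hy, rfl⟩ := hv
  exact hdist x hx y hy (fun h => huv (by rw [h]))

/-- The hypothesis on `n, d` under which a code with distance `d + 1` has at most `2m` words. -/
lemma lower {m n d c : ℕ} (hm : 1 ≤ m)
    (h : (m + 1) * n < (2 * m + 1) * (d + 1) ∨
      (Even d ∧ (m + 1) * (n + 1) < (2 * m + 1) * (d + 2)))
    (hcol : (QPow n d).Colorable c) : 2 ^ n ≤ 2 * m * c := by
  classical
  obtain ⟨C⟩ := hcol
  have hfib : ∀ k : Fin c, (univ.filter (fun x : Finset (Fin n) => C x = k)).card ≤ 2 * m := by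
    intro k
    by_contra hlt
    rw [not_le] at hlt
    obtain ⟨𝒜, hA, hAc⟩ := Finset.exists_subset_card_eq (n := 2 * m + 1) hlt
    have hd : ∀ x ∈ 𝒜, ∀ y ∈ 𝒜, x ≠ y → d + 1 ≤ (symmDiff x y).card := by
      intro x hx y hy hxy
      by_contra hlt'
      rw [not_le] at hlt'
      have hadj : (QPow n d).Adj x y := by
        refine ⟨?_, by omega⟩
        rw [Nat.one_le_iff_ne_zero, Ne, card_eq_zero]
        intro h0
        exact hxy (symmDiff_eq_bot.mp h0)
      have h1 := (mem_filter.mp (hA hx)).2
      have h2 := (mem_filter.mp (hA hy)).2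
      exact C.valid hadj (h1.trans h2.symm)
    rcases h with h | ⟨he, h⟩
    · have := plotkin 𝒜 hAc hm hd
      omega
    · have h1 := plotkin_odd 𝒜 hAc hm (Even.add_one he) hd
      have h2 : d + 1 + 1 = d + 2 := rfl
      rw [h2] at h1
      omega
  have hsum : ∑ k : Fin c, (univ.filter (fun x : Finset (Fin n) => C x = k)).card = 2 ^ n := by
    rw [← Finset.card_eq_sum_card_fiberwise (s := univ) (t := univ) (f := fun x => C x)
      (fun _ _ => mem_coe.mpr (mem_univ _))]
    rw [card_univ, Fintype.card_finset, Fintype.card_fin]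
  calc 2 ^ n = ∑ k : Fin c, (univ.filter (fun x : Finset (Fin n) => C x = k)).card := hsum.symm
    _ ≤ ∑ _k : Fin c, 2 * m := sum_le_sum fun k _ => hfib k
    _ = 2 * m * c := by rw [sum_const, card_univ, Fintype.card_fin, smul_eq_mul, mul_comm]

end MP7d5fe8
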