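import Pool.Agent.Work.MP_7d5fe8_co.Uniform
import Pool.Agent.Work.MP_7d5fe8_co.Colour

/-! Tiling of the whole cube, without free coordinates, up to a bounded part. -/

open Finset

namespace MP7d5fe8

set_option linter.unusedSectionVars false

lemma hammingDist_comp {α β : Type} [Fintype α] [Fintype β] [DecidableEq α] [DecidableEq β]
    (e : α ≃ β) (x y : Wd β) :
    hammingDist (fun c => x (e c)) (fun c => y (e c)) = hammingDist x y := by
  unfold hammingDist
  rw [card_filter, card_filter]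
  exact Equiv.sum_comp e (fun c => if x c ≠ y c then 1 else 0)

section
variable {A : Type} [Fintype A] [DecidableEq A] {T s n₁ m : ℕ}

/-- The coordinates: rows `A`, columns `Fin (T + 1)`, `s` layers, and a remainder. -/
abbrev Co (A : Type) (T s n₁ : ℕ) : Type := ((A × Fin (T + 1)) × Fin s) ⊕ Fin n₁

/-- Deviation of a coordinate from the last one of its block. -/
def dev (g : A × Fin (T + 1)) : Wd (Co A T s n₁) →+ (Fin s → ZMod 2) where
  toFun x := fun l => x (Sum.inl (g, l)) + x (Sum.inl ((g.1, Fin.last T), l))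
  map_zero' := by ext l; simp
  map_add' x y := by ext l; simp only [Pi.add_apply]; ring

/-- Values of the last coordinates of a row. -/
def row (a : A) : Wd (Co A T s n₁) →+ (Fin s → ZMod 2) where
  toFun x := fun l => x (Sum.inl ((a, Fin.last T), l))
  map_zero' := by ext l; simp
  map_add' x y := by ext l; simp

/-- The positions to be freed. -/
def pos (a0 a1 : A) : Finset (A × Fin (T + 1)) :=
  univ.filter (fun g => g.2 ≠ Fin.last T ∧ ((g.1 = a0 ∨ g.1 = a1) → g.2 ≠ 0))

/-- The words which are block-constant at the positions outside `S`. -/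
def Wsub (s n₁ : ℕ) (a0 a1 : A) (S : Finset (A × Fin (T + 1))) : AddSubgroup (Wd (Co A T s n₁)) where
  carrier := {x | ∀ g ∈ pos a0 a1, g ∉ S → dev g x = 0}
  zero_mem' := fun g _ _ => map_zero _
  add_mem' := fun {x y} hx hy g hg hgS => by
    rw [map_add, hx g hg hgS, hy g hg hgS, add_zero]
  neg_mem' := fun {x} hx g hg hgS => by
    rw [map_neg, hx g hg hgS, neg_zero]

lemma mem_Wsub {a0 a1 : A} {S : Finset (A × Fin (T + 1))} {x : Wd (Co A T s n₁)} :
    x ∈ Wsub s n₁ a0 a1 S ↔ ∀ g ∈ pos a0 a1, g ∉ S → dev g x = 0 := Iff.rfl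

/-- The words built from an assignment of balanced sets to the blocks, with two columns swapped. -/
def wrd (F : A × Fin s → Bal m) (g₀ g₁ : A × Fin (T + 1)) (b : Fin (2 * m) → Wd (Fin n₁))
    (i : Fin (2 * m)) : Wd (Co A T s n₁) :=
  Sum.elim (fun c => val (F ((Equiv.swap g₀ g₁ c.1).1, c.2)) i) (b i)

lemma Sep_wrd (hm : 1 ≤ m) {γ D₁ : ℕ} {F : A × Fin s → Bal m}
    (hF : ∀ τ, (univ.filter (fun x => F x = τ)).card = γ) (g₀ g₁ : A × Fin (T + 1))
    {b : Fin (2 * m) → Wd (Fin n₁)} (hb : Sep D₁ b) :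
    Sep ((T + 1) * (γ * (2 * Nat.centralBinom (m - 1))) + D₁) (wrd F g₀ g₁ b) := by
  classical
  intro i j hij
  rw [hammingDist_sum]
  have h1 : ∀ k, (fun c => wrd F g₀ g₁ b k (Sum.inr c)) = b k := fun k => rfl
  have h2 : hammingDist (fun c => wrd F g₀ g₁ b i (Sum.inl c))
      (fun c => wrd F g₀ g₁ b j (Sum.inl c))
      = hammingDist (fun c : (A × Fin (T + 1)) × Fin s => val (F (c.1.1, c.2)) i)
        (fun c : (A × Fin (T + 1)) × Fin s => val (F (c.1.1, c.2)) j) :=
    hammingDist_comp (Equiv.prodCongr (Equiv.swap g₀ g₁) (Equiv.refl (Fin s)))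
      (fun c : (A × Fin (T + 1)) × Fin s => val (F (c.1.1, c.2)) i)
      (fun c : (A × Fin (T + 1)) × Fin s => val (F (c.1.1, c.2)) j)
  have h3 : hammingDist (fun c : (A × Fin (T + 1)) × Fin s => val (F (c.1.1, c.2)) i)
        (fun c : (A × Fin (T + 1)) × Fin s => val (F (c.1.1, c.2)) j)
      = (T + 1) * (univ.filter (fun x : A × Fin s => val (F x) i ≠ val (F x) j)).card := by
    unfold hammingDist
    rw [card_filter, card_filter, Fintype.sum_prod_type, Fintype.sum_prod_type,
      Fintype.sum_prod_type, mul_sum]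
    apply sum_congr rfl
    intro a _
    have e : ∀ u : Fin (T + 1), (∑ l : Fin s,
        if (fun c : (A × Fin (T + 1)) × Fin s => val (F (c.1.1, c.2)) i) ((a, u), l)
          ≠ (fun c : (A × Fin (T + 1)) × Fin s => val (F (c.1.1, c.2)) j) ((a, u), l)
        then 1 else 0) = ∑ l : Fin s, if val (F (a, l)) i ≠ val (F (a, l)) j then 1 else 0 := by
      intro u
      rfl
    rw [sum_congr rfl (fun u _ => e u), sum_const, card_univ, Fintype.card_fin, smul_eq_mul]
  have h4 : (univ.filter (fun x : A × Fin s => val (F x) i ≠ val (F x) j)).card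
      = γ * (univ.filter (fun τ : Bal m => ¬ (i ∈ τ.1 ↔ j ∈ τ.1))).card := by
    rw [Finset.card_eq_sum_card_fiberwise
      (s := univ.filter (fun x : A × Fin s => val (F x) i ≠ val (F x) j))
      (t := univ.filter (fun τ : Bal m => ¬ (i ∈ τ.1 ↔ j ∈ τ.1))) (f := F)]
    · have : ∀ τ ∈ univ.filter (fun τ : Bal m => ¬ (i ∈ τ.1 ↔ j ∈ τ.1)),
          ((univ.filter (fun x : A × Fin s => val (F x) i ≠ val (F x) j)).filter
            (fun x => F x = τ)).card = γ := by
        intro τ hτ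
        rw [mem_filter] at hτ
        rw [← hF τ, filter_filter]
        congr 1
        ext x
        simp only [mem_filter, mem_univ, true_and]
        constructor
        · exact fun h => h.2
        · intro h
          refine ⟨?_, h⟩
          rw [h, val_ne_iff]
          exact hτ.2
      rw [sum_congr rfl this, sum_const, smul_eq_mul, mul_comm]
    · intro x hx
      rw [mem_coe, mem_filter] at hx ⊢
      exact ⟨mem_univ _, (val_ne_iff _ _ _).mp hx.2⟩
  rw [h1, h1, h2, h3, h4]
  have h5 := card_sep m hm hij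
  have h6 := hb i j hij
  have h7 := Nat.mul_le_mul_left (T + 1) (Nat.mul_le_mul_left γ h5)
  omega

lemma exists_chunks (hdvd : m ∣ 2 ^ (s - 1) * (2 ^ s - 1)) (z : Fin s) :
    ∃ c : ℕ, Nonempty (Fin c × Fin m ≃ {y : Wd (Fin s) // y ≠ 0} × {l : Wd (Fin s) // l z = 0}) := by
  classical
  obtain ⟨c, hc⟩ := hdvd
  refine ⟨c, ⟨Fintype.equivOfCardEq ?_⟩⟩
  have h1 : Fintype.card {y : Wd (Fin s) // y ≠ 0} = 2 ^ s - 1 := by
    rw [Fintype.card_subtype_compl, Fintype.card_fun, ZMod.card, Fintype.card_fin]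
    simp
  have h2 : Fintype.card {l : Wd (Fin s) // l z = 0} = 2 ^ (s - 1) := by
    have e : ∀ l : Wd (Fin s), l z = 0 ↔ l ∈ suppSet (univ.erase z) := by
      intro l
      rw [mem_suppSet]
      constructor
      · intro h c hc
        have : c = z := by
          by_contra hne
          exact hc (mem_erase.mpr ⟨hne, mem_univ _⟩)
        rw [this, h]
      · intro h
        exact h z (by simp)
    rw [Fintype.card_congr (Equiv.subtypeEquivRight e), Fintype.card_coe, card_suppSet,
      card_erase_of_mem (mem_univ _), card_univ, Fintype.card_fin]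
  rw [Fintype.card_prod, Fintype.card_prod, Fintype.card_fin, Fintype.card_fin, h1, h2,
    mul_comm, ← hc, mul_comm]

lemma near_step (hm : 1 ≤ m) (hs : 1 ≤ s) (hdvd : m ∣ 2 ^ (s - 1) * (2 ^ s - 1)) (hT : 1 ≤ T)
    (hA : Fintype.card A = 3 * Nat.centralBinom m) {D₁ : ℕ} {b : Fin (2 * m) → Wd (Fin n₁)}
    (hb : Sep D₁ b) {a0 a1 : A} (h01 : a0 ≠ a1) {S : Finset (A × Fin (T + 1))}
    {g₀ : A × Fin (T + 1)} (hg₀ : g₀ ∈ pos a0 a1) (hgS : g₀ ∉ S) :
    ∃ τ ∈ Til (Co A T s n₁) ((T + 1) * (3 * s * (2 * Nat.centralBinom (m - 1))) + D₁) (2 * m),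
      ∀ x, (x ∈ Wsub s n₁ a0 a1 S → τ x = 0) ∧ (x ∉ Wsub s n₁ a0 a1 (insert g₀ S) → τ x = 0) ∧
        (x ∈ Wsub s n₁ a0 a1 (insert g₀ S) → x ∉ Wsub s n₁ a0 a1 S → τ x = 1) := by
  classical
  have hlast0 : (Fin.last T : Fin (T + 1)) ≠ 0 := by
    intro h
    have := congrArg Fin.val h
    simp at this
    omega
  -- the partner row
  obtain ⟨p, hp, hpg⟩ : ∃ p, (p = a0 ∨ p = a1) ∧ p ≠ g₀.1 := by
    by_cases h : g₀.1 = a0
    · exact ⟨a1, Or.inr rfl, by rw [h]; exact h01.symm⟩
    · exact ⟨a0, Or.inl rfl, fun h' => h h'.symm⟩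
  -- a third row
  obtain ⟨a₂, ha₂p, ha₂g⟩ : ∃ a₂, a₂ ≠ p ∧ a₂ ≠ g₀.1 := by
    have h3 : 3 ≤ Fintype.card A := by
      rw [hA]
      have := Nat.centralBinom_pos m
      omega
    have : (({p, g₀.1} : Finset A)).card < (univ : Finset A).card := by
      rw [card_univ]
      have := card_le_two (a := p) (b := g₀.1)
      omega
    obtain ⟨a, -, ha⟩ := Finset.exists_mem_notMem_of_card_lt_card this
    rw [mem_insert, mem_singleton, not_or] at ha
    exact ⟨a, ha.1, ha.2⟩
  set g₁ : A × Fin (T + 1) := (p, 0) with hg₁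
  have hg₀' := hg₀
  rw [pos, mem_filter] at hg₀'
  have hlast : g₀.2 ≠ Fin.last T := hg₀'.2.1
  have hg₁pos : g₁ ∉ pos a0 a1 := by
    rw [pos, mem_filter]
    rintro ⟨_, _, h⟩
    exact h hp rfl
  have hsw_last : ∀ a, Equiv.swap g₀ g₁ (a, Fin.last T) = (a, Fin.last T) := by
    intro a
    apply Equiv.swap_apply_of_ne_of_ne
    · intro h
      exact hlast (congrArg Prod.snd h).symm
    · intro h
      exact hlast0 (congrArg Prod.snd h)
  -- chunks
  let z : Fin s := ⟨0, hs⟩
  obtain ⟨c, ⟨E⟩⟩ := exists_chunks hdvd z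
  -- balanced sets for the prescribed blocks
  choose bal hbal using fun cc : Fin m → ZMod 2 => exists_bal cc
  let f : Fin c → A × Fin s → Bal m := fun k x =>
    if x.1 = p then bal (fun _ => 0)
    else if x.1 = g₀.1 then bal (fun i' => (E (k, i')).1.1 x.2)
    else bal (fun i' => (E (k, i')).2.1 x.2)
  let S₃ : Finset (A × Fin s) := ({p, g₀.1, a₂} : Finset A) ×ˢ univ
  have hS₃ : S₃.card ≤ 3 * s := by
    rw [card_product, card_univ, Fintype.card_fin]
    exact Nat.mul_le_mul_right s card_le_three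
  have hF : ∀ k : Fin c, ∃ F : A × Fin s → Bal m, (∀ x ∈ S₃, F x = f k x) ∧
      ∀ y, (univ.filter (fun x => F x = y)).card = 3 * s := by
    intro k
    apply exists_uniform (3 * s) _ S₃ hS₃ (f k)
    rw [Fintype.card_prod, hA, Fintype.card_fin, card_Bal]
    ring
  choose F hF1 hF2 using hF
  have hFp : ∀ k l, F k (p, l) = bal (fun _ => 0) := by
    intro k l
    rw [hF1 k (p, l) (by simp [S₃])]
    simp [f]
  have hFg : ∀ k l, F k (g₀.1, l) = bal (fun i' => (E (k, i')).1.1 l) := by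
    intro k l
    rw [hF1 k (g₀.1, l) (by simp [S₃])]
    simp [f, hpg.symm]
  have hFa : ∀ k l, F k (a₂, l) = bal (fun i' => (E (k, i')).2.1 l) := by
    intro k l
    rw [hF1 k (a₂, l) (by simp [S₃])]
    simp [f, ha₂p, ha₂g]
  have hdev0 : ∀ k i, dev g₀ (wrd (n₁ := n₁) (F k) g₀ g₁ b i) = (E (k, (prs m i).1)).1.1 := by
    intro k i
    ext l
    show val (F k ((Equiv.swap g₀ g₁ g₀).1, l)) i
      + val (F k ((Equiv.swap g₀ g₁ (g₀.1, Fin.last T)).1, l)) i = _
    rw [Equiv.swap_apply_left, hsw_last]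
    show val (F k (p, l)) i + val (F k (g₀.1, l)) i = _
    rw [hFp, hFg, hbal, hbal, add_zero, ← add_assoc, CharTwo.add_self_eq_zero, zero_add]
  have hrow : ∀ k i l, row a₂ (wrd (n₁ := n₁) (F k) g₀ g₁ b i) l
      = (prs m i).2 + (E (k, (prs m i).1)).2.1 l := by
    intro k i l
    show val (F k ((Equiv.swap g₀ g₁ (a₂, Fin.last T)).1, l)) i = _
    rw [hsw_last]
    show val (F k (a₂, l)) i = _
    rw [hFa, hbal]
  have hU : ∀ k i, wrd (n₁ := n₁) (F k) g₀ g₁ b i ∈ Wsub s n₁ a0 a1 (insert g₀ S) := by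
    intro k i g hg hgn
    have h1 : g ≠ g₀ := fun h => hgn (by rw [h]; exact mem_insert_self _ _)
    have h2 : g ≠ g₁ := fun h => hg₁pos (h ▸ hg)
    ext l
    show val (F k ((Equiv.swap g₀ g₁ g).1, l)) i
      + val (F k ((Equiv.swap g₀ g₁ (g.1, Fin.last T)).1, l)) i = 0
    rw [Equiv.swap_apply_of_ne_of_ne h1 h2, hsw_last]
    exact CharTwo.add_self_eq_zero _
  have hE0 : ∀ x, (E x).2.1 z = 0 := fun x => (E x).2.2
  obtain ⟨τ, hτ, hτx⟩ := tile_step (D := (T + 1) * (3 * s * (2 * Nat.centralBinom (m - 1))) + D₁)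
    (Wsub s n₁ a0 a1 (insert g₀ S)) (dev g₀) (row a₂) (fun (k : Fin c) i => wrd (F k) g₀ g₁ b i)
    (fun k => Sep_wrd hm (hF2 k) g₀ g₁ hb) hU
    (by
      intro k i
      rw [hdev0]
      exact (E (k, (prs m i).1)).1.2)
    (by
      intro y l hy
      -- the layer zero value gives the bit
      let l₀ : {l : Wd (Fin s) // l z = 0} := ⟨fun j => l z + l j, CharTwo.add_self_eq_zero _⟩
      obtain ⟨⟨k, i'⟩, hki⟩ := E.surjective (⟨y, hy⟩, l₀)
      refine ⟨k, (prs m).symm (i', l z), ?_, ?_⟩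
      · rw [hdev0]
        simp only [Equiv.apply_symm_apply, hki]
      · ext j
        rw [hrow]
        simp only [Equiv.apply_symm_apply, hki]
        show l z + (l z + l j) = l j
        rw [← add_assoc, CharTwo.add_self_eq_zero, zero_add])
    (by
      intro k i k' i' h1 h2
      rw [hdev0, hdev0] at h1
      have h3 : ∀ j, (prs m i).2 + (E (k, (prs m i).1)).2.1 j
          = (prs m i').2 + (E (k', (prs m i').1)).2.1 j := by
        intro j
        rw [← hrow, ← hrow, h2]
      have h4 : (prs m i).2 = (prs m i').2 := by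
        have := h3 z
        rwa [hE0, hE0, add_zero, add_zero] at this
      have h5 : (E (k, (prs m i).1)).2.1 = (E (k', (prs m i').1)).2.1 := by
        ext j
        have := h3 j
        rw [h4] at this
        exact add_left_cancel this
      have h6 : E (k, (prs m i).1) = E (k', (prs m i').1) :=
        Prod.ext (Subtype.ext h1) (Subtype.ext h5)
      have h7 := E.injective h6
      refine ⟨congrArg Prod.fst h7, ?_⟩
      apply (prs m).injective
      exact Prod.ext (congrArg Prod.snd h7) h4)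
  refine ⟨τ, hτ, fun x => ⟨fun hx => ?_, fun hx => ?_, fun hx hx' => ?_⟩⟩
  · apply (hτx x).2
    rintro ⟨_, h⟩
    exact h (hx g₀ hg₀ hgS)
  · apply (hτx x).2
    rintro ⟨h, _⟩
    exact hx h
  · apply (hτx x).1
    refine ⟨hx, fun h => hx' ?_⟩
    intro g hg hgS'
    by_cases hgg : g = g₀
    · rw [hgg, h]
    · exact hx g hg (fun h' => (mem_insert.mp h').elim hgg hgS')

end

end MP7d5fe8
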