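import Pool.Agent.Work.MP_7d5fe8_co.Core

/-! The step which tiles the part of a subgroup outside the kernel of a map. -/

open Finset

namespace MP7d5fe8

set_option linter.unusedSectionVars false

variable {κ : Type} [Fintype κ] [DecidableEq κ]

/-- If the words of finitely many codes in a subgroup `U` have, as values of `(φ, ℓ)`, each pair
`(y, l)` with `y ≠ 0` exactly once, then `{φ ≠ 0}` in `U` is a sum of translated codes. -/
lemma tile_step {D M : ℕ} {Y Λ C : Type} [AddGroup Y] [AddGroup Λ] [Fintype C]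
    (U : AddSubgroup (Wd κ)) (φ : Wd κ →+ Y) (ℓ : Wd κ →+ Λ) (w : C → Fin M → Wd κ)
    (hw : ∀ k, Sep D (w k)) (hU : ∀ k i, w k i ∈ U) (hφ : ∀ k i, φ (w k i) ≠ 0)
    (hex : ∀ y l, y ≠ 0 → ∃ k i, φ (w k i) = y ∧ ℓ (w k i) = l)
    (hun : ∀ k i k' i', φ (w k i) = φ (w k' i') → ℓ (w k i) = ℓ (w k' i') → k = k' ∧ i = i') :
    ∃ τ ∈ Til κ D M, ∀ g, ((g ∈ U ∧ φ g ≠ 0) → τ g = 1) ∧ (¬ (g ∈ U ∧ φ g ≠ 0) → τ g = 0) := by
  classical
  let L : Finset (Wd κ) := univ.filter (fun x => x ∈ U ∧ φ x = 0 ∧ ℓ x = 0)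
  refine ⟨∑ k : C, ∑ x ∈ L, cnt (fun i => x + w k i), ?_, fun g => ?_⟩
  · refine AddSubmonoid.sum_mem _ fun k _ => AddSubmonoid.sum_mem _ fun x _ => cnt_mem_Til ?_
    intro i j hij
    show D ≤ hammingDist (x + w k i) (x + w k j)
    rw [hammingDist_add_left']
    exact hw k i j hij
  · have key : (∑ k : C, ∑ x ∈ L, cnt (fun i => x + w k i)) g
        = ∑ k : C, ∑ i : Fin M, if (g ∈ U ∧ φ g = φ (w k i) ∧ ℓ g = ℓ (w k i)) then 1 else 0 := by
      simp only [Finset.sum_apply]
      apply sum_congr rfl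
      intro k _
      unfold cnt
      rw [sum_comm]
      apply sum_congr rfl
      intro i _
      have h1 : ∀ x, (x + w k i = g) ↔ (x = g - w k i) :=
        fun x => ⟨fun h => by rw [← h]; exact (add_sub_cancel_right _ _).symm,
          fun h => by rw [h]; exact sub_add_cancel _ _⟩
      simp only [h1]
      rw [Finset.sum_ite_eq' L (g - w k i) (fun _ => 1)]
      have h2 : (g - w k i ∈ L) ↔ (g ∈ U ∧ φ g = φ (w k i) ∧ ℓ g = ℓ (w k i)) := by
        simp only [L, mem_filter, mem_univ, true_and, map_sub, sub_eq_zero]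
        constructor
        · rintro ⟨a, b, c⟩
          refine ⟨?_, b, c⟩
          have := U.add_mem a (hU k i)
          rwa [sub_add_cancel] at this
        · rintro ⟨a, b, c⟩
          exact ⟨U.sub_mem a (hU k i), b, c⟩
      simp only [h2]
    rw [key]
    constructor
    · rintro ⟨hg, hφg⟩
      obtain ⟨k, i, h1, h2⟩ := hex (φ g) (ℓ g) hφg
      rw [Finset.sum_eq_single k, Finset.sum_eq_single i]
      · rw [if_pos]
        exact ⟨hg, h1.symm, h2.symm⟩
      · intro i' _ hi'
        rw [if_neg]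
        rintro ⟨_, b, c⟩
        exact hi' (hun k i' k i (by rw [← b, h1]) (by rw [← c, h2])).2
      · intro h
        exact absurd (mem_univ _) h
      · intro k' _ hk'
        apply sum_eq_zero
        intro i' _
        rw [if_neg]
        rintro ⟨_, b, c⟩
        exact hk' (hun k' i' k i (by rw [← b, h1]) (by rw [← c, h2])).1
      · intro h
        exact absurd (mem_univ _) h
    · intro hg
      apply sum_eq_zero
      intro k _
      apply sum_eq_zero
      intro i _
      rw [if_neg]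
      rintro ⟨a, b, _⟩
      exact hg ⟨a, by rw [b]; exact hφ k i⟩

end MP7d5fe8
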