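import Pool.Agent.Work.MP_7d5fe8_co.Step
import Pool.Agent.Work.MP_7d5fe8_co.Chain

/-! Uniform assignments of balanced sets, and the pair structure of the index set. -/

open Finset

namespace MP7d5fe8

set_option linter.unusedSectionVars false

/-- Extend a prescription on few elements to a map with all fibres of the same size. -/
lemma exists_uniform {X Y : Type} [Fintype X] [DecidableEq X] [Fintype Y] [DecidableEq Y]
    (γ : ℕ) (hcard : Fintype.card X = Fintype.card Y * γ) (S : Finset X) (hS : S.card ≤ γ)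
    (f : X → Y) : ∃ F : X → Y, (∀ x ∈ S, F x = f x) ∧
      ∀ y, (univ.filter (fun x => F x = y)).card = γ := by
  classical
  obtain ⟨ι⟩ : Nonempty ({x // x ∈ S} ↪ Fin γ) :=
    Function.Embedding.nonempty_of_card_le (by simpa using hS)
  rcases Nat.eq_zero_or_pos γ with h0 | hγ
  · subst h0
    have hX : IsEmpty X := by
      rw [← Fintype.card_eq_zero_iff, hcard, mul_zero]
    exact ⟨f, fun x _ => rfl, fun y => by simp⟩
  let f' : X → Y × Fin γ := fun x => (f x, if h : x ∈ S then ι ⟨x, h⟩ else ⟨0, hγ⟩)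
  have hinj : Set.InjOn f' (S : Set X) := by
    intro x hx y hy hxy
    have h2 := congrArg Prod.snd hxy
    simp only [f', mem_coe.mp hx, mem_coe.mp hy, dif_pos] at h2
    have := ι.injective h2
    exact congrArg Subtype.val this
  obtain ⟨e, he⟩ := Finset.exists_equiv_extend_of_card_eq (α := X) (β := Y × Fin γ)
    (t := univ) (by rw [hcard, card_univ, Fintype.card_prod, Fintype.card_fin])
    (s := S) (f := f') (subset_univ _) hinj
  refine ⟨fun x => (e x : Y × Fin γ).1, fun x hx => ?_, fun y => ?_⟩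
  · show (e x : Y × Fin γ).1 = f x
    rw [he x hx]
  have : (univ.filter (fun x => (e x : Y × Fin γ).1 = y)).card
      = (univ.filter (fun p : Y × Fin γ => p.1 = y)).card := by
    apply Finset.card_bij (fun x _ => (e x : Y × Fin γ))
    · intro x hx
      simpa using hx
    · intro x _ x' _ h
      exact e.injective (Subtype.ext h)
    · intro p hp
      obtain ⟨x, hx⟩ := e.surjective ⟨p, mem_univ p⟩
      refine ⟨x, ?_, by rw [hx]⟩
      simp only [mem_filter, mem_univ, true_and] at hp ⊢
      rw [hx]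
      exact hp
  rw [this]
  have h2 : univ.filter (fun p : Y × Fin γ => p.1 = y) = ({y} : Finset Y) ×ˢ univ := by
    ext ⟨p1, p2⟩
    simp [eq_comm]
  rw [h2, card_product, card_singleton, one_mul, card_univ, Fintype.card_fin]

/-- The balanced sets. -/
abbrev Bal (m : ℕ) : Type := {τ : Finset (Fin (2 * m)) // τ ∈ powersetCard m univ}

lemma card_Bal (m : ℕ) : Fintype.card (Bal m) = Nat.centralBinom m := by
  rw [Fintype.card_coe, card_powersetCard, card_univ, Fintype.card_fin, Nat.centralBinom]

/-- The number of balanced sets which separate two given elements. -/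
lemma card_sep (m : ℕ) (hm : 1 ≤ m) {i j : Fin (2 * m)} (hij : i ≠ j) :
    2 * Nat.centralBinom (m - 1)
      ≤ (univ.filter (fun τ : Bal m => ¬ (i ∈ τ.1 ↔ j ∈ τ.1))).card := by
  classical
  obtain ⟨k, hmk⟩ : ∃ k, m = k + 1 := ⟨m - 1, by omega⟩
  have hk1 : m - 1 = k := by omega
  rw [hk1]
  let s : Finset (Finset (Fin (2 * m))) := powersetCard m univ
  have h0 : (univ.filter (fun τ : Bal m => ¬ (i ∈ τ.1 ↔ j ∈ τ.1))).card
      = (s.filter (fun τ => ¬ (i ∈ τ ↔ j ∈ τ))).card := by
    rw [card_filter, card_filter]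
    exact Finset.sum_coe_sort s (fun τ => if ¬ (i ∈ τ ↔ j ∈ τ) then 1 else 0)
  rw [h0]
  let P : Finset (Finset (Fin (2 * m))) := powersetCard k (univ \ {i, j})
  have hP : P.card = Nat.centralBinom k := by
    rw [card_powersetCard, card_sdiff_of_subset (subset_univ _), card_univ, Fintype.card_fin,
      card_pair hij, Nat.centralBinom]
    congr 1
    omega
  have hmemP : ∀ τ ∈ P, i ∉ τ ∧ j ∉ τ ∧ τ.card = k := by
    intro τ hτ
    rw [mem_powersetCard] at hτ
    refine ⟨fun h => ?_, fun h => ?_, hτ.2⟩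
    · have := hτ.1 h
      simp at this
    · have := hτ.1 h
      simp at this
  have hdisj : Disjoint (P.image (insert i)) (P.image (insert j)) := by
    rw [disjoint_left]
    intro τ h1 h2
    rw [mem_image] at h1 h2
    obtain ⟨τ₁, h1, rfl⟩ := h1
    obtain ⟨τ₂, h2, h3⟩ := h2
    have : j ∈ insert i τ₁ := by rw [← h3]; exact mem_insert_self _ _
    rw [mem_insert] at this
    rcases this with h | h
    · exact hij h.symm
    · exact (hmemP τ₁ h1).2.1 h
  have hinj : ∀ l, (l = i ∨ l = j) → Set.InjOn (insert l) (P : Set (Finset (Fin (2 * m)))) := by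
    intro l hl τ₁ h1 τ₂ h2 h
    have e1 : l ∉ τ₁ := by
      rcases hl with rfl | rfl
      · exact (hmemP τ₁ h1).1
      · exact (hmemP τ₁ h1).2.1
    have e2 : l ∉ τ₂ := by
      rcases hl with rfl | rfl
      · exact (hmemP τ₂ h2).1
      · exact (hmemP τ₂ h2).2.1
    rw [← erase_insert e1, ← erase_insert e2, h]
  have hsub : P.image (insert i) ∪ P.image (insert j) ⊆ s.filter (fun τ => ¬ (i ∈ τ ↔ j ∈ τ)) := by
    intro τ hτ
    rw [mem_union, mem_image, mem_image] at hτ
    rw [mem_filter]
    rcases hτ with ⟨τ₁, h1, rfl⟩ | ⟨τ₁, h1, rfl⟩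
    · obtain ⟨a1, a2, a3⟩ := hmemP τ₁ h1
      refine ⟨?_, ?_⟩
      · rw [mem_powersetCard]
        exact ⟨subset_univ _, by rw [card_insert_of_notMem a1, a3, hmk]⟩
      · simp [a2, hij.symm]
    · obtain ⟨a1, a2, a3⟩ := hmemP τ₁ h1
      refine ⟨?_, ?_⟩
      · rw [mem_powersetCard]
        exact ⟨subset_univ _, by rw [card_insert_of_notMem a2, a3, hmk]⟩
      · simp [a1, hij]
  calc 2 * Nat.centralBinom k = (P.image (insert i) ∪ P.image (insert j)).card := by
        rw [card_union_of_disjoint hdisj, card_image_of_injOn (hinj i (Or.inl rfl)),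
          card_image_of_injOn (hinj j (Or.inr rfl)), hP, two_mul]
    _ ≤ _ := card_le_card hsub

/-- The value of a set at an element. -/
def val {m : ℕ} (τ : Bal m) (i : Fin (2 * m)) : ZMod 2 := if i ∈ τ.1 then 1 else 0

lemma val_ne_iff {m : ℕ} (τ : Bal m) (i j : Fin (2 * m)) :
    val τ i ≠ val τ j ↔ ¬ (i ∈ τ.1 ↔ j ∈ τ.1) := by
  unfold val
  by_cases hi : i ∈ τ.1 <;> by_cases hj : j ∈ τ.1 <;> simp [hi, hj]

/-- Pairs of indices. -/
noncomputable def prs (m : ℕ) : Fin (2 * m) ≃ Fin m × ZMod 2 :=
  Fintype.equivOfCardEq (by rw [Fintype.card_prod, ZMod.card, Fintype.card_fin, Fintype.card_fin,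
    mul_comm])

/-- Balanced set with one element of every pair. -/
lemma exists_bal {m : ℕ} (c : Fin m → ZMod 2) :
    ∃ τ : Bal m, ∀ i, val τ i = (prs m i).2 + c (prs m i).1 := by
  classical
  let σ : Finset (Fin (2 * m)) := univ.filter (fun i => (prs m i).2 + c (prs m i).1 = 1)
  have hσ : σ.card = m := by
    have : σ.card = (univ : Finset (Fin m)).card := by
      apply Finset.card_bij (fun i _ => (prs m i).1)
      · intro i _
        exact mem_univ _
      · intro i hi j hj hij
        simp only [σ, mem_filter, mem_univ, true_and] at hi hj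
        apply (prs m).injective
        ext1
        · exact hij
        · rw [← hj, hij] at hi
          exact add_right_cancel hi
      · intro k _
        refine ⟨(prs m).symm (k, 1 + c k), ?_, ?_⟩
        · simp only [σ, mem_filter, mem_univ, true_and, Equiv.apply_symm_apply]
          rw [add_assoc, CharTwo.add_self_eq_zero, add_zero]
        · simp
    rw [this, card_univ, Fintype.card_fin]
  refine ⟨⟨σ, by rw [mem_powersetCard]; exact ⟨subset_univ _, hσ⟩⟩, fun i => ?_⟩
  unfold val
  simp only [σ, mem_filter, mem_univ, true_and]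
  by_cases h : (prs m i).2 + c (prs m i).1 = 1
  · rw [if_pos h, h]
  · rw [if_neg h]
    have h2 : ∀ a : ZMod 2, a ≠ 1 → 0 = a := by decide
    exact h2 _ h

end MP7d5fe8
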